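import Pool.Agent.Helper79.TY.Prod
import Pool.Agent.Helper29.CC.Choice

/-!
# One inequality for all circuits of unions and sumsets
-/

namespace Pool.Agent.Helper79.TY

open scoped Pointwise
open Pool.Agent.Helper82.CF Pool.Agent.Helper29.CC

section Size

variable {G : Type*} [AddCommGroup G] [DecidableEq G]

lemma circuit_nonempty {s : ℕ} {S : ℕ → Finset G} (hS : IsCircuit s S) :
    ∀ i < s, (S i).Nonempty := by
  intro i
  induction i using Nat.strong_induction_on with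
  | _ i ih =>
    intro hi
    rcases hS i hi with ⟨t, ht⟩ | ⟨a, ha, b, hb, h⟩ | ⟨a, ha, b, hb, h⟩
    · rw [ht]
      exact Finset.singleton_nonempty t
    · rw [h]
      exact (ih a ha (ha.trans hi)).mono Finset.subset_union_left
    · rw [h]
      exact (ih a ha (ha.trans hi)).add (ih b hb (hb.trans hi))

/-- The elements of `S i` are sums of the points of the circuit with coefficients up to `2 ^ i`. -/
lemma circuit_coeff {s : ℕ} {S : ℕ → Finset G} (hS : IsCircuit s S) :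
    ∃ x : ℕ → G, ∀ i < s, ∀ z ∈ S i, ∃ n : ℕ → ℕ, (∀ j, n j ≤ 2 ^ i) ∧
      z = ∑ j ∈ Finset.range s, n j • x j := by
  classical
  have hx : ∀ i, ∃ t : G, ∀ t', S i = {t'} → t' = t := by
    intro i
    by_cases h : ∃ t, S i = {t}
    · obtain ⟨t, ht⟩ := h
      refine ⟨t, fun t' ht' => ?_⟩
      rw [ht] at ht'
      exact (Finset.singleton_injective ht').symm
    · exact ⟨0, fun t' ht' => (h ⟨t', ht'⟩).elim⟩
  choose x hx using hx
  refine ⟨x, ?_⟩
  intro i
  induction i using Nat.strong_induction_on with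
  | _ i ih =>
    intro hi z hz
    rcases hS i hi with ⟨t, ht⟩ | ⟨a, ha, b, hb, h⟩ | ⟨a, ha, b, hb, h⟩
    · have h1 := hx i t ht
      rw [ht, Finset.mem_singleton] at hz
      refine ⟨fun j => if j = i then 1 else 0, fun j => ?_, ?_⟩
      · simp only
        split_ifs
        · exact Nat.one_le_two_pow
        · exact Nat.zero_le _
      · rw [hz, h1]
        simp only [ite_smul, one_smul, zero_smul]
        rw [Finset.sum_ite_eq', if_pos (Finset.mem_range.2 hi)]
    · rw [h, Finset.mem_union] at hz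
      rcases hz with hz | hz
      · obtain ⟨n, hn, e⟩ := ih a ha (ha.trans hi) z hz
        exact ⟨n, fun j => (hn j).trans (Nat.pow_le_pow_right (by norm_num) ha.le), e⟩
      · obtain ⟨n, hn, e⟩ := ih b hb (hb.trans hi) z hz
        exact ⟨n, fun j => (hn j).trans (Nat.pow_le_pow_right (by norm_num) hb.le), e⟩
    · rw [h, Finset.mem_add] at hz
      obtain ⟨y, hy, w, hw, rfl⟩ := hz
      obtain ⟨n, hn, e⟩ := ih a ha (ha.trans hi) y hy
      obtain ⟨m, hm, e'⟩ := ih b hb (hb.trans hi) w hw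
      refine ⟨fun j => n j + m j, fun j => ?_, ?_⟩
      · have h1 : 2 ^ a ≤ 2 ^ (i - 1) := Nat.pow_le_pow_right (by norm_num) (by omega)
        have h2 : 2 ^ b ≤ 2 ^ (i - 1) := Nat.pow_le_pow_right (by norm_num) (by omega)
        have h3 : 2 ^ i = 2 * 2 ^ (i - 1) := by
          rw [← pow_succ']
          congr 1
          omega
        have := hn j
        have := hm j
        simp only
        omega
      · rw [e, e', ← Finset.sum_add_distrib]
        exact Finset.sum_congr rfl fun j _ => (add_smul _ _ _).symm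

lemma circuit_card {s : ℕ} {S : ℕ → Finset G} (hS : IsCircuit s S) {i : ℕ} (hi : i < s) :
    (S i).card ≤ 2 ^ (s * s) := by
  classical
  obtain ⟨x, hx⟩ := circuit_coeff hS
  have h1 : S i ⊆ (Fintype.piFinset fun _ : Fin s => Finset.range (2 ^ (s - 1) + 1)).image
      fun n : Fin s → ℕ => ∑ j : Fin s, n j • x j := by
    intro z hz
    obtain ⟨n, hn, e⟩ := hx i hi z hz
    rw [Finset.mem_image]
    refine ⟨fun j => n j, ?_, ?_⟩
    · rw [Fintype.mem_piFinset]
      intro j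
      rw [Finset.mem_range]
      have : 2 ^ i ≤ 2 ^ (s - 1) := Nat.pow_le_pow_right (by norm_num) (by omega)
      have := hn j
      omega
    · rw [e, Finset.sum_range]
  refine (Finset.card_le_card h1).trans (Finset.card_image_le.trans ?_)
  rw [Fintype.card_piFinset, Finset.prod_const, Finset.card_range, Finset.card_univ,
    Fintype.card_fin, pow_mul]
  refine Nat.pow_le_pow_left ?_ _
  have h3 : 2 ^ s = 2 * 2 ^ (s - 1) := by
    rw [← pow_succ']
    congr 1
    omega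
  have : 1 ≤ 2 ^ (s - 1) := Nat.one_le_two_pow
  omega

end Size

/-- Product form, for subsets of `A` up to `x`. -/
theorem circuits_prod {A : Set ℕ} {k x : ℕ} (hg : ∀ n ≤ 2 * x, rep A n < 2 ^ (k + 1)) {s : ℕ}
    {S : ℕ → Finset ℤ} (hS : IsCircuit s S) {i : ℕ} (hi : i < s)
    (hA : ∀ z ∈ S i, ∃ a ∈ A, a ≤ x ∧ (a : ℤ) = z) :
    (S i).card ≤ (6 * s ^ 2 * (8 * k + 3)) ^ k := by
  by_contra hlt
  push Not at hlt
  obtain ⟨c, l, -, hl, hs⟩ := exists_cube_prod hS hi hlt
  have hB : ∀ n, rep {a | a ∈ A ∧ a ≤ x} n < 2 ^ (k + 1) := by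
    intro n
    rcases Nat.lt_or_ge (2 * x) n with h | h
    · have h0 : rep {a | a ∈ A ∧ a ≤ x} n = 0 := by
        unfold rep
        rw [Set.ncard_eq_zero (rep_finite _ n)]
        ext p
        simp only [Set.mem_ofPred_eq, Set.mem_empty_iff_false, iff_false]
        rintro ⟨⟨-, h1⟩, ⟨-, h2⟩, h3⟩
        omega
      rw [h0]
      positivity
    · exact (rep_mono (fun a ha => ha.1) n).trans_lt (hg n h)
  obtain ⟨n, hn⟩ := cube_rep (A := {a | a ∈ A ∧ a ≤ x}) (c := c) (l := l) (fun z hz => by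
    obtain ⟨a, ha, hax, haz⟩ := hA z (hs hz)
    exact ⟨a, ⟨ha, hax⟩, haz⟩)
  have h2 := hB n
  omega

/-- The arithmetic of the rate. -/
lemma rate_arith {s K N : ℕ} (hs : 1 ≤ s) (hN1 : 1 ≤ N) (hK : 1 ≤ K)
    (hN : N ≤ (6 * s ^ 2 * (8 * K + 3)) ^ K) (hsize : N ≤ 2 ^ (s * s)) :
    (N : ℝ) ^ (1 / 16 / Real.log (s + 1)) ≤ 2 ^ K := by
  have hN0 : (0:ℝ) < N := by exact_mod_cast hN1
  have hs1 : (1:ℝ) ≤ s := by exact_mod_cast hs
  have hl2 : (0.6931471803 : ℝ) < Real.log 2 := Real.log_two_gt_d9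
  have hls : Real.log 2 ≤ Real.log (s + 1) := Real.log_le_log (by norm_num) (by linarith)
  have hls0 : 0 < Real.log ((s:ℝ) + 1) := by linarith
  have hK0 : (1:ℝ) ≤ K := by exact_mod_cast hK
  have hlN : 0 ≤ Real.log N := Real.log_nonneg (by exact_mod_cast hN1)
  have key : Real.log N ≤ 11 * K * Real.log (s + 1) := by
    rcases Nat.lt_or_ge ((s + 1) ^ 2) K with h | h
    · -- `K` is large
      have h1 : Real.log N ≤ (s * s : ℕ) * Real.log 2 := by
        have h2 : (N : ℝ) ≤ (2:ℝ) ^ (s * s) := by exact_mod_cast hsize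
        have h3 := Real.log_le_log hN0 h2
        rwa [Real.log_pow] at h3
      have h4 : ((s * s : ℕ) : ℝ) ≤ K := by
        have : s * s ≤ K := by nlinarith
        exact_mod_cast this
      calc Real.log N ≤ (s * s : ℕ) * Real.log 2 := h1
        _ ≤ K * Real.log (s + 1) := mul_le_mul h4 hls (by linarith) (by linarith)
        _ ≤ 11 * K * Real.log (s + 1) := by nlinarith [mul_pos (by linarith : (0:ℝ) < K) hls0]
    · have h1 : Real.log N ≤ K * Real.log ((6 * s ^ 2 * (8 * K + 3) : ℕ) : ℝ) := by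
        have h2 : (N : ℝ) ≤ (((6 * s ^ 2 * (8 * K + 3) : ℕ) : ℝ)) ^ K := by exact_mod_cast hN
        have h3 := Real.log_le_log hN0 h2
        rwa [Real.log_pow] at h3
      have h2 : ((6 * s ^ 2 * (8 * K + 3) : ℕ) : ℝ) ≤ 66 * ((s:ℝ) + 1) ^ 4 := by
        have hK2 : (K:ℝ) ≤ ((s:ℝ) + 1) ^ 2 := by exact_mod_cast h
        have h3 : (1:ℝ) ≤ ((s:ℝ) + 1) ^ 2 := one_le_pow₀ (by linarith)
        push_cast
        calc 6 * (s:ℝ) ^ 2 * (8 * K + 3) ≤ 6 * ((s:ℝ) + 1) ^ 2 * (11 * ((s:ℝ) + 1) ^ 2) := by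
              refine mul_le_mul ?_ (by linarith) (by positivity) (by positivity)
              nlinarith
          _ = _ := by ring
      have h3 : Real.log ((6 * s ^ 2 * (8 * K + 3) : ℕ) : ℝ) ≤ 11 * Real.log (s + 1) := by
        have h4 : (0:ℝ) < ((6 * s ^ 2 * (8 * K + 3) : ℕ) : ℝ) := by
          have : 0 < 6 * s ^ 2 * (8 * K + 3) := by positivity
          exact_mod_cast this
        refine (Real.log_le_log h4 h2).trans ?_
        rw [Real.log_mul (by norm_num) (by positivity), Real.log_pow]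
        have h5 : Real.log 66 ≤ 7 * Real.log 2 := by
          rw [← Real.log_rpow (by norm_num)]
          refine Real.log_le_log (by norm_num) ?_
          norm_num
        push_cast
        linarith
      calc Real.log N ≤ K * Real.log ((6 * s ^ 2 * (8 * K + 3) : ℕ) : ℝ) := h1
        _ ≤ K * (11 * Real.log (s + 1)) := mul_le_mul_of_nonneg_left h3 (by linarith)
        _ = _ := by ring
  rw [Real.rpow_def_of_pos hN0]
  have h2K : (2:ℝ) ^ K = Real.exp (K * Real.log 2) := by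
    rw [Real.exp_nat_mul, Real.exp_log (by norm_num)]
  rw [h2K, Real.exp_le_exp]
  have h6 : Real.log N * (1 / 16 / Real.log (s + 1)) = Real.log N / (16 * Real.log (s + 1)) := by
    field_simp
  rw [h6, div_le_iff₀ (by positivity)]
  have h7 : 0 < K * Real.log (s + 1) := mul_pos (by linarith) hls0
  calc Real.log N ≤ 11 * K * Real.log (s + 1) := key
    _ = 11 * (K * Real.log (s + 1)) := by ring
    _ ≤ (16 * Real.log 2) * (K * Real.log (s + 1)) :=
        mul_le_mul_of_nonneg_right (by linarith) h7.le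
    _ = _ := by ring

/-- **One inequality for all circuits.** If `s` unions and sumsets compute a set `S` of elements
of `A` up to `x`, then `r_A(n) ≥ |S| ^ (1 / (16 log (s + 1)))` for some `n ≤ 2 x`. -/
theorem rate (A : Set ℕ) (x s : ℕ) (S : ℕ → Finset ℤ) (i : ℕ) (hS : IsCircuit s S) (hi : i < s)
    (hA : ∀ z ∈ S i, ∃ a ∈ A, a ≤ x ∧ (a : ℤ) = z) :
    ∃ n ≤ 2 * x, ((S i).card : ℝ) ^ (1 / 16 / Real.log (s + 1)) ≤ rep A n := by
  classical
  have hs : 1 ≤ s := by omega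
  have hne := circuit_nonempty hS i hi
  have hN1 : 1 ≤ (S i).card := Finset.card_pos.2 hne
  have hex : ∃ k, (S i).card ≤ (6 * s ^ 2 * (8 * k + 3)) ^ k := by
    refine ⟨(S i).card, ?_⟩
    have h1 : 2 ≤ 6 * s ^ 2 * (8 * (S i).card + 3) := by
      have : 1 ≤ s ^ 2 := Nat.one_le_pow _ _ hs
      nlinarith
    calc (S i).card ≤ 2 ^ (S i).card := Nat.lt_two_pow_self.le
      _ ≤ _ := Nat.pow_le_pow_left h1 _
  obtain ⟨K, hK, hmin⟩ : ∃ K, (S i).card ≤ (6 * s ^ 2 * (8 * K + 3)) ^ K ∧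
      ∀ k < K, ¬ (S i).card ≤ (6 * s ^ 2 * (8 * k + 3)) ^ k :=
    ⟨Nat.find hex, Nat.find_spec hex, fun k hk => Nat.find_min hex hk⟩
  rcases K.eq_zero_or_pos with h0 | h0
  · -- one element
    subst h0
    rw [pow_zero] at hK
    have h1 : (S i).card = 1 := by omega
    obtain ⟨z, hz⟩ := hne
    obtain ⟨a, ha, hax, -⟩ := hA z hz
    refine ⟨a + a, by omega, ?_⟩
    rw [h1, Nat.cast_one, Real.one_rpow]
    have h2 : 0 < rep A (a + a) := by
      unfold rep
      rw [Set.ncard_pos (rep_finite A _)]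
      exact ⟨(a, a), ha, ha, rfl⟩
    exact_mod_cast h2
  · obtain ⟨n, hn, hrep⟩ : ∃ n ≤ 2 * x, 2 ^ K ≤ rep A n := by
      by_contra hcon
      push Not at hcon
      refine hmin (K - 1) (by omega) (circuits_prod (k := K - 1) ?_ hS hi hA)
      intro n hn
      have h2 : K - 1 + 1 = K := by omega
      rw [h2]
      exact hcon n hn
    refine ⟨n, hn, (rate_arith hs hN1 h0 hK (circuit_card hS hi)).trans ?_⟩
    exact_mod_cast hrep

/-- **Pairs.** The same for sets of pairs of elements of `A`. -/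
theorem rate_pairs (A : Set ℕ) (x s : ℕ) (T : ℕ → Finset (ℤ × ℤ)) (i : ℕ) (hT : IsCircuit s T)
    (hi : i < s)
    (hA : ∀ z ∈ T i, ∃ a ∈ A, ∃ b ∈ A, a ≤ x ∧ b ≤ x ∧ z = ((a : ℤ), (b : ℤ))) :
    ∃ n ≤ 2 * x, ((T i).card : ℝ) ^ (1 / 32 / Real.log (s + 1)) ≤ rep A n := by
  classical
  have hs1 : (1:ℝ) ≤ s := by
    have : 1 ≤ s := by omega
    exact_mod_cast this
  have hls0 : 0 < Real.log ((s:ℝ) + 1) := Real.log_pos (by linarith)
  obtain ⟨n1, hn1, h1⟩ := rate A x s _ i (isCircuit_map hT (AddMonoidHom.fst ℤ ℤ)) hi (by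
    intro z hz
    obtain ⟨w, hw, rfl⟩ := Finset.mem_image.1 hz
    obtain ⟨a, ha, b, hb, hax, hbx, rfl⟩ := hA w hw
    exact ⟨a, ha, hax, rfl⟩)
  obtain ⟨n2, hn2, h2⟩ := rate A x s _ i (isCircuit_map hT (AddMonoidHom.snd ℤ ℤ)) hi (by
    intro z hz
    obtain ⟨w, hw, rfl⟩ := Finset.mem_image.1 hz
    obtain ⟨a, ha, b, hb, hax, hbx, rfl⟩ := hA w hw
    exact ⟨b, hb, hbx, rfl⟩)
  have h3 : T i ⊆ ((T i).image (AddMonoidHom.fst ℤ ℤ)) ×ˢ ((T i).image (AddMonoidHom.snd ℤ ℤ)) := by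
    intro z hz
    rw [Finset.mem_product]
    exact ⟨Finset.mem_image_of_mem _ hz, Finset.mem_image_of_mem _ hz⟩
  have h4 : (T i).card ≤ ((T i).image (AddMonoidHom.fst ℤ ℤ)).card *
      ((T i).image (AddMonoidHom.snd ℤ ℤ)).card :=
    (Finset.card_le_card h3).trans (Finset.card_product _ _).le
  have key : ∀ a b : ℕ, (T i).card ≤ a * b → b ≤ a →
      ((T i).card : ℝ) ^ (1 / 32 / Real.log ((s:ℝ) + 1)) ≤
        (a : ℝ) ^ (1 / 16 / Real.log ((s:ℝ) + 1)) := by
    intro a b hab hba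
    have h5 : ((T i).card : ℝ) ≤ (a:ℝ) ^ (2:ℝ) := by
      rw [Real.rpow_two]
      have : (T i).card ≤ a ^ 2 := hab.trans (by nlinarith)
      exact_mod_cast this
    calc ((T i).card : ℝ) ^ (1 / 32 / Real.log ((s:ℝ) + 1))
        ≤ ((a:ℝ) ^ (2:ℝ)) ^ (1 / 32 / Real.log ((s:ℝ) + 1)) :=
          Real.rpow_le_rpow (by positivity) h5 (by positivity)
      _ = (a : ℝ) ^ (1 / 16 / Real.log ((s:ℝ) + 1)) := by
          rw [← Real.rpow_mul (by positivity)]
          congr 1
          ring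
  rcases le_total ((T i).image (AddMonoidHom.snd ℤ ℤ)).card
    ((T i).image (AddMonoidHom.fst ℤ ℤ)).card with h | h
  · exact ⟨n1, hn1, (key _ _ h4 h).trans h1⟩
  · exact ⟨n2, hn2, (key _ _ (by rw [mul_comm] at h4; exact h4) h).trans h2⟩

/-- **Choices.** If the pairs of a circuit represent every `n` in `[t, x)`, then
`r_A(n) ≥ (x - t) ^ (1 / (32 log (s + 1)))` for some `n ≤ 2 x`. -/
theorem rate_choice (A : Set ℕ) (t x s : ℕ) (T : ℕ → Finset (ℤ × ℤ)) (i : ℕ)
    (hT : IsCircuit s T) (hi : i < s)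
    (hA : ∀ z ∈ T i, ∃ a ∈ A, ∃ b ∈ A, a ≤ x ∧ b ≤ x ∧ z = ((a : ℤ), (b : ℤ)))
    (hcov : ∀ n : ℕ, t ≤ n → n < x → ∃ z ∈ T i, z.1 + z.2 = (n : ℤ)) :
    ∃ n ≤ 2 * x, ((x - t : ℕ) : ℝ) ^ (1 / 32 / Real.log (s + 1)) ≤ rep A n := by
  classical
  obtain ⟨n, hn, h⟩ := rate_pairs A x s T i hT hi hA
  refine ⟨n, hn, le_trans ?_ h⟩
  have hs1 : (1:ℝ) ≤ s := by
    have : 1 ≤ s := by omega
    exact_mod_cast this
  have hls0 : 0 < Real.log ((s:ℝ) + 1) := Real.log_pos (by linarith)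
  have h1 : (x - t : ℕ) ≤ (T i).card := by
    have h2 : (Finset.Ico t x).image (fun n : ℕ => (n : ℤ)) ⊆ (T i).image fun z => z.1 + z.2 := by
      intro w hw
      obtain ⟨n, hn, rfl⟩ := Finset.mem_image.1 hw
      rw [Finset.mem_Ico] at hn
      obtain ⟨z, hz, hzn⟩ := hcov n hn.1 hn.2
      exact Finset.mem_image.2 ⟨z, hz, hzn⟩
    have h3 := (Finset.card_le_card h2).trans Finset.card_image_le
    rwa [Finset.card_image_of_injective _ Nat.cast_injective, Nat.card_Ico] at h3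
  exact Real.rpow_le_rpow (by positivity) (by exact_mod_cast h1) (by positivity)

end Pool.Agent.Helper79.TY
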