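import Pool.Agent.Helper79.TY.Code

/-!
# One intersection of two sets of small circuits can be a large Sidon set
-/

namespace Pool.Agent.Helper79.TY

open scoped Pointwise
open Pool.Agent.Helper82.CF Pool.Agent.Helper29.CC

/-! ### The embedding -/

/-- The number of a matrix with its checks. -/
def emb (p d : ℕ) (z : V d) : ℤ :=
  num ((p ^ 2) ^ (2 * d)) (fun i => num (p ^ 2) (z.1 i)) +
    (((p ^ 2) ^ (2 * d)) ^ d : ℕ) * (num (p ^ (4 * d + 1)) z.2.1 +
      ((p ^ (4 * d + 1)) ^ d : ℕ) * num (p ^ (4 * d + 1)) z.2.2)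

lemma emb_add (p d : ℕ) (z y : V d) : emb p d (z + y) = emb p d z + emb p d y := by
  unfold emb
  have h1 : (fun i => num (p ^ 2) ((z + y).1 i)) =
      (fun i => num (p ^ 2) (z.1 i)) + fun i => num (p ^ 2) (y.1 i) := by
    funext i
    rw [Pi.add_apply, ← num_add]
    rfl
  have h2 : (z + y).2.1 = z.2.1 + y.2.1 := rfl
  have h3 : (z + y).2.2 = z.2.2 + y.2.2 := rfl
  rw [h1, h2, h3, num_add, num_add, num_add]
  ring

/-- The embedding as a homomorphism. -/
def embHom (p d : ℕ) : V d →+ ℤ := AddMonoidHom.mk' (emb p d) (emb_add p d)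

lemma embHom_apply (p d : ℕ) (z : V d) : embHom p d z = emb p d z := rfl

/-- The range of the sums of two points. -/
def Box2 (p d : ℕ) (z : V d) : Prop :=
  (∀ i j, 0 ≤ z.1 i j ∧ z.1 i j < (p : ℤ) ^ 2) ∧
    (∀ i, 0 ≤ z.2.1 i ∧ z.2.1 i < (p : ℤ) ^ (4 * d + 1)) ∧
    ∀ j, 0 ≤ z.2.2 j ∧ z.2.2 j < (p : ℤ) ^ (4 * d + 1)

lemma box2_of_box {p d : ℕ} (hp : 2 ≤ p) {z y : V d} (hz : Box p d z) (hy : Box p d y) :
    Box2 p d (z + y) := by
  have hp' : (2:ℤ) ≤ p := by exact_mod_cast hp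
  have h1 : (2:ℤ) * p ≤ (p:ℤ) ^ 2 := by nlinarith
  have h2 : (2:ℤ) * (p:ℤ) ^ (4 * d) ≤ (p:ℤ) ^ (4 * d + 1) := by
    rw [pow_succ]
    have : (0:ℤ) < (p:ℤ) ^ (4 * d) := by positivity
    nlinarith
  refine ⟨fun i j => ?_, fun i => ?_, fun j => ?_⟩
  · have e : (z + y).1 i j = z.1 i j + y.1 i j := rfl
    rw [e]
    have a1 := hz.1 i j
    have a2 := hy.1 i j
    constructor <;> linarith
  · have e : (z + y).2.1 i = z.2.1 i + y.2.1 i := rfl
    rw [e]
    have a1 := hz.2.1 i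
    have a2 := hy.2.1 i
    constructor <;> linarith
  · have e : (z + y).2.2 j = z.2.2 j + y.2.2 j := rfl
    rw [e]
    have a1 := hz.2.2 j
    have a2 := hy.2.2 j
    constructor <;> linarith

lemma box2_of_box_one {p d : ℕ} (hp : 2 ≤ p) {z : V d} (hz : Box p d z) : Box2 p d z := by
  have h0 : Box p d (0 : V d) := by
    have hp' : (0:ℤ) < p := by exact_mod_cast (by omega : 0 < p)
    have h2 : (0:ℤ) < (p:ℤ) ^ (4 * d) := by positivity
    exact ⟨fun i j => ⟨le_rfl, hp'⟩, fun i => ⟨le_rfl, h2⟩, fun j => ⟨le_rfl, h2⟩⟩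
  have := box2_of_box hp hz h0
  rwa [add_zero] at this

lemma split_inj {M a b a' b' : ℤ} (ha : 0 ≤ a ∧ a < M) (ha' : 0 ≤ a' ∧ a' < M)
    (h : a + M * b = a' + M * b') : a = a' ∧ b = b' := by
  have hM : 0 < M := by linarith
  have e1 : (a + M * b) % M = a := by
    rw [Int.add_mul_emod_self_left, Int.emod_eq_of_lt ha.1 ha.2]
  have e2 : (a' + M * b') % M = a' := by
    rw [Int.add_mul_emod_self_left, Int.emod_eq_of_lt ha'.1 ha'.2]
  have e3 : a = a' := by rw [← e1, ← e2, h]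
  refine ⟨e3, ?_⟩
  rw [e3] at h
  exact mul_left_cancel₀ hM.ne' (add_left_cancel h)

lemma box2_parts {p d : ℕ} {z : V d} (hz : Box2 p d z) :
    (∀ i, 0 ≤ num (p ^ 2) (z.1 i) ∧ num (p ^ 2) (z.1 i) < (((p ^ 2) ^ (2 * d) : ℕ) : ℤ)) ∧
    (0 ≤ num ((p ^ 2) ^ (2 * d)) (fun i => num (p ^ 2) (z.1 i)) ∧
      num ((p ^ 2) ^ (2 * d)) (fun i => num (p ^ 2) (z.1 i)) <
        ((((p ^ 2) ^ (2 * d)) ^ d : ℕ) : ℤ)) ∧
    (0 ≤ num (p ^ (4 * d + 1)) z.2.1 ∧
      num (p ^ (4 * d + 1)) z.2.1 < (((p ^ (4 * d + 1)) ^ d : ℕ) : ℤ)) ∧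
    (0 ≤ num (p ^ (4 * d + 1)) z.2.2 ∧
      num (p ^ (4 * d + 1)) z.2.2 < (((p ^ (4 * d + 1)) ^ (2 * d) : ℕ) : ℤ)) := by
  have h1 : ∀ i, 0 ≤ num (p ^ 2) (z.1 i) ∧
      num (p ^ 2) (z.1 i) < (((p ^ 2) ^ (2 * d) : ℕ) : ℤ) := by
    intro i
    refine ⟨num_nonneg fun j => (hz.1 i j).1, ?_⟩
    have := num_lt (b := p ^ 2) (u := z.1 i) fun j => ⟨(hz.1 i j).1, by
      push_cast
      exact (hz.1 i j).2⟩
    exact_mod_cast this
  refine ⟨h1, ⟨num_nonneg fun i => (h1 i).1, ?_⟩, ⟨num_nonneg fun i => (hz.2.1 i).1, ?_⟩,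
    ⟨num_nonneg fun i => (hz.2.2 i).1, ?_⟩⟩
  · have := num_lt (b := (p ^ 2) ^ (2 * d)) h1
    exact_mod_cast this
  · have := num_lt (b := p ^ (4 * d + 1)) (u := z.2.1) fun i => ⟨(hz.2.1 i).1, by
      push_cast
      exact (hz.2.1 i).2⟩
    exact_mod_cast this
  · have := num_lt (b := p ^ (4 * d + 1)) (u := z.2.2) fun i => ⟨(hz.2.2 i).1, by
      push_cast
      exact (hz.2.2 i).2⟩
    exact_mod_cast this

lemma emb_inj {p d : ℕ} {z y : V d} (hz : Box2 p d z) (hy : Box2 p d y)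
    (h : emb p d z = emb p d y) : z = y := by
  obtain ⟨a1, a2, a3, a4⟩ := box2_parts hz
  obtain ⟨b1, b2, b3, b4⟩ := box2_parts hy
  unfold emb at h
  obtain ⟨h1, h2⟩ := split_inj a2 b2 h
  obtain ⟨h3, h4⟩ := split_inj a3 b3 h2
  have e1 := num_inj a1 b1 h1
  refine Prod.ext ?_ (Prod.ext ?_ ?_)
  · funext i
    exact num_inj (fun j => ⟨(hz.1 i j).1, by push_cast; exact (hz.1 i j).2⟩)
      (fun j => ⟨(hy.1 i j).1, by push_cast; exact (hy.1 i j).2⟩) (congrFun e1 i)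
  · exact num_inj (fun i => ⟨(hz.2.1 i).1, by push_cast; exact (hz.2.1 i).2⟩)
      (fun i => ⟨(hy.2.1 i).1, by push_cast; exact (hy.2.1 i).2⟩) h3
  · exact num_inj (fun i => ⟨(hz.2.2 i).1, by push_cast; exact (hz.2.2 i).2⟩)
      (fun i => ⟨(hy.2.2 i).1, by push_cast; exact (hy.2.2 i).2⟩) h4

lemma emb_bounds {p d : ℕ} {z : V d} (hz : Box2 p d z) :
    0 ≤ emb p d z ∧ emb p d z < (p : ℤ) ^ (16 * d ^ 2 + 3 * d) := by
  obtain ⟨-, ⟨a2, a2'⟩, ⟨a3, a3'⟩, ⟨a4, a4'⟩⟩ := box2_parts hz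
  have hsplit : ∀ {M K a b : ℤ}, 0 ≤ a → a < M → 0 ≤ b → b < K →
      0 ≤ a + M * b ∧ a + M * b < M * K := by
    intro M K a b ha ha' hb hb'
    have hM : 0 < M := by linarith
    constructor
    · positivity
    · nlinarith
  have h1 := hsplit a3 a3' a4 a4'
  have h2 := hsplit a2 a2' h1.1 h1.2
  refine ⟨h2.1, h2.2.trans_le (le_of_eq ?_)⟩
  push_cast
  rw [← pow_mul, ← pow_mul, ← pow_mul, ← pow_mul, ← pow_add, ← pow_add]
  congr 1
  ring

/-! ### The two sets -/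

section Sets

variable (p d : ℕ) [Fact p.Prime]

/-- The `i`-th row with its check. -/
noncomputable def rowF (i : Fin d) : Finset (V d) := (Finset.univ : Finset (Fin d → ZMod p)).image
  fun a => ((Pi.single i (cw a), Pi.single i ((num p (cw a)) ^ 2), 0) : V d)

/-- The `j`-th column with its check. -/
noncomputable def colF (j : Fin (2 * d)) : Finset (V d) := (Finset.univ : Finset (Fin d → ZMod p)).image
  fun w => ((fun i => Pi.single j ((w i).val : ℤ), 0,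
    Pi.single j ((num p (fun i => ((w i).val : ℤ))) ^ 2)) : V d)

/-- Any check of the `i`-th row. -/
noncomputable def freeR (i : Fin d) : Finset (V d) := (Finset.Ico (0:ℤ) ((p:ℤ) ^ (4 * d))).image
  fun t => ((0, Pi.single i t, 0) : V d)

/-- Any check of the `j`-th column. -/
noncomputable def freeC (j : Fin (2 * d)) : Finset (V d) := (Finset.Ico (0:ℤ) ((p:ℤ) ^ (4 * d))).image
  fun t => ((0, 0, Pi.single j t) : V d)

/-- All rows are in the code, with the right checks. -/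
noncomputable def PR : Finset (V d) := (∑ i, rowF p d i) + ∑ j, freeC p d j

/-- All columns have the right checks. -/
noncomputable def PC : Finset (V d) := (∑ j, colF p d j) + ∑ i, freeR p d i

variable {d}

lemma sum_row (c : Fin d → Fin (2 * d) → ℤ) (h : Fin d → ℤ) :
    ∑ i, ((Pi.single i (c i), Pi.single i (h i), 0) : V d) = (c, h, 0) := by
  refine Prod.ext ?_ (Prod.ext ?_ ?_)
  · rw [Prod.fst_sum]
    exact Finset.univ_sum_single c
  · rw [Prod.snd_sum, Prod.fst_sum]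
    exact Finset.univ_sum_single h
  · rw [Prod.snd_sum, Prod.snd_sum]
    simp

lemma sum_freeC (g : Fin (2 * d) → ℤ) : ∑ j, ((0, 0, Pi.single j (g j)) : V d) = (0, 0, g) := by
  refine Prod.ext ?_ (Prod.ext ?_ ?_)
  · rw [Prod.fst_sum]
    simp
  · rw [Prod.snd_sum, Prod.fst_sum]
    simp
  · rw [Prod.snd_sum, Prod.snd_sum]
    exact Finset.univ_sum_single g

lemma sum_freeR (h : Fin d → ℤ) : ∑ i, ((0, Pi.single i (h i), 0) : V d) = (0, h, 0) := by
  refine Prod.ext ?_ (Prod.ext ?_ ?_)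
  · rw [Prod.fst_sum]
    simp
  · rw [Prod.snd_sum, Prod.fst_sum]
    exact Finset.univ_sum_single h
  · rw [Prod.snd_sum, Prod.snd_sum]
    simp

lemma sum_col (w : Fin (2 * d) → Fin d → ℤ) (g : Fin (2 * d) → ℤ) :
    ∑ j, ((fun i => Pi.single j (w j i), 0, Pi.single j (g j)) : V d) =
      (fun i j => w j i, 0, g) := by
  refine Prod.ext ?_ (Prod.ext ?_ ?_)
  · rw [Prod.fst_sum]
    funext i
    rw [Finset.sum_apply]
    exact Finset.univ_sum_single (fun j => w j i)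
  · rw [Prod.snd_sum, Prod.fst_sum]
    simp
  · rw [Prod.snd_sum, Prod.snd_sum]
    exact Finset.univ_sum_single g

variable {p}

lemma num_sq {n : ℕ} (hn : n ≤ 2 * d) {u : Fin n → ℤ} (hu : ∀ j, 0 ≤ u j ∧ u j < p) :
    0 ≤ (num p u) ^ 2 ∧ (num p u) ^ 2 < (p : ℤ) ^ (4 * d) := by
  have h1 := num_nonneg (b := p) fun j => (hu j).1
  have h2 := num_lt hu
  have hp : (1:ℤ) ≤ p := by exact_mod_cast (Fact.out : p.Prime).one_lt.le
  have h3 : (p:ℤ) ^ n ≤ (p:ℤ) ^ (2 * d) := pow_le_pow_right₀ hp hn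
  refine ⟨by positivity, ?_⟩
  calc (num p u) ^ 2 < ((p:ℤ) ^ (2 * d)) ^ 2 := by
        refine pow_lt_pow_left₀ (by linarith) h1 (by norm_num)
    _ = (p : ℤ) ^ (4 * d) := by
        rw [← pow_mul]
        congr 1
        ring

lemma mem_PR {z : V d} (hz : z ∈ PR p d) :
    ((∃ a : Fin d → Fin d → ZMod p, z.1 = fun i => cw (a i)) ∧
      (∀ i, z.2.1 i = (num p (z.1 i)) ^ 2)) ∧ Box p d z := by
  unfold PR at hz
  rw [Finset.mem_add] at hz
  obtain ⟨y, hy, w, hw, rfl⟩ := hz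
  obtain ⟨f, hf, rfl⟩ := mem_sum _ _ _ hy
  obtain ⟨g, hg, rfl⟩ := mem_sum _ _ _ hw
  have h1 : ∀ i, ∃ a : Fin d → ZMod p,
      ((Pi.single i (cw a), Pi.single i ((num p (cw a)) ^ 2), 0) : V d) = f i := by
    intro i
    obtain ⟨a, -, ha⟩ := Finset.mem_image.1 (hf i (Finset.mem_univ i))
    exact ⟨a, ha⟩
  choose a ha using h1
  have h2 : ∀ j, ∃ t : ℤ, (0 ≤ t ∧ t < (p:ℤ) ^ (4 * d)) ∧
      ((0, 0, Pi.single j t) : V d) = g j := by
    intro j
    obtain ⟨t, ht, ht'⟩ := Finset.mem_image.1 (hg j (Finset.mem_univ j))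
    exact ⟨t, Finset.mem_Ico.1 ht, ht'⟩
  choose t ht ht' using h2
  have e : (∑ i, f i) + ∑ j, g j =
      ((fun i => cw (a i), fun i => (num p (cw (a i))) ^ 2, t) : V d) := by
    rw [← Finset.sum_congr rfl fun i _ => ha i, ← Finset.sum_congr rfl fun j _ => ht' j,
      sum_row (fun i => cw (a i)) (fun i => (num p (cw (a i))) ^ 2), sum_freeC]
    simp
  rw [e]
  exact ⟨⟨⟨a, rfl⟩, fun i => rfl⟩, fun i j => cw_bounds _ _,
    fun i => num_sq le_rfl fun j => cw_bounds _ _, ht⟩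

lemma mem_PC {z : V d} (hz : z ∈ PC p d) :
    (∀ j, z.2.2 j = (num p (fun i => z.1 i j)) ^ 2) ∧ Box p d z := by
  unfold PC at hz
  rw [Finset.mem_add] at hz
  obtain ⟨y, hy, w, hw, rfl⟩ := hz
  obtain ⟨f, hf, rfl⟩ := mem_sum _ _ _ hy
  obtain ⟨g, hg, rfl⟩ := mem_sum _ _ _ hw
  have h1 : ∀ j, ∃ w : Fin d → ZMod p, ((fun i => Pi.single j ((w i).val : ℤ), 0,
      Pi.single j ((num p (fun i => ((w i).val : ℤ))) ^ 2)) : V d) = f j := by
    intro j
    obtain ⟨w, -, hw⟩ := Finset.mem_image.1 (hf j (Finset.mem_univ j))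
    exact ⟨w, hw⟩
  choose w hw' using h1
  have h2 : ∀ i, ∃ t : ℤ, (0 ≤ t ∧ t < (p:ℤ) ^ (4 * d)) ∧
      ((0, Pi.single i t, 0) : V d) = g i := by
    intro i
    obtain ⟨t, ht, ht'⟩ := Finset.mem_image.1 (hg i (Finset.mem_univ i))
    exact ⟨t, Finset.mem_Ico.1 ht, ht'⟩
  choose t ht ht' using h2
  have e : (∑ j, f j) + ∑ i, g i =
      ((fun i j => ((w j i).val : ℤ), t,
        fun j => (num p (fun i => ((w j i).val : ℤ))) ^ 2) : V d) := by
    rw [← Finset.sum_congr rfl fun j _ => hw' j, ← Finset.sum_congr rfl fun i _ => ht' i,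
      sum_col (fun j i => ((w j i).val : ℤ)) (fun j => (num p (fun i => ((w j i).val : ℤ))) ^ 2),
      sum_freeR]
    simp
  rw [e]
  have hb : ∀ i j, (0:ℤ) ≤ ((w j i).val : ℤ) ∧ ((w j i).val : ℤ) < p := by
    intro i j
    refine ⟨by positivity, ?_⟩
    exact_mod_cast ZMod.val_lt _
  exact ⟨fun j => rfl, hb, ht, fun j => num_sq (by omega) fun i => hb i j⟩

/-- The point of a matrix of coefficients. -/
def pt (a : Fin d → Fin d → ZMod p) : V d :=
  (fun i => cw (a i), fun i => (num p (cw (a i))) ^ 2,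
    fun j => (num p (fun i => cw (a i) j)) ^ 2)

lemma pt_mem_PR (a : Fin d → Fin d → ZMod p) : pt a ∈ PR p d := by
  have e : pt a = (∑ i, ((Pi.single i (cw (a i)), Pi.single i ((num p (cw (a i))) ^ 2), 0) : V d))
      + ∑ j, ((0, 0, Pi.single j ((num p (fun i => cw (a i) j)) ^ 2)) : V d) := by
    rw [sum_row (fun i => cw (a i)) (fun i => (num p (cw (a i))) ^ 2),
      sum_freeC (fun j => (num p (fun i => cw (a i) j)) ^ 2)]
    unfold pt
    simp
  rw [e]
  unfold PR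
  refine Finset.add_mem_add (sum_mem_sum _ _ _ fun i _ => ?_) (sum_mem_sum _ _ _ fun j _ => ?_)
  · exact Finset.mem_image.2 ⟨a i, Finset.mem_univ _, rfl⟩
  · refine Finset.mem_image.2 ⟨(num p (fun i => cw (a i) j)) ^ 2, Finset.mem_Ico.2 ?_, rfl⟩
    exact num_sq (by omega) fun i => cw_bounds _ _

lemma pt_mem_PC (a : Fin d → Fin d → ZMod p) : pt a ∈ PC p d := by
  have e : pt a = (∑ j, ((fun i => Pi.single j (cw (a i) j), 0,
      Pi.single j ((num p (fun i => cw (a i) j)) ^ 2)) : V d))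
      + ∑ i, ((0, Pi.single i ((num p (cw (a i))) ^ 2), 0) : V d) := by
    rw [sum_col (fun j i => cw (a i) j) (fun j => (num p (fun i => cw (a i) j)) ^ 2),
      sum_freeR (fun i => (num p (cw (a i))) ^ 2)]
    unfold pt
    simp
  rw [e]
  unfold PC
  refine Finset.add_mem_add (sum_mem_sum _ _ _ fun j _ => ?_) (sum_mem_sum _ _ _ fun i _ => ?_)
  · exact Finset.mem_image.2 ⟨fun i => ∑ k : Fin d, a i k * (((j : ℕ) : ZMod p)) ^ (k : ℕ),
      Finset.mem_univ _, rfl⟩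
  · refine Finset.mem_image.2 ⟨(num p (cw (a i))) ^ 2, Finset.mem_Ico.2 ?_, rfl⟩
    exact num_sq le_rfl fun i => cw_bounds _ _

lemma mem_inter {z : V d} (hz : z ∈ PR p d) (hz' : z ∈ PC p d) : Pt p d z := by
  obtain ⟨⟨h1, h2⟩, -⟩ := mem_PR hz
  exact ⟨h1, h2, (mem_PC hz').1⟩

variable (p)

lemma comp_PR (hd : 1 ≤ d) : Comp ((2 * p ^ (4 * d) + 1) * (3 * d) + 3) (PR p d) := by
  have hp : 1 ≤ p := (Fact.out : p.Prime).one_lt.le
  have h1 : Comp ((2 * p ^ (4 * d) + 1) * (Finset.univ : Finset (Fin d)).card + 1)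
      (∑ i, rowF p d i) := by
    refine comp_sum _ _ _ fun i _ => ⟨?_, ?_⟩
    · exact Finset.univ_nonempty.image _
    · refine Finset.card_image_le.trans ?_
      rw [Finset.card_univ, Fintype.card_fun, ZMod.card, Fintype.card_fin]
      exact Nat.pow_le_pow_right hp (by omega)
  have h2 : Comp ((2 * p ^ (4 * d) + 1) * (Finset.univ : Finset (Fin (2 * d))).card + 1)
      (∑ j, freeC p d j) := by
    refine comp_sum _ _ _ fun i _ => ⟨?_, ?_⟩
    · refine Finset.Nonempty.image ?_ _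
      rw [Finset.nonempty_Ico]
      have : 0 < p := hp
      positivity
    · refine Finset.card_image_le.trans ?_
      rw [Int.card_Ico, sub_zero]
      exact_mod_cast le_rfl
  refine comp_mono ?_ (comp_add h1 h2)
  rw [Finset.card_univ, Finset.card_univ, Fintype.card_fin, Fintype.card_fin]
  have e : (2 * p ^ (4 * d) + 1) * (3 * d) = (2 * p ^ (4 * d) + 1) * d +
      (2 * p ^ (4 * d) + 1) * (2 * d) := by ring
  omega

lemma comp_PC (hd : 1 ≤ d) : Comp ((2 * p ^ (4 * d) + 1) * (3 * d) + 3) (PC p d) := by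
  have hp : 1 ≤ p := (Fact.out : p.Prime).one_lt.le
  have h1 : Comp ((2 * p ^ (4 * d) + 1) * (Finset.univ : Finset (Fin (2 * d))).card + 1)
      (∑ j, colF p d j) := by
    refine comp_sum _ _ _ fun i _ => ⟨?_, ?_⟩
    · exact Finset.univ_nonempty.image _
    · refine Finset.card_image_le.trans ?_
      rw [Finset.card_univ, Fintype.card_fun, ZMod.card, Fintype.card_fin]
      exact Nat.pow_le_pow_right hp (by omega)
  have h2 : Comp ((2 * p ^ (4 * d) + 1) * (Finset.univ : Finset (Fin d)).card + 1)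
      (∑ i, freeR p d i) := by
    refine comp_sum _ _ _ fun i _ => ⟨?_, ?_⟩
    · refine Finset.Nonempty.image ?_ _
      rw [Finset.nonempty_Ico]
      have : 0 < p := hp
      positivity
    · refine Finset.card_image_le.trans ?_
      rw [Int.card_Ico, sub_zero]
      exact_mod_cast le_rfl
  refine comp_mono ?_ (comp_add h1 h2)
  rw [Finset.card_univ, Finset.card_univ, Fintype.card_fin, Fintype.card_fin]
  have e : (2 * p ^ (4 * d) + 1) * (3 * d) = (2 * p ^ (4 * d) + 1) * d +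
      (2 * p ^ (4 * d) + 1) * (2 * d) := by ring
  omega

/-- **The intersection of two sets of small circuits.** -/
theorem cap (hd : 1 ≤ d) (hp : 2 * d ≤ p) :
    ∃ P P' : Finset ℤ, Comp ((2 * p ^ (4 * d) + 1) * (3 * d) + 3) P ∧
      Comp ((2 * p ^ (4 * d) + 1) * (3 * d) + 3) P' ∧
      (∀ z ∈ P ∪ P', 0 ≤ z ∧ z < (p : ℤ) ^ (16 * d ^ 2 + 3 * d)) ∧
      p ^ (d * d) ≤ (P ∩ P').card ∧
      ∀ n, rep {a : ℕ | (a : ℤ) ∈ P ∩ P'} n ≤ 2 := by
  classical
  have hp2 : 2 ≤ p := (Fact.out : p.Prime).two_le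
  have hmem : ∀ x : ℤ, x ∈ (PR p d).image (embHom p d) ∩ (PC p d).image (embHom p d) →
      ∃ z : V d, Pt p d z ∧ Box p d z ∧ emb p d z = x := by
    intro x hx
    rw [Finset.mem_inter] at hx
    obtain ⟨z, hz, e⟩ := Finset.mem_image.1 hx.1
    obtain ⟨z', hz', e'⟩ := Finset.mem_image.1 hx.2
    have h1 : z = z' := emb_inj (box2_of_box_one hp2 (mem_PR hz).2)
      (box2_of_box_one hp2 (mem_PC hz').2) (by
        rw [embHom_apply] at e e'
        rw [e, e'])
    subst h1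
    exact ⟨z, mem_inter hz hz', (mem_PR hz).2, e⟩
  refine ⟨(PR p d).image (embHom p d), (PC p d).image (embHom p d),
    comp_map (comp_PR p hd) _, comp_map (comp_PC p hd) _, ?_, ?_, ?_⟩
  · intro x hx
    rcases Finset.mem_union.1 hx with hx | hx
    · obtain ⟨z, hz, rfl⟩ := Finset.mem_image.1 hx
      exact emb_bounds (box2_of_box_one hp2 (mem_PR hz).2)
    · obtain ⟨z, hz, rfl⟩ := Finset.mem_image.1 hx
      exact emb_bounds (box2_of_box_one hp2 (mem_PC hz).2)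
  · have h1 : (Finset.univ : Finset (Fin d → Fin d → ZMod p)).image
        (fun a => emb p d (pt a)) ⊆
        (PR p d).image (embHom p d) ∩ (PC p d).image (embHom p d) := by
      intro x hx
      obtain ⟨a, -, rfl⟩ := Finset.mem_image.1 hx
      rw [Finset.mem_inter]
      exact ⟨Finset.mem_image.2 ⟨_, pt_mem_PR a, rfl⟩, Finset.mem_image.2 ⟨_, pt_mem_PC a, rfl⟩⟩
    refine le_trans (le_of_eq ?_) (Finset.card_le_card h1)
    rw [Finset.card_image_of_injective, Finset.card_univ, Fintype.card_fun, Fintype.card_fun,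
      ZMod.card, Fintype.card_fin, pow_mul]
    intro a b hab
    simp only at hab
    have h2 := emb_inj (box2_of_box_one hp2 (mem_PR (pt_mem_PR a)).2)
      (box2_of_box_one hp2 (mem_PR (pt_mem_PR b)).2) hab
    have h3 : (fun i => cw (a i)) = fun i => cw (b i) := congrArg Prod.fst h2
    funext i
    exact cw_injective hd hp (congrFun h3 i)
  · intro n
    unfold rep
    rcases Set.eq_empty_or_nonempty {u : ℕ × ℕ | u.1 ∈ {a : ℕ | (a : ℤ) ∈
        (PR p d).image (embHom p d) ∩ (PC p d).image (embHom p d)} ∧ u.2 ∈ {a : ℕ | (a : ℤ) ∈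
        (PR p d).image (embHom p d) ∩ (PC p d).image (embHom p d)} ∧ u.1 + u.2 = n} with h0 | h0
    · rw [h0, Set.ncard_empty]
      exact Nat.zero_le _
    · obtain ⟨⟨a, b⟩, ha, hb, hab⟩ := h0
      simp only at ha hb hab
      have hsub : {u : ℕ × ℕ | u.1 ∈ {a : ℕ | (a : ℤ) ∈
          (PR p d).image (embHom p d) ∩ (PC p d).image (embHom p d)} ∧ u.2 ∈ {a : ℕ | (a : ℤ) ∈
          (PR p d).image (embHom p d) ∩ (PC p d).image (embHom p d)} ∧ u.1 + u.2 = n} ⊆
          {(a, b), (b, a)} := by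
        rintro ⟨a', b'⟩ ⟨ha', hb', hab'⟩
        simp only at ha' hb' hab'
        obtain ⟨z, hz, bz, ez⟩ := hmem a ha
        obtain ⟨z', hz', bz', ez'⟩ := hmem b hb
        obtain ⟨y, hy, byy, ey⟩ := hmem a' ha'
        obtain ⟨y', hy', byy', ey'⟩ := hmem b' hb'
        have h1 : z + z' = y + y' := by
          refine emb_inj (box2_of_box hp2 bz bz') (box2_of_box hp2 byy byy') ?_
          rw [emb_add, emb_add, ez, ez', ey, ey']
          exact_mod_cast hab.trans hab'.symm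
        rw [Set.mem_insert_iff, Set.mem_singleton_iff, Prod.mk.injEq, Prod.mk.injEq]
        rcases sidon hd hp hz hz' hy hy' h1 with ⟨rfl, rfl⟩ | ⟨rfl, rfl⟩
        · left
          constructor
          · exact_mod_cast (ey.symm.trans ez)
          · exact_mod_cast (ey'.symm.trans ez')
        · right
          constructor
          · exact_mod_cast (ey.symm.trans ez')
          · exact_mod_cast (ey'.symm.trans ez)
      refine (Set.ncard_le_ncard hsub (Set.toFinite _)).trans ?_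
      refine (Set.ncard_insert_le _ _).trans ?_
      rw [Set.ncard_singleton]

end Sets

/-- **One intersection.** For every `ε > 0` there are arbitrarily large `x` and sets `P`, `P'` in
`[0, x)`, each computed by at most `x ^ ε` unions and sumsets, such that `P ∩ P'` is a Sidon set
with at least `x ^ (1 / 19)` elements. -/
theorem one_intersection (ε : ℝ) (hε : 0 < ε) (X : ℕ) :
    ∃ x s : ℕ, X ≤ x ∧ (s : ℝ) ≤ (x : ℝ) ^ ε ∧ ∃ P P' : Finset ℤ, Comp s P ∧ Comp s P' ∧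
      (∀ z ∈ P ∪ P', 0 ≤ z ∧ z < x) ∧ (x : ℝ) ^ ((1:ℝ) / 19) ≤ ((P ∩ P').card : ℝ) ∧
      ∀ n, rep {a : ℕ | (a : ℤ) ∈ P ∩ P'} n ≤ 2 := by
  obtain ⟨d, hd⟩ := exists_nat_ge (1 / ε)
  have hd0 : (0:ℝ) < d := lt_of_lt_of_le (by positivity) hd
  have hd1 : 1 ≤ d := by exact_mod_cast hd0
  have hdε : 1 ≤ d * ε := by
    rw [div_le_iff₀ hε] at hd
    exact hd
  obtain ⟨p, hpX, hp⟩ := Nat.exists_infinite_primes (2 * d + X)
  have : Fact p.Prime := ⟨hp⟩
  have hp2 : 2 ≤ p := hp.two_le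
  have hp1 : (1:ℝ) ≤ p := by exact_mod_cast hp.one_lt.le
  obtain ⟨P, P', h1, h2, h3, h4, h5⟩ := cap p hd1 (by omega : 2 * d ≤ p)
  refine ⟨p ^ (19 * d ^ 2), (2 * p ^ (4 * d) + 1) * (3 * d) + 3, ?_, ?_, P, P', h1, h2, ?_, ?_, h5⟩
  · calc X ≤ p := by omega
      _ = p ^ 1 := (pow_one p).symm
      _ ≤ p ^ (19 * d ^ 2) := Nat.pow_le_pow_right (by omega) (by nlinarith)
  · have e1 : (2 * p ^ (4 * d) + 1) * (3 * d) + 3 ≤ p ^ (4 * d + 5) := by
      have a1 : 1 ≤ p ^ (4 * d) := Nat.one_le_pow _ _ (by omega)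
      have a2 : 3 * d ≤ 2 * p := by omega
      have a3 : 16 ≤ p ^ 4 := by
        calc 16 = 2 ^ 4 := by norm_num
          _ ≤ p ^ 4 := Nat.pow_le_pow_left hp2 4
      have a4 : (2 * p ^ (4 * d) + 1) * (3 * d) ≤ (3 * p ^ (4 * d)) * (2 * p) :=
        Nat.mul_le_mul (by omega) a2
      have a5 : p ^ (4 * d + 5) = p ^ (4 * d) * p * p ^ 4 := by ring
      have a6 : 2 ≤ p ^ (4 * d) * p := by nlinarith
      rw [a5]
      nlinarith
    have e2 : (((2 * p ^ (4 * d) + 1) * (3 * d) + 3 : ℕ) : ℝ) ≤ (p:ℝ) ^ (4 * d + 5) := by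
      exact_mod_cast e1
    refine e2.trans ?_
    rw [Nat.cast_pow, ← Real.rpow_natCast, ← Real.rpow_natCast, ← Real.rpow_mul (by positivity)]
    refine Real.rpow_le_rpow_of_exponent_le hp1 ?_
    push_cast
    have b1 : (1:ℝ) ≤ d := by exact_mod_cast hd1
    nlinarith
  · intro z hz
    refine ⟨(h3 z hz).1, (h3 z hz).2.trans_le ?_⟩
    have : p ^ (16 * d ^ 2 + 3 * d) ≤ p ^ (19 * d ^ 2) :=
      Nat.pow_le_pow_right (by omega) (by nlinarith)
    exact_mod_cast this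
  · have e1 : ((p ^ (19 * d ^ 2) : ℕ) : ℝ) ^ ((1:ℝ) / 19) = ((p ^ (d * d) : ℕ) : ℝ) := by
      rw [Nat.cast_pow, Nat.cast_pow, ← Real.rpow_natCast, ← Real.rpow_natCast,
        ← Real.rpow_mul (by positivity)]
      congr 1
      push_cast
      ring
    rw [e1]
    exact_mod_cast h4

end Pool.Agent.Helper79.TY
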