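import Pool.Agent.Helper79.TY.Dec
import Pool.Agent.Helper45.TY.Morphic

/-!
# Decomposable circuits and representation functions
-/

namespace Pool.Agent.Helper79.TY

open Finset Pool.Agent.Helper45.TY

/-- The product of the functions `rho` of the coordinates of a set of words for tuples. -/
lemma gauge_prod {ι κ : Type*} [Fintype κ] [DecidableEq κ] [DecidableEq (ι → ℕ)]
    (v : (ι → ℕ) →+ ℕ) :
    Gauge (fun S : Finset (ι × κ → ℕ) => ∏ j, rho v (S.image fun x i => x (i, j))) where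
  pos S hS := Nat.succ_le_of_lt (prod_pos fun j _ => Nat.lt_of_succ_le (rho_pos (hS.image _)))
  two S hS := by
    obtain ⟨x, hx, y, hy, hxy⟩ := one_lt_card.1 hS
    obtain ⟨⟨i, j⟩, hij⟩ := Function.ne_iff.1 hxy
    have h1 : 2 ≤ rho v (S.image fun x i => x (i, j)) := by
      refine rho_two (one_lt_card.2 ⟨_, mem_image_of_mem _ hx, _, mem_image_of_mem _ hy, ?_⟩)
      intro h
      exact hij (congrFun h i)
    have h2 : 1 ≤ ∏ k ∈ univ.erase j, rho v (S.image fun x i => x (i, k)) :=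
      Nat.succ_le_of_lt (prod_pos fun k _ =>
        Nat.lt_of_succ_le (rho_pos (Finset.Nonempty.image ⟨x, hx⟩ _)))
    rw [← mul_prod_erase univ _ (mem_univ j)]
    calc 2 = 2 * 1 := rfl
      _ ≤ _ := Nat.mul_le_mul h1 h2
  mul Y Z hYZ S T U hS hT hU := by
    rw [← prod_mul_distrib]
    refine prod_le_prod' fun j _ => ?_
    refine rho_mul v ?_ ?_
    · intro x hx x' hx' y hy y' hy' h
      rw [mem_image] at hx hx' hy hy'
      obtain ⟨x, hx, rfl⟩ := hx
      obtain ⟨x', hx', rfl⟩ := hx'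
      obtain ⟨y, hy, rfl⟩ := hy
      obtain ⟨y', hy', rfl⟩ := hy'
      refine add_inj_of_zero (fun i => ?_) h
      by_cases hi : (i, j) ∈ Y
      · have hi' : (i, j) ∉ Z := Finset.disjoint_left.1 hYZ hi
        exact Or.inr ⟨hT y hy _ hi', hT y' hy' _ hi'⟩
      · exact Or.inl ⟨hS x hx _ hi, hS x' hx' _ hi⟩
    · intro x hx y hy
      rw [mem_image] at hx hy
      obtain ⟨x, hx, rfl⟩ := hx
      obtain ⟨y, hy, rfl⟩ := hy
      exact mem_image.2 ⟨x + y, hU x hx y hy, rfl⟩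

/-- A decomposable family with digits below `q`: for every index `g` of the family, `Y g` is a set
of positions and `L g` a finite set of words which vanish outside `Y g`; if `Y g` has at least two
elements, then `L g` is a union of sums `L a + L b` where `Y g` is the disjoint union of the
nonempty sets `Y a` and `Y b`. -/
def Decomposable (q : ℕ) {ι G : Type*} [DecidableEq ι] (Y : G → Finset ι)
    (L : G → Finset (ι → ℕ)) : Prop :=
  ∀ g, (∀ x ∈ L g, ∀ i, x i < q ∧ (i ∉ Y g → x i = 0)) ∧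
    (2 ≤ (Y g).card → ∀ x ∈ L g, ∃ a b, (Y a).Nonempty ∧ (Y b).Nonempty ∧
      Disjoint (Y a) (Y b) ∧ Y a ∪ Y b = Y g ∧ (∀ y ∈ L a, ∀ z ∈ L b, y + z ∈ L g) ∧
      ∃ y ∈ L a, ∃ z ∈ L b, x = y + z)

lemma Decomposable.family {q : ℕ} {ι G : Type*} [DecidableEq ι] {Y : G → Finset ι}
    {L : G → Finset (ι → ℕ)} (H : Decomposable q Y L) :
    Family q Y L (fun g a b => Disjoint (Y a) (Y b) ∧ Y a ∪ Y b = Y g ∧
      ∀ y ∈ L a, ∀ z ∈ L b, y + z ∈ L g) where
  digit g x hx i := ((H g).1 x hx i).1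
  supp g x hx i hi := ((H g).1 x hx i).2 hi
  disj _ _ _ h := h.1
  union _ _ _ h := h.2.1
  sum _ _ _ h := h.2.2
  dec g hg x hx := by
    obtain ⟨a, b, ha, hb, h1, h2, h3, h4⟩ := (H g).2 hg x hx
    exact ⟨a, b, ⟨h1, h2, h3⟩, ha, hb, h4⟩

/-- Pairs of words with equal value sums give representations. -/
lemma rho_le_rep {α : Type*} {v : α → ℕ} {S : Finset α} {A : Set ℕ} (hA : ∀ x ∈ S, v x ∈ A)
    (hv : ∀ x ∈ S, ∀ y ∈ S, v x = v y → x = y) (hS : S.Nonempty) :
    ∃ N, rho v S ≤ rep A N ∧ ∃ x ∈ S, ∃ y ∈ S, v x + v y = N := by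
  obtain ⟨N, hN⟩ := exists_rho (v := v) hS
  refine ⟨N, ?_, ?_⟩
  · rw [hN]
    unfold rep
    rw [← Set.ncard_coe_finset]
    refine Set.ncard_le_ncard_of_injOn (fun p => (v p.1, v p.2)) ?_ ?_ (rep_finite A N)
    · intro p hp
      rw [mem_coe, mem_filter, mem_product] at hp
      exact ⟨hA _ hp.1.1, hA _ hp.1.2, hp.2⟩
    · rintro ⟨x, y⟩ hp ⟨x', y'⟩ hp' h
      rw [mem_coe, mem_filter, mem_product] at hp hp'
      simp only [Prod.mk.injEq] at h ⊢
      exact ⟨hv x hp.1.1 x' hp'.1.1 h.1, hv y hp.1.2 y' hp'.1.2 h.2⟩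
  · have h1 : 0 < ((S ×ˢ S).filter fun q => v q.1 + v q.2 = N).card := by
      rw [← hN]
      exact rho_pos hS
    obtain ⟨p, hp⟩ := card_pos.1 h1
    rw [mem_filter, mem_product] at hp
    exact ⟨p.1, hp.1.1, p.2, hp.1.2, hp.2⟩

/-- The value of a word for the weights `m`. -/
def wt {n : ℕ} (m : Fin n → ℕ) : (Fin n → ℕ) →+ ℕ where
  toFun x := ∑ i, x i * m i
  map_zero' := by simp
  map_add' x y := by
    rw [← sum_add_distrib]
    refine sum_congr rfl fun i _ => ?_
    rw [Pi.add_apply, add_mul]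

/-- **Decomposable circuits.** If a set of `κ`-tuples of elements of `A` is computed by a
decomposable family of `s` sets of digit words, then `A` has a sum with many representations. -/
theorem decomposable_val (κ q : ℕ) (hκ : 1 ≤ κ) (hq : 2 ≤ q) (d : ℝ) (hd : 0 < d) :
    ∃ c : ℝ, 0 < c ∧ ∀ (n : ℕ) (G : Type) [Fintype G] (Y : G → Finset (Fin n × Fin κ))
      (L : G → Finset (Fin n × Fin κ → ℕ)) (m : Fin n → ℕ) (A : Set ℕ) (g : G),
      Decomposable q Y L →
      (∀ x ∈ L g, ∀ j, ∑ i, x (i, j) * m i ∈ A) →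
      (∀ x ∈ L g, ∀ y ∈ L g, ∀ j, ∑ i, x (i, j) * m i = ∑ i, y (i, j) * m i →
        ∀ i, x (i, j) = y (i, j)) →
      (q : ℝ) ^ (d * n) ≤ (L g).card →
      ∃ N, Real.exp (c * n / Real.log (Fintype.card G + 1)) ≤ rep A N ∧
        ∃ x ∈ L g, ∃ y ∈ L g, ∃ j, ∑ i, x (i, j) * m i + ∑ i, y (i, j) * m i = N := by
  classical
  have hlq : 0 < Real.log q := Real.log_pos (by exact_mod_cast hq)
  have hκ0 : (0:ℝ) < κ := by exact_mod_cast hκ
  have hq0 : (0:ℝ) < q := by
    have : 0 < q := by omega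
    exact_mod_cast this
  set ε : ℝ := d * Real.log q / (2 * κ) with hε
  have hε0 : 0 < ε := by positivity
  obtain ⟨K, hK, hpar⟩ := param ε hε0
  refine ⟨d * Real.log q / (12 * K * q * κ), by positivity, ?_⟩
  intro n G _ Y L m A g H hA hinj hcard
  have hLne : (L g).Nonempty := by
    rw [← card_pos]
    have h1 : (0:ℝ) < (q : ℝ) ^ (d * n) := Real.rpow_pos_of_pos hq0 _
    exact_mod_cast h1.trans_le hcard
  set s : ℕ := Fintype.card G + 1 with hs
  have hG1 : 1 ≤ Fintype.card G := Fintype.card_pos_iff.2 ⟨g⟩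
  have hs2 : 2 ≤ s := by omega
  have hs2' : (2:ℝ) ≤ s := by exact_mod_cast hs2
  have hls : 0 < Real.log s := Real.log_pos (by linarith)
  have hW : (2:ℝ) ≤ ((s ^ 3 : ℕ) : ℝ) := by
    have : s ≤ s ^ 3 := Nat.le_self_pow (by norm_num) s
    exact_mod_cast hs2.trans this
  obtain ⟨t, ht1, htK, ht⟩ := hpar _ hW
  have hlW : Real.log ((s ^ 3 : ℕ) : ℝ) = 3 * Real.log s := by
    push_cast
    rw [Real.log_pow]
    norm_num
  rw [hlW] at htK
  set z : ℝ := Real.exp (-ε) with hz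
  have hz0 : 0 < z := Real.exp_pos _
  have hz1 : z ≤ 1 := by
    rw [hz, Real.exp_le_one_iff]
    linarith
  have ht0 : (0:ℝ) ≤ t := Nat.cast_nonneg t
  have hE : 4 * ((s ^ 3 : ℕ) : ℝ) * (t + 1) * (2 * t + 1) * z ^ t ≤ 1 := by
    have h1 : z ^ t = (Real.exp (ε * t))⁻¹ := by
      rw [hz, ← Real.exp_nat_mul, ← Real.exp_neg]
      congr 1
      ring
    rw [h1, ← div_eq_mul_inv, div_le_one (Real.exp_pos _)]
    refine le_trans ?_ ht
    have h2 : 4 * ((t:ℝ) + 1) * (2 * t + 1) ≤ 16 * ((t:ℝ) + 1) ^ 3 := by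
      have h4 : (1:ℝ) ≤ ((t:ℝ) + 1) := by linarith
      calc 4 * ((t:ℝ) + 1) * (2 * t + 1) ≤ 4 * ((t:ℝ) + 1) * (4 * ((t:ℝ) + 1)) :=
            mul_le_mul_of_nonneg_left (by linarith) (by positivity)
        _ = 16 * ((t:ℝ) + 1) ^ 2 := by ring
        _ ≤ 16 * ((t:ℝ) + 1) ^ 3 :=
            mul_le_mul_of_nonneg_left (pow_le_pow_right₀ h4 (by norm_num)) (by norm_num)
    have h3 : (0:ℝ) ≤ ((s ^ 3 : ℕ) : ℝ) := Nat.cast_nonneg _
    calc 4 * ((s ^ 3 : ℕ) : ℝ) * (t + 1) * (2 * t + 1)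
        = ((s ^ 3 : ℕ) : ℝ) * (4 * ((t:ℝ) + 1) * (2 * t + 1)) := by ring
      _ ≤ ((s ^ 3 : ℕ) : ℝ) * (16 * ((t:ℝ) + 1) ^ 3) := mul_le_mul_of_nonneg_left h2 h3
      _ = _ := by ring
  obtain ⟨R, hR⟩ : ∃ R : Finset (Fin n × Fin κ → ℕ) → ℕ,
      R = fun S => ∏ j, rho (wt m) (S.image fun x i => x (i, j)) := ⟨_, rfl⟩
  have hRg : Gauge R := by
    rw [hR]
    exact gauge_prod (wt m)
  have hmain : ((L g).card : ℝ) * z ^ (Y g).card ≤ (R (L g) : ℝ) ^ (2 * t * q) := main_ineq H.family hRg (by omega) (Nat.lt_two_pow_self (n := q)).le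
    (M := s ^ 3) (Nat.one_le_pow _ _ (by omega)) (t := t)
    (fun g' a c _ => ⟨univ, by
      rw [card_univ, Fintype.card_prod, Fintype.card_prod]
      have : Fintype.card G ≤ s := by omega
      calc Fintype.card G * (Fintype.card G * Fintype.card G) = (Fintype.card G) ^ 3 := by ring
        _ ≤ s ^ 3 := Nat.pow_le_pow_left this 3, fun _ _ _ _ _ _ _ => mem_univ _⟩)
    hz0 hz1 hE g
  -- the largest coordinate
  have : Nonempty (Fin κ) := ⟨⟨0, hκ⟩⟩
  obtain ⟨j, -, hj⟩ := exists_max_image (univ : Finset (Fin κ))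
    (fun j => rho (wt m) ((L g).image fun x i => x (i, j))) univ_nonempty
  obtain ⟨r, hr⟩ : ∃ r : ℕ, r = rho (wt m) ((L g).image fun x i => x (i, j)) := ⟨_, rfl⟩
  rw [← hr] at hj
  have hr1 : 1 ≤ r := by
    rw [hr]
    exact rho_pos (hLne.image _)
  have hRr : R (L g) ≤ r ^ κ := by
    rw [hR]
    calc _ ≤ ∏ _j : Fin κ, r := prod_le_prod' fun k _ => hj k (mem_univ k)
      _ = r ^ κ := by rw [prod_const, card_univ, Fintype.card_fin]
  have hYcard : (Y g).card ≤ n * κ := by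
    calc (Y g).card ≤ (univ : Finset (Fin n × Fin κ)).card := card_le_univ _
      _ = n * κ := by rw [card_univ, Fintype.card_prod, Fintype.card_fin, Fintype.card_fin]
  -- logarithms
  have hlogr : d * Real.log q * n / 2 ≤ (2 * t * q * κ : ℕ) * Real.log r := by
    have h1 : Real.exp (d * Real.log q * n / 2) ≤ (r : ℝ) ^ (2 * t * q * κ) := by
      calc Real.exp (d * Real.log q * n / 2)
          = (q : ℝ) ^ (d * n) * z ^ (n * κ) := by
            rw [Real.rpow_def_of_pos hq0, hz, ← Real.exp_nat_mul, ← Real.exp_add]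
            congr 1
            rw [hε]
            push_cast
            field_simp
            ring
        _ ≤ ((L g).card : ℝ) * z ^ (Y g).card :=
            mul_le_mul hcard (pow_le_pow_of_le_one hz0.le hz1 hYcard) (by positivity)
              (by positivity)
        _ ≤ (R (L g) : ℝ) ^ (2 * t * q) := hmain
        _ ≤ (((r ^ κ : ℕ) : ℝ)) ^ (2 * t * q) := by
            refine pow_le_pow_left₀ (by positivity) ?_ _
            exact_mod_cast hRr
        _ = (r : ℝ) ^ (2 * t * q * κ) := by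
            push_cast
            rw [← pow_mul]
            congr 1
            ring
    have hr0 : (0:ℝ) < r := by exact_mod_cast hr1
    have h2 := Real.log_le_log (Real.exp_pos _) h1
    rw [Real.log_exp, Real.log_pow] at h2
    exact_mod_cast h2
  have hlr0 : 0 ≤ Real.log r := Real.log_nonneg (by exact_mod_cast hr1)
  have hfin : Real.exp (d * Real.log q / (12 * K * q * κ) * n / Real.log s) ≤ r := by
    rw [← Real.le_log_iff_exp_le (by exact_mod_cast hr1)]
    have h1 : ((2 * t * q * κ : ℕ) : ℝ) ≤ 6 * K * q * κ * Real.log s := by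
      push_cast
      have h2 : (t:ℝ) * (2 * q * κ) ≤ (K * (3 * Real.log s)) * (2 * q * κ) :=
        mul_le_mul_of_nonneg_right htK (by positivity)
      calc 2 * (t:ℝ) * q * κ = (t:ℝ) * (2 * q * κ) := by ring
        _ ≤ _ := h2
        _ = _ := by ring
    have h2 : d * Real.log q * n / 2 ≤ 6 * K * q * κ * Real.log s * Real.log r :=
      hlogr.trans (mul_le_mul_of_nonneg_right h1 hlr0)
    have h3 : d * Real.log q / (12 * K * q * κ) * n / Real.log s =
        (d * Real.log q * n / 2) / (6 * K * q * κ * Real.log s) := by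
      field_simp
      ring
    rw [h3, div_le_iff₀ (by positivity)]
    calc d * Real.log q * n / 2 ≤ _ := h2
      _ = _ := by ring
  obtain ⟨N, hN, x, hx, y, hy, hxy⟩ := rho_le_rep (v := wt m) (A := A)
    (S := (L g).image fun x i => x (i, j)) (by
      intro w hw
      rw [mem_image] at hw
      obtain ⟨x, hx, rfl⟩ := hw
      exact hA x hx j) (by
      intro w hw w' hw' h
      rw [mem_image] at hw hw'
      obtain ⟨x, hx, rfl⟩ := hw
      obtain ⟨y, hy, rfl⟩ := hw'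
      funext i
      exact hinj x hx y hy j h i) (hLne.image _)
  rw [mem_image] at hx hy
  obtain ⟨x, hx, rfl⟩ := hx
  obtain ⟨y, hy, rfl⟩ := hy
  refine ⟨N, ?_, x, hx, y, hy, j, hxy⟩
  have h1 : ((Fintype.card G : ℝ) + 1) = (s : ℝ) := by rw [hs]; push_cast; rfl
  rw [h1]
  rw [← hr] at hN
  exact hfin.trans (by exact_mod_cast hN)

end Pool.Agent.Helper79.TY
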