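import Pool.Agent.Helper79.TY.Circ
import Pool.Agent.Helper1.TY.BaseQ

/-!
# Decomposable circuits in base `q`; choices of representations
-/

namespace Pool.Agent.Helper79.TY

open Finset Pool.Agent.Helper45.TY Pool.Agent.Helper1.TY

lemma sum_eq_val {n q : ℕ} (w : Fin n → Fin q) :
    ∑ i, ((w i : ℕ)) * q ^ (i : ℕ) = val (digitVal (Equiv.refl _)) w := rfl

lemma digits_inj {n q : ℕ} {x y : Fin n → ℕ} (hx : ∀ i, x i < q) (hy : ∀ i, y i < q)
    (h : ∑ i, x i * q ^ (i : ℕ) = ∑ i, y i * q ^ (i : ℕ)) : x = y := by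
  have h1 := sum_eq_val (n := n) (q := q) fun i => ⟨x i, hx i⟩
  have h2 := sum_eq_val (n := n) (q := q) fun i => ⟨y i, hy i⟩
  simp only at h1 h2
  rw [h1, h2] at h
  have h3 := val_digitVal_injective _ h
  funext i
  have h4 := congrFun h3 i
  rw [Fin.mk.injEq] at h4
  exact h4

lemma digits_lt {n q : ℕ} {x : Fin n → ℕ} (hx : ∀ i, x i < q) :
    ∑ i, x i * q ^ (i : ℕ) < q ^ n := by
  have h1 := sum_eq_val (n := n) (q := q) fun i => ⟨x i, hx i⟩
  simp only at h1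
  rw [h1]
  exact val_digitVal_lt _ _

/-- **Decomposable circuits in base `q`.** If a set of at least `q ^ (d n)` tuples of elements of
`A` below `q ^ n` is computed by a decomposable family of `s` sets, then some `N < 2 q ^ n` has at
least `exp (c n / log (s + 1))` representations as a sum of two elements of `A`. -/
theorem decomposable_base (κ q : ℕ) (hκ : 1 ≤ κ) (hq : 2 ≤ q) (d : ℝ) (hd : 0 < d) :
    ∃ c : ℝ, 0 < c ∧ ∀ (n : ℕ) (G : Type) [Fintype G] (Y : G → Finset (Fin n × Fin κ))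
      (L : G → Finset (Fin n × Fin κ → ℕ)) (A : Set ℕ) (g : G), Decomposable q Y L →
      (∀ x ∈ L g, ∀ j, ∑ i, x (i, j) * q ^ (i : ℕ) ∈ A) → (q : ℝ) ^ (d * n) ≤ (L g).card →
      ∃ N < 2 * q ^ n, Real.exp (c * n / Real.log (Fintype.card G + 1)) ≤ rep A N := by
  obtain ⟨c, hc, h⟩ := decomposable_val κ q hκ hq d hd
  refine ⟨c, hc, ?_⟩
  intro n G _ Y L A g H hA hcard
  obtain ⟨N, hN, x, hx, y, hy, j, hxy⟩ := h n G Y L (fun i => q ^ (i : ℕ)) A g H hA
    (fun x hx y hy j hxy i => by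
      have := digits_inj (x := fun i => x (i, j)) (y := fun i => y (i, j))
        (fun i => ((H g).1 x hx _).1) (fun i => ((H g).1 y hy _).1) hxy
      exact congrFun this i) hcard
  refine ⟨N, ?_, hN⟩
  have h1 := digits_lt (x := fun i => x (i, j)) (q := q) fun i => ((H g).1 x hx _).1
  have h2 := digits_lt (x := fun i => y (i, j)) (q := q) fun i => ((H g).1 y hy _).1
  rw [← hxy]
  omega

/-- **No cheap choice of representations.** `A` is an arbitrary set; a decomposable family of `s`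
sets computes a set of pairs of elements of `A` such that every `n` in `[t, q ^ J)` is the sum of
such a pair. -/
theorem decomposable_choice (q : ℕ) (hq : 2 ≤ q) : ∃ c : ℝ, 0 < c ∧
    ∀ (J t : ℕ) (G : Type) [Fintype G] (Y : G → Finset (Fin J × Fin 2))
      (L : G → Finset (Fin J × Fin 2 → ℕ)) (A : Set ℕ) (g : G), 2 ≤ J → 2 * t ≤ q ^ J →
      Decomposable q Y L → (∀ x ∈ L g, ∀ j, ∑ i, x (i, j) * q ^ (i : ℕ) ∈ A) →
      (∀ n, t ≤ n → n < q ^ J → ∃ x ∈ L g,
        ∑ i, x (i, 0) * q ^ (i : ℕ) + ∑ i, x (i, 1) * q ^ (i : ℕ) = n) →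
      ∃ N < 2 * q ^ J, Real.exp (c * J / Real.log (Fintype.card G + 1)) ≤ rep A N := by
  classical
  obtain ⟨c, hc, h⟩ := decomposable_base 2 q (by norm_num) hq (1 / 2) (by norm_num)
  refine ⟨c, hc, ?_⟩
  intro J t G _ Y L A g hJ ht H hA hrep
  refine h J G Y L A g H hA ?_
  have h1 : q ^ J - t ≤ (L g).card := by
    have h2 : (Ico t (q ^ J)).card ≤ (L g).card := by
      refine (card_le_card (?_ : Ico t (q ^ J) ⊆ (L g).image fun x : Fin J × Fin 2 → ℕ =>
        ∑ i, x (i, 0) * q ^ (i : ℕ) + ∑ i, x (i, 1) * q ^ (i : ℕ))).trans card_image_le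
      intro n hn
      rw [mem_Ico] at hn
      rw [mem_image]
      exact hrep n hn.1 hn.2
    rwa [Nat.card_Ico] at h2
  have h2 : q ^ J ≤ 2 * (L g).card := by omega
  have hq0 : (0:ℝ) < q := by
    have : 0 < q := by omega
    exact_mod_cast this
  have hq2 : (2:ℝ) ≤ q := by exact_mod_cast hq
  have h3 : (2:ℝ) ≤ (q:ℝ) ^ ((1:ℝ) / 2 * J) := by
    calc (2:ℝ) ≤ q := hq2
      _ = (q:ℝ) ^ (1:ℝ) := (Real.rpow_one _).symm
      _ ≤ (q:ℝ) ^ ((1:ℝ) / 2 * J) := by
          refine Real.rpow_le_rpow_of_exponent_le (by linarith) ?_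
          have : (2:ℝ) ≤ J := by exact_mod_cast hJ
          linarith
  have h4 : (q:ℝ) ^ ((1:ℝ) / 2 * J) * (q:ℝ) ^ ((1:ℝ) / 2 * J) = (q:ℝ) ^ J := by
    rw [← Real.rpow_add hq0, ← Real.rpow_natCast]
    congr 1
    ring
  have h5 : ((q ^ J : ℕ) : ℝ) ≤ 2 * (L g).card := by exact_mod_cast h2
  push_cast at h5
  have h6 : 0 < (q:ℝ) ^ ((1:ℝ) / 2 * J) := Real.rpow_pos_of_pos hq0 _
  nlinarith

end Pool.Agent.Helper79.TY
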