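import Pool.Agent.Helper79.TY.Comp

/-!
# Reed-Solomon matrices with squares of rows and columns
-/

namespace Pool.Agent.Helper79.TY

open scoped Pointwise
open Pool.Agent.Helper82.CF Pool.Agent.Helper29.CC

section Code

variable {p d : ℕ} [Fact p.Prime]

/-- Values at `0, 1, ..., 2 d - 1` of the polynomial with coefficients `a`. -/
def cw (a : Fin d → ZMod p) : Fin (2 * d) → ℤ :=
  fun j => ((∑ k : Fin d, a k * (((j : ℕ) : ZMod p)) ^ (k : ℕ)).val : ℤ)

lemma cw_bounds (a : Fin d → ZMod p) (j : Fin (2 * d)) : 0 ≤ cw a j ∧ cw a j < p := by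
  unfold cw
  refine ⟨by positivity, ?_⟩
  exact_mod_cast ZMod.val_lt _

/-- The polynomial with coefficients `a`. -/
noncomputable def pol (a : Fin d → ZMod p) : Polynomial (ZMod p) :=
  ∑ k : Fin d, Polynomial.C (a k) * Polynomial.X ^ (k : ℕ)

lemma pol_coeff (a : Fin d → ZMod p) (k : Fin d) : (pol a).coeff k = a k := by
  unfold pol
  rw [Polynomial.finsetSum_coeff]
  simp only [Polynomial.coeff_C_mul, Polynomial.coeff_X_pow]
  rw [Finset.sum_eq_single k]
  · simp
  · intro j _ hj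
    have : ¬ (k : ℕ) = (j : ℕ) := fun h => hj (Fin.ext h.symm)
    simp [this]
  · intro h
    exact (h (Finset.mem_univ k)).elim

lemma pol_eval (a : Fin d → ZMod p) (t : ZMod p) :
    (pol a).eval t = ∑ k : Fin d, a k * t ^ (k : ℕ) := by
  unfold pol
  rw [Polynomial.eval_finsetSum]
  simp

lemma pol_natDegree (hd : 1 ≤ d) (a : Fin d → ZMod p) : (pol a).natDegree ≤ d - 1 := by
  unfold pol
  refine Polynomial.natDegree_sum_le_of_forall_le _ _ fun k _ => ?_
  refine (Polynomial.natDegree_C_mul_X_pow_le _ _).trans ?_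
  have := k.2
  omega

lemma pol_ne (a b : Fin d → ZMod p) (h : a ≠ b) : pol (a - b) ≠ 0 := by
  intro h0
  apply h
  funext k
  have h1 := pol_coeff (a - b) k
  rw [h0, Polynomial.coeff_zero] at h1
  exact (sub_eq_zero.1 h1.symm)

/-- Two pairs of different codewords differ at a common place. -/
lemma inter (hd : 1 ≤ d) (hp : 2 * d ≤ p) {a b a' b' : Fin d → ZMod p} (h : a ≠ b)
    (h' : a' ≠ b') : ∃ j, cw a j ≠ cw b j ∧ cw a' j ≠ cw b' j := by
  by_contra hcon
  push Not at hcon
  have hne : pol (a - b) * pol (a' - b') ≠ 0 := mul_ne_zero (pol_ne a b h) (pol_ne a' b' h')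
  refine hne (Polynomial.eq_zero_of_natDegree_lt_card_of_eval_eq_zero _
    (f := fun j : Fin (2 * d) => (((j : ℕ) : ZMod p))) ?_ ?_ ?_)
  · intro i j hij
    simp only at hij
    rw [ZMod.natCast_eq_natCast_iff'] at hij
    rw [Nat.mod_eq_of_lt (by have := i.2; omega), Nat.mod_eq_of_lt (by have := j.2; omega)] at hij
    exact Fin.ext hij
  · intro j
    rw [Polynomial.eval_mul]
    have key : ∀ a b : Fin d → ZMod p, cw a j = cw b j →
        (pol (a - b)).eval ((j : ℕ) : ZMod p) = 0 := by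
      intro a b hab
      unfold cw at hab
      have h1 := ZMod.val_injective p (Nat.cast_injective hab)
      rw [pol_eval]
      simp only [Pi.sub_apply, sub_mul]
      rw [Finset.sum_sub_distrib, h1, sub_self]
    by_cases hj : cw a j = cw b j
    · rw [key a b hj, zero_mul]
    · rw [key a' b' (hcon j hj), mul_zero]
  · refine lt_of_le_of_lt Polynomial.natDegree_mul_le ?_
    have h1 := pol_natDegree hd (a - b)
    have h2 := pol_natDegree hd (a' - b')
    rw [Fintype.card_fin]
    omega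

lemma cw_injective (hd : 1 ≤ d) (hp : 2 * d ≤ p) :
    Function.Injective (cw : (Fin d → ZMod p) → Fin (2 * d) → ℤ) := by
  intro a b hab
  by_contra h
  obtain ⟨j, hj, -⟩ := inter hd hp h h
  exact hj (congrFun hab j)

end Code

/-- Matrices, one number for each row and one for each column. -/
abbrev V (d : ℕ) : Type := (Fin d → Fin (2 * d) → ℤ) × (Fin d → ℤ) × (Fin (2 * d) → ℤ)

section Sets

variable (p d : ℕ) [Fact p.Prime]

/-- The points: rows in the code, and the squares of the rows and of the columns. -/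
def Pt (z : V d) : Prop :=
  (∃ a : Fin d → Fin d → ZMod p, z.1 = fun i => cw (a i)) ∧
    (∀ i, z.2.1 i = (num p (z.1 i)) ^ 2) ∧ ∀ j, z.2.2 j = (num p (fun i => z.1 i j)) ^ 2

/-- The range of the coordinates. -/
def Box (z : V d) : Prop :=
  (∀ i j, 0 ≤ z.1 i j ∧ z.1 i j < p) ∧ (∀ i, 0 ≤ z.2.1 i ∧ z.2.1 i < (p : ℤ) ^ (4 * d)) ∧
    ∀ j, 0 ≤ z.2.2 j ∧ z.2.2 j < (p : ℤ) ^ (4 * d)

variable {p d}

lemma two_sq {a b c e : ℤ} (h1 : a + b = c + e) (h2 : a ^ 2 + b ^ 2 = c ^ 2 + e ^ 2) :
    (c = a ∧ e = b) ∨ (c = b ∧ e = a) := by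
  have h3 : (c - a) * (c - b) = 0 := by
    have : e = a + b - c := by linarith
    subst this
    nlinarith
  rcases mul_eq_zero.1 h3 with h | h
  · left
    constructor <;> linarith
  · right
    constructor <;> linarith

omit [Fact p.Prime] in
lemma two_vec {n : ℕ} {a b c e : Fin n → ℤ} (ha : ∀ j, 0 ≤ a j ∧ a j < p)
    (hb : ∀ j, 0 ≤ b j ∧ b j < p) (hc : ∀ j, 0 ≤ c j ∧ c j < p)
    (h1 : a + b = c + e)
    (h2 : (num p a) ^ 2 + (num p b) ^ 2 = (num p c) ^ 2 + (num p e) ^ 2) :
    c = a ∨ c = b := by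
  have h3 : num p a + num p b = num p c + num p e := by
    rw [← num_add, ← num_add, h1]
  rcases two_sq h3 h2 with ⟨h, -⟩ | ⟨h, -⟩
  · exact Or.inl (num_inj hc ha h)
  · exact Or.inr (num_inj hc hb h)

lemma pt_row_bounds {z : V d} (hz : Pt p d z) (i : Fin d) (j : Fin (2 * d)) :
    0 ≤ z.1 i j ∧ z.1 i j < p := by
  obtain ⟨⟨a, ha⟩, -⟩ := hz
  rw [ha]
  exact cw_bounds _ _

lemma pt_ext {z y : V d} (hz : Pt p d z) (hy : Pt p d y) (h : y.1 = z.1) : y = z := by
  refine Prod.ext h (Prod.ext ?_ ?_)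
  · funext i
    rw [hz.2.1 i, hy.2.1 i, h]
  · funext j
    rw [hz.2.2 j, hy.2.2 j, h]

/-- The points form a Sidon set. -/
lemma sidon (hd : 1 ≤ d) (hp : 2 * d ≤ p) {z z' y y' : V d} (hz : Pt p d z) (hz' : Pt p d z')
    (hy : Pt p d y) (hy' : Pt p d y') (h : z + z' = y + y') :
    (y = z ∧ y' = z') ∨ (y = z' ∧ y' = z) := by
  have h1 : z.1 + z'.1 = y.1 + y'.1 := congrArg Prod.fst h
  have h2 : z.2.1 + z'.2.1 = y.2.1 + y'.2.1 := congrArg (fun w => w.2.1) h
  have h3 : z.2.2 + z'.2.2 = y.2.2 + y'.2.2 := congrArg (fun w => w.2.2) h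
  have hrow : ∀ i, y.1 i = z.1 i ∨ y.1 i = z'.1 i := by
    intro i
    refine two_vec (pt_row_bounds hz i) (pt_row_bounds hz' i) (pt_row_bounds hy i)
      (congrFun h1 i) ?_
    rw [← hz.2.1 i, ← hz'.2.1 i, ← hy.2.1 i, ← hy'.2.1 i]
    exact congrFun h2 i
  have hcol : ∀ j, (fun i => y.1 i j) = (fun i => z.1 i j) ∨
      (fun i => y.1 i j) = (fun i => z'.1 i j) := by
    intro j
    refine two_vec (e := fun i => y'.1 i j) (fun i => pt_row_bounds hz i j) (fun i => pt_row_bounds hz' i j)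
      (fun i => pt_row_bounds hy i j) ?_ ?_
    · funext i
      exact congrFun (congrFun h1 i) j
    · rw [← hz.2.2 j, ← hz'.2.2 j, ← hy.2.2 j, ← hy'.2.2 j]
      exact congrFun h3 j
  by_cases hyz : y = z
  · left
    refine ⟨hyz, ?_⟩
    rw [hyz] at h
    exact (add_left_cancel h).symm
  · right
    have hne : ∃ i0, y.1 i0 ≠ z.1 i0 := by
      by_contra hcon
      push Not at hcon
      exact hyz (pt_ext hz hy (funext hcon))
    obtain ⟨i0, hi0⟩ := hne
    have hi0' : y.1 i0 = z'.1 i0 := (hrow i0).resolve_left hi0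
    obtain ⟨a, ha⟩ := hz.1
    obtain ⟨a', ha'⟩ := hz'.1
    have hall : y.1 = z'.1 := by
      funext i
      by_contra hi
      have hi' : y.1 i = z.1 i := (hrow i).resolve_right hi
      have e1 : a i ≠ a' i := by
        intro e
        apply hi
        rw [hi', ha, ha']
        simp only [e]
      have e2 : a i0 ≠ a' i0 := by
        intro e
        apply hi0
        rw [hi0', ha, ha']
        simp only [e]
      obtain ⟨j, hj1, hj2⟩ := inter hd hp e1 e2
      have f1 : z.1 i j ≠ z'.1 i j := by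
        rw [ha, ha']
        exact hj1
      have f2 : z.1 i0 j ≠ z'.1 i0 j := by
        rw [ha, ha']
        exact hj2
      rcases hcol j with hc | hc
      · apply f2
        rw [← congrFun hc i0, hi0']
      · apply f1
        rw [← hi', congrFun hc i]
    have hyz' : y = z' := pt_ext hz' hy hall
    refine ⟨hyz', ?_⟩
    rw [hyz', add_comm] at h
    exact (add_left_cancel h).symm

end Sets

end Pool.Agent.Helper79.TY
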