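import Pool.Agent.Helper82.CF.Cir
import Pool.Agent.Helper29.CC.Choice

/-!
# Sets computed by unions and sumsets: sums of arbitrary small sets
-/

namespace Pool.Agent.Helper79.TY

open scoped Pointwise
open Pool.Agent.Helper82.CF Pool.Agent.Helper29.CC

section Comp

variable {G : Type*} [AddCommGroup G] [DecidableEq G]

/-- `T` is computed by a circuit of `s` sets. -/
def Comp (s : ℕ) (T : Finset G) : Prop :=
  ∃ S : ℕ → Finset G, IsCircuit s S ∧ ∃ i < s, S i = T

lemma comp_mono {s s' : ℕ} (h : s ≤ s') {T : Finset G} (hT : Comp s T) : Comp s' T := by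
  obtain ⟨S, hS, i, hi, e⟩ := hT
  refine ⟨fun j => if j < s then S j else {0}, ?_, i, hi.trans_le h, ?_⟩
  · intro j hj
    by_cases hjs : j < s
    · rcases hS j hjs with ⟨t, ht⟩ | ⟨a, ha, b, hb, h⟩ | ⟨a, ha, b, hb, h⟩
      · exact Or.inl ⟨t, by simp only [hjs, if_true, ht]⟩
      · refine Or.inr (Or.inl ⟨a, ha, b, hb, ?_⟩)
        simp only [hjs, if_true, ha.trans hjs, hb.trans hjs, h]
      · refine Or.inr (Or.inr ⟨a, ha, b, hb, ?_⟩)
        simp only [hjs, if_true, ha.trans hjs, hb.trans hjs, h]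
    · exact Or.inl ⟨0, by simp only [hjs, if_false]⟩
  · simp only [hi, if_true, e]

lemma comp_singleton (t : G) : Comp 1 ({t} : Finset G) :=
  ⟨fun _ => {t}, fun _ _ => Or.inl ⟨t, rfl⟩, 0, Nat.one_pos, rfl⟩

lemma comp_join {s s' : ℕ} {T T' : Finset G} (hT : Comp s T) (hT' : Comp s' T') :
    ∃ S : ℕ → Finset G, IsCircuit (s + s') S ∧ (∃ i < s + s', S i = T) ∧
      ∃ i < s + s', S i = T' := by
  obtain ⟨S, hS, i, hi, e⟩ := hT
  obtain ⟨S', hS', i', hi', e'⟩ := hT'
  refine ⟨fun j => if j < s then S j else S' (j - s), ?_, ⟨i, by omega, ?_⟩,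
    ⟨s + i', by omega, ?_⟩⟩
  · intro j hj
    by_cases hjs : j < s
    · rcases hS j hjs with ⟨t, ht⟩ | ⟨a, ha, b, hb, h⟩ | ⟨a, ha, b, hb, h⟩
      · exact Or.inl ⟨t, by simp only [hjs, if_true, ht]⟩
      · refine Or.inr (Or.inl ⟨a, ha, b, hb, ?_⟩)
        simp only [hjs, if_true, ha.trans hjs, hb.trans hjs, h]
      · refine Or.inr (Or.inr ⟨a, ha, b, hb, ?_⟩)
        simp only [hjs, if_true, ha.trans hjs, hb.trans hjs, h]
    · have h1 : ∀ a, ¬ s + a < s := fun a => by omega
      have h2 : ∀ a, s + a - s = a := fun a => by omega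
      rcases hS' (j - s) (by omega) with ⟨t, ht⟩ | ⟨a, ha, b, hb, h⟩ | ⟨a, ha, b, hb, h⟩
      · exact Or.inl ⟨t, by simp only [hjs, if_false, ht]⟩
      · refine Or.inr (Or.inl ⟨s + a, by omega, s + b, by omega, ?_⟩)
        simp only [hjs, if_false, h1, h2, h]
      · refine Or.inr (Or.inr ⟨s + a, by omega, s + b, by omega, ?_⟩)
        simp only [hjs, if_false, h1, h2, h]
  · simp only [hi, if_true, e]
  · have h1 : ¬ s + i' < s := by omega
    have h2 : s + i' - s = i' := by omega
    simp only [h1, if_false, h2, e']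

lemma comp_next {s : ℕ} {S : ℕ → Finset G} (hS : IsCircuit s S) (U : Finset G)
    (hU : (∃ j < s, ∃ k < s, U = S j ∪ S k) ∨ (∃ j < s, ∃ k < s, U = S j + S k)) :
    Comp (s + 1) U := by
  refine ⟨fun j => if j < s then S j else U, ?_, s, by omega, by simp⟩
  intro j hj
  by_cases hjs : j < s
  · rcases hS j hjs with ⟨t, ht⟩ | ⟨a, ha, b, hb, h⟩ | ⟨a, ha, b, hb, h⟩
    · exact Or.inl ⟨t, by simp only [hjs, if_true, ht]⟩
    · refine Or.inr (Or.inl ⟨a, ha, b, hb, ?_⟩)
      simp only [hjs, if_true, ha.trans hjs, hb.trans hjs, h]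
    · refine Or.inr (Or.inr ⟨a, ha, b, hb, ?_⟩)
      simp only [hjs, if_true, ha.trans hjs, hb.trans hjs, h]
  · rcases hU with ⟨a, ha, b, hb, h⟩ | ⟨a, ha, b, hb, h⟩
    · refine Or.inr (Or.inl ⟨a, by omega, b, by omega, ?_⟩)
      simp only [hjs, if_false, ha, hb, if_true, h]
    · refine Or.inr (Or.inr ⟨a, by omega, b, by omega, ?_⟩)
      simp only [hjs, if_false, ha, hb, if_true, h]

lemma comp_union {s s' : ℕ} {T T' : Finset G} (hT : Comp s T) (hT' : Comp s' T') :
    Comp (s + s' + 1) (T ∪ T') := by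
  obtain ⟨S, hS, ⟨i, hi, e⟩, ⟨j, hj, e'⟩⟩ := comp_join hT hT'
  exact comp_next hS _ (Or.inl ⟨i, hi, j, hj, by rw [e, e']⟩)

lemma comp_add {s s' : ℕ} {T T' : Finset G} (hT : Comp s T) (hT' : Comp s' T') :
    Comp (s + s' + 1) (T + T') := by
  obtain ⟨S, hS, ⟨i, hi, e⟩, ⟨j, hj, e'⟩⟩ := comp_join hT hT'
  exact comp_next hS _ (Or.inr ⟨i, hi, j, hj, by rw [e, e']⟩)

lemma comp_finset {T : Finset G} (h : T.Nonempty) : Comp (2 * T.card) T := by
  induction h using Finset.Nonempty.cons_induction with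
  | singleton t => exact comp_mono (by simp) (comp_singleton t)
  | cons a T ha hT ih =>
    rw [Finset.card_cons, Finset.cons_eq_insert, Finset.insert_eq]
    exact comp_mono (by omega) (comp_union (comp_singleton a) ih)

lemma comp_sum {ι : Type*} (I : Finset ι) (F : ι → Finset G) (K : ℕ)
    (hF : ∀ i ∈ I, (F i).Nonempty ∧ (F i).card ≤ K) :
    Comp ((2 * K + 1) * I.card + 1) (∑ i ∈ I, F i) := by
  classical
  induction I using Finset.induction_on with
  | empty =>
    rw [Finset.sum_empty, Finset.card_empty]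
    exact comp_mono (by simp) (comp_singleton (0 : G))
  | insert i I hi ih =>
    rw [Finset.sum_insert hi, Finset.card_insert_of_notMem hi]
    have h1 := hF i (Finset.mem_insert_self _ _)
    have h2 := ih fun j hj => hF j (Finset.mem_insert_of_mem hj)
    refine comp_mono ?_ (comp_add (comp_finset h1.1) h2)
    have := h1.2
    have e : (2 * K + 1) * (I.card + 1) = (2 * K + 1) * I.card + (2 * K + 1) := by ring
    omega

lemma comp_map {H : Type*} [AddCommGroup H] [DecidableEq H] {s : ℕ} {T : Finset G}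
    (hT : Comp s T) (f : G →+ H) : Comp s (T.image f) := by
  obtain ⟨S, hS, i, hi, e⟩ := hT
  exact ⟨_, isCircuit_map hS f, i, hi, by simp only [e]⟩

lemma mem_sum {ι : Type*} (I : Finset ι) (F : ι → Finset G) (z : G) (hz : z ∈ ∑ i ∈ I, F i) :
    ∃ f : ι → G, (∀ i ∈ I, f i ∈ F i) ∧ ∑ i ∈ I, f i = z := by
  classical
  induction I using Finset.induction_on generalizing z with
  | empty =>
    rw [Finset.sum_empty, Finset.mem_zero] at hz
    exact ⟨fun _ => 0, fun i hi => (Finset.notMem_empty i hi).elim, by rw [Finset.sum_empty, hz]⟩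
  | insert i I hi ih =>
    rw [Finset.sum_insert hi, Finset.mem_add] at hz
    obtain ⟨y, hy, w, hw, rfl⟩ := hz
    obtain ⟨f, hf, e⟩ := ih w hw
    refine ⟨Function.update f i y, ?_, ?_⟩
    · intro j hj
      rcases Finset.mem_insert.1 hj with rfl | h
      · rw [Function.update_self]
        exact hy
      · have : j ≠ i := fun e => hi (e ▸ h)
        rw [Function.update_of_ne this]
        exact hf j h
    · rw [Finset.sum_insert hi, Function.update_self, ← e]
      congr 1
      refine Finset.sum_congr rfl fun j hj => ?_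
      have : j ≠ i := fun e => hi (e ▸ hj)
      rw [Function.update_of_ne this]

lemma sum_mem_sum {ι : Type*} (I : Finset ι) (F : ι → Finset G) (f : ι → G)
    (hf : ∀ i ∈ I, f i ∈ F i) : ∑ i ∈ I, f i ∈ ∑ i ∈ I, F i := by
  classical
  induction I using Finset.induction_on with
  | empty =>
    rw [Finset.sum_empty, Finset.sum_empty]
    exact Finset.zero_mem_zero
  | insert i I hi ih =>
    rw [Finset.sum_insert hi, Finset.sum_insert hi]
    exact Finset.add_mem_add (hf i (Finset.mem_insert_self _ _))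
      (ih fun j hj => hf j (Finset.mem_insert_of_mem hj))

end Comp

/-! ### Numbers in base `b` -/

/-- The number with digits `u` in base `b`. -/
def num (b : ℕ) {n : ℕ} (u : Fin n → ℤ) : ℤ := ∑ j, u j * (b : ℤ) ^ (j : ℕ)

lemma num_succ (b : ℕ) {n : ℕ} (u : Fin (n + 1) → ℤ) :
    num b u = u 0 + b * num b (fun j : Fin n => u j.succ) := by
  unfold num
  rw [Fin.sum_univ_succ, Finset.mul_sum]
  simp only [Fin.val_zero, pow_zero, mul_one, Fin.val_succ, pow_succ]
  congr 1
  refine Finset.sum_congr rfl fun j _ => ?_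
  ring

lemma num_add (b : ℕ) {n : ℕ} (u v : Fin n → ℤ) : num b (u + v) = num b u + num b v := by
  unfold num
  rw [← Finset.sum_add_distrib]
  refine Finset.sum_congr rfl fun j _ => ?_
  rw [Pi.add_apply]
  ring

lemma num_zero (b : ℕ) (n : ℕ) : num b (0 : Fin n → ℤ) = 0 := by
  unfold num
  simp

lemma num_nonneg {b : ℕ} {n : ℕ} {u : Fin n → ℤ} (hu : ∀ j, 0 ≤ u j) : 0 ≤ num b u :=
  Finset.sum_nonneg fun j _ => mul_nonneg (hu j) (by positivity)

lemma num_lt {b : ℕ} {n : ℕ} {u : Fin n → ℤ} (hu : ∀ j, 0 ≤ u j ∧ u j < b) :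
    num b u < (b : ℤ) ^ n := by
  induction n with
  | zero =>
    unfold num
    simp
  | succ n ih =>
    rw [num_succ, pow_succ]
    have h1 := ih (u := fun j : Fin n => u j.succ) fun j => hu j.succ
    have h2 := (hu 0).2
    have h3 : (0:ℤ) ≤ b := by positivity
    nlinarith

lemma num_inj {b : ℕ} {n : ℕ} {u v : Fin n → ℤ} (hu : ∀ j, 0 ≤ u j ∧ u j < b)
    (hv : ∀ j, 0 ≤ v j ∧ v j < b) (h : num b u = num b v) : u = v := by
  induction n with
  | zero => exact Subsingleton.elim _ _
  | succ n ih =>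
    rw [num_succ, num_succ] at h
    have h0 := hu 0
    have h0' := hv 0
    have hb : (0:ℤ) < b := by linarith
    have h1 : u 0 = v 0 := by
      have e1 : (u 0 + b * num b (fun j : Fin n => u j.succ)) % b = u 0 := by
        rw [Int.add_mul_emod_self_left, Int.emod_eq_of_lt h0.1 h0.2]
      have e2 : (v 0 + b * num b (fun j : Fin n => v j.succ)) % b = v 0 := by
        rw [Int.add_mul_emod_self_left, Int.emod_eq_of_lt h0'.1 h0'.2]
      rw [← e1, ← e2, h]
    have h2 : num b (fun j : Fin n => u j.succ) = num b (fun j : Fin n => v j.succ) := by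
      rw [h1] at h
      have := add_left_cancel h
      exact mul_left_cancel₀ hb.ne' this
    have h3 := ih (fun j => hu j.succ) (fun j => hv j.succ) h2
    funext j
    refine Fin.cases h1 (fun j => ?_) j
    exact congrFun h3 j

end Pool.Agent.Helper79.TY
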