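import Pool.Agent.Helper79.TY.Growth

/-!
# Decomposable families of sets of digit words

The main inequality: a large set of a decomposable family has a sum with many representations.
-/

namespace Pool.Agent.Helper79.TY

open Finset

section Rho

variable {α : Type*}

/-- The largest number of pairs in `S × S` with the same value of `v x + v y`. -/
def rho (v : α → ℕ) (S : Finset α) : ℕ :=
  (S ×ˢ S).sup fun p => ((S ×ˢ S).filter fun q => v q.1 + v q.2 = v p.1 + v p.2).card

lemma exists_rho {v : α → ℕ} {S : Finset α} (hS : S.Nonempty) :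
    ∃ N, rho v S = ((S ×ˢ S).filter fun q => v q.1 + v q.2 = N).card := by
  obtain ⟨p, _, hp⟩ := exists_mem_eq_sup (S ×ˢ S) (hS.product hS)
    (fun p => ((S ×ˢ S).filter fun q => v q.1 + v q.2 = v p.1 + v p.2).card)
  exact ⟨_, hp⟩

lemma le_rho {v : α → ℕ} {S : Finset α} (N : ℕ) :
    ((S ×ˢ S).filter fun q => v q.1 + v q.2 = N).card ≤ rho v S := by
  rcases ((S ×ˢ S).filter fun q => v q.1 + v q.2 = N).eq_empty_or_nonempty with h | ⟨p, hp⟩
  · rw [h, card_empty]
    exact Nat.zero_le _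
  · rw [mem_filter] at hp
    have := le_sup (f := fun p => ((S ×ˢ S).filter fun q => v q.1 + v q.2 = v p.1 + v p.2).card)
      hp.1
    simp only [hp.2] at this
    exact this

lemma rho_pos {v : α → ℕ} {S : Finset α} (hS : S.Nonempty) : 1 ≤ rho v S := by
  obtain ⟨x, hx⟩ := hS
  refine le_trans ?_ (le_rho (v x + v x))
  rw [Nat.one_le_iff_ne_zero, ← Nat.pos_iff_ne_zero, card_pos]
  exact ⟨(x, x), by rw [mem_filter, mem_product]; exact ⟨⟨hx, hx⟩, rfl⟩⟩

lemma rho_two {v : α → ℕ} {S : Finset α} (hS : 1 < S.card) : 2 ≤ rho v S := by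
  obtain ⟨x, hx, y, hy, hxy⟩ := one_lt_card.1 hS
  refine le_trans ?_ (le_rho (v x + v y))
  refine one_lt_card.2 ⟨(x, y), ?_, (y, x), ?_, ?_⟩
  · rw [mem_filter, mem_product]
    exact ⟨⟨hx, hy⟩, rfl⟩
  · rw [mem_filter, mem_product]
    exact ⟨⟨hy, hx⟩, add_comm _ _⟩
  · intro h
    rw [Prod.mk.injEq] at h
    exact hxy h.1

end Rho

lemma rho_mul {α : Type*} [AddMonoid α] (v : α →+ ℕ) {S T U : Finset α}
    (hv : ∀ x ∈ S, ∀ x' ∈ S, ∀ y ∈ T, ∀ y' ∈ T, x + y = x' + y' → x = x' ∧ y = y')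
    (hcomm : ∀ x ∈ S, ∀ y ∈ T, x + y ∈ U) : rho v S * rho v T ≤ rho v U := by
  rcases S.eq_empty_or_nonempty with h0 | hS
  · have : rho v S = 0 := by rw [h0]; rfl
    rw [this, zero_mul]
    exact Nat.zero_le _
  rcases T.eq_empty_or_nonempty with h0 | hT
  · have : rho v T = 0 := by rw [h0]; rfl
    rw [this, mul_zero]
    exact Nat.zero_le _
  obtain ⟨N, hN⟩ := exists_rho (v := v) hS
  obtain ⟨N', hN'⟩ := exists_rho (v := v) hT
  rw [hN, hN', ← card_product]
  refine le_trans ?_ (le_rho (N + N'))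
  refine card_le_card_of_injOn (fun p => (p.1.1 + p.2.1, p.1.2 + p.2.2)) ?_ ?_
  · rintro ⟨⟨x, x'⟩, ⟨y, y'⟩⟩ h
    rw [mem_coe, mem_product, mem_filter, mem_filter, mem_product, mem_product] at h
    obtain ⟨⟨⟨hx, hx'⟩, h1⟩, ⟨hy, hy'⟩, h2⟩ := h
    rw [mem_coe, mem_filter, mem_product]
    simp only at hx hx' h1 hy hy' h2 ⊢
    refine ⟨⟨hcomm x hx y hy, hcomm x' hx' y' hy'⟩, ?_⟩
    rw [map_add, map_add]
    omega
  · rintro ⟨⟨x, x'⟩, ⟨y, y'⟩⟩ h ⟨⟨x1, x1'⟩, ⟨y1, y1'⟩⟩ h' he
    rw [mem_coe, mem_product, mem_filter, mem_filter, mem_product, mem_product] at h h'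
    obtain ⟨⟨⟨hx, hx'⟩, _⟩, ⟨hy, hy'⟩, _⟩ := h
    obtain ⟨⟨⟨hx1, hx1'⟩, _⟩, ⟨hy1, hy1'⟩, _⟩ := h'
    simp only [Prod.mk.injEq] at he hx hx' hy hy' hx1 hx1' hy1 hy1' ⊢
    obtain ⟨ha, hb⟩ := hv x hx x1 hx1 y hy y1 hy1 he.1
    obtain ⟨hc, hd⟩ := hv x' hx' x1' hx1' y' hy' y1' hy1' he.2
    exact ⟨⟨ha, hc⟩, hb, hd⟩

section Digits

variable {ι : Type*}

/-- Digit vectors with disjoint supports: the sum determines the summands. -/
lemma add_inj_of_zero {x x' y y' : ι → ℕ}
    (h0 : ∀ i, (x i = 0 ∧ x' i = 0) ∨ (y i = 0 ∧ y' i = 0)) (h : x + y = x' + y') :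
    x = x' ∧ y = y' := by
  have h1 : ∀ i, x i + y i = x' i + y' i := fun i => congrFun h i
  constructor
  · funext i
    have := h1 i
    rcases h0 i with h2 | h2 <;> omega
  · funext i
    have := h1 i
    rcases h0 i with h2 | h2 <;> omega

lemma add_inj_of_disjoint {Y Z : Finset ι} (hYZ : Disjoint Y Z) {x x' y y' : ι → ℕ}
    (hx : ∀ i, i ∉ Y → x i = 0) (hx' : ∀ i, i ∉ Y → x' i = 0)
    (hy : ∀ i, i ∉ Z → y i = 0) (hy' : ∀ i, i ∉ Z → y' i = 0) (h : x + y = x' + y') :
    x = x' ∧ y = y' := by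
  have h1 : ∀ i, x i + y i = x' i + y' i := fun i => congrFun h i
  constructor
  · funext i
    by_cases hi : i ∈ Y
    · have h2 := hy i (Finset.disjoint_left.1 hYZ hi)
      have h3 := hy' i (Finset.disjoint_left.1 hYZ hi)
      have := h1 i
      omega
    · rw [hx i hi, hx' i hi]
  · funext i
    by_cases hi : i ∈ Y
    · rw [hy i (Finset.disjoint_left.1 hYZ hi), hy' i (Finset.disjoint_left.1 hYZ hi)]
    · have h2 := hx i hi
      have h3 := hx' i hi
      have := h1 i
      omega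

lemma card_supp_le {q : ℕ} {Y : Finset ι} {S : Finset (ι → ℕ)} (hd : ∀ x ∈ S, ∀ i, x i < q)
    (hs : ∀ x ∈ S, ∀ i, i ∉ Y → x i = 0) : S.card ≤ q ^ Y.card := by
  classical
  have h1 : S.card ≤ (Fintype.piFinset fun _ : Y => range q).card := by
    refine card_le_card_of_injOn (fun x i => x i.1) ?_ ?_
    · intro x hx
      rw [mem_coe, Fintype.mem_piFinset]
      intro i
      rw [mem_range]
      exact hd x hx _
    · intro x hx y hy h
      funext i
      by_cases hi : i ∈ Y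
      · exact congrFun h ⟨i, hi⟩
      · rw [hs x hx i hi, hs y hy i hi]
  rw [Fintype.card_piFinset, prod_const, card_range, card_univ, Fintype.card_coe] at h1
  exact h1

end Digits

/-- A function on finite sets of digit words which is supermultiplicative for sums over disjoint
sets of positions, and at least two on sets with two elements. -/
structure Gauge {ι : Type*} (R : Finset (ι → ℕ) → ℕ) : Prop where
  pos : ∀ S, S.Nonempty → 1 ≤ R S
  two : ∀ S, 1 < S.card → 2 ≤ R S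
  mul : ∀ Y Z : Finset ι, Disjoint Y Z → ∀ S T U : Finset (ι → ℕ),
    (∀ x ∈ S, ∀ i, i ∉ Y → x i = 0) → (∀ x ∈ T, ∀ i, i ∉ Z → x i = 0) →
    (∀ x ∈ S, ∀ y ∈ T, x + y ∈ U) → R S * R T ≤ R U

lemma gauge_rho {ι : Type*} (v : (ι → ℕ) →+ ℕ) : Gauge (rho v) where
  pos S hS := rho_pos hS
  two S hS := rho_two hS
  mul Y Z hYZ S T U hS hT hU := by
    refine rho_mul v (fun x hx x' hx' w hw w' hw' h => ?_) hU
    exact add_inj_of_disjoint hYZ (hS x hx) (hS x' hx') (hT w hw) (hT w' hw') h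

lemma Gauge.card_le {ι : Type*} {R : Finset (ι → ℕ) → ℕ} (hR : Gauge R) {S : Finset (ι → ℕ)}
    {q b t : ℕ} (hq : q ≤ 2 ^ b) (hS : S.card ≤ q ^ (2 * t)) : S.card ≤ R S ^ (2 * t * b) := by
  rcases Nat.lt_or_ge 1 S.card with h | h
  · calc S.card ≤ q ^ (2 * t) := hS
      _ ≤ (2 ^ b) ^ (2 * t) := Nat.pow_le_pow_left hq _
      _ = 2 ^ (2 * t * b) := by rw [← pow_mul, mul_comm]
      _ ≤ _ := Nat.pow_le_pow_left (hR.two S h) _
  · rcases S.eq_empty_or_nonempty with h0 | h0
    · rw [h0, card_empty]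
      exact Nat.zero_le _
    · exact h.trans (Nat.one_le_pow _ _ (hR.pos S h0))

variable {ι G : Type*} [DecidableEq ι]

/-- A decomposable family: `Y g` is a set of digit positions and `L g` a finite set of words with
digits below `q` on these positions (zero elsewhere); `ch g a b` says that the positions of `g` are
the disjoint union of those of `a` and `b` and that `L a + L b ⊆ L g`; every set `L g` on at least
two positions is the union of such sums. -/
structure Family (q : ℕ) (Y : G → Finset ι) (L : G → Finset (ι → ℕ)) (ch : G → G → G → Prop) :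
    Prop where
  digit : ∀ g, ∀ x ∈ L g, ∀ i, x i < q
  supp : ∀ g, ∀ x ∈ L g, ∀ i, i ∉ Y g → x i = 0
  disj : ∀ g a b, ch g a b → Disjoint (Y a) (Y b)
  union : ∀ g a b, ch g a b → Y a ∪ Y b = Y g
  sum : ∀ g a b, ch g a b → ∀ x ∈ L a, ∀ y ∈ L b, x + y ∈ L g
  dec : ∀ g, 2 ≤ (Y g).card → ∀ x ∈ L g, ∃ a b, ch g a b ∧ (Y a).Nonempty ∧ (Y b).Nonempty ∧
    ∃ y ∈ L a, ∃ z ∈ L b, x = y + z

/-- The words `u` on the positions `Y g \ Y X` with `u + L X ⊆ L g`. -/
def quo (Y : G → Finset ι) (L : G → Finset (ι → ℕ)) (g X : G) : Set (ι → ℕ) :=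
  {u | (∀ i, i ∉ Y g \ Y X → u i = 0) ∧ ∀ x ∈ L X, u + x ∈ L g}

lemma quo_digit {q : ℕ} {Y : G → Finset ι} {L : G → Finset (ι → ℕ)} {ch : G → G → G → Prop}
    (H : Family q Y L ch) {g X : G} {x : ι → ℕ} (hx : x ∈ L X) {u : ι → ℕ}
    (hu : u ∈ quo Y L g X) (i : ι) : u i < q := by
  have h1 := H.digit g _ (hu.2 x hx) i
  have h2 : (u + x) i = u i + x i := rfl
  omega

lemma quo_finite {Y : G → Finset ι} {L : G → Finset (ι → ℕ)} {g X : G} {x : ι → ℕ}
    (hx : x ∈ L X) :
    (quo Y L g X).Finite := by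
  classical
  refine Set.Finite.subset ((L g).image fun w => w - x).finite_toSet ?_
  intro u hu
  rw [mem_coe, mem_image]
  exact ⟨u + x, hu.2 x hx, add_tsub_cancel_right u x⟩

/-- The heavy path. -/
lemma heavy {q : ℕ} {Y : G → Finset ι} {L : G → Finset (ι → ℕ)} {ch : G → G → G → Prop}
    (H : Family q Y L ch) : ∀ n : ℕ, ∀ g, (Y g).card = n → ∀ τ, 2 * τ < n → 2 ≤ n → ∀ x ∈ L g,
      ∃ X a b, ch X a b ∧ Y X ⊆ Y g ∧ (Y g \ Y X).card ≤ τ ∧ (Y a).card + τ < n ∧
        (Y b).card + τ < n ∧ ∃ u ∈ quo Y L g X, ∃ y ∈ L a, ∃ z ∈ L b, x = u + (y + z) := by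
  intro n
  induction n using Nat.strong_induction_on with
  | _ n ih =>
    intro g hg τ hτ hn x hx
    obtain ⟨a, b, hab, ha, hb, y, hy, z, hz, hxyz⟩ := H.dec g (by omega) x hx
    have hcard : (Y a).card + (Y b).card = n := by
      rw [← card_union_of_disjoint (H.disj g a b hab), H.union g a b hab, hg]
    have ha1 : 1 ≤ (Y a).card := card_pos.2 ha
    have hb1 : 1 ≤ (Y b).card := card_pos.2 hb
    -- the descent into one child
    have desc : ∀ a b : G, Disjoint (Y a) (Y b) → Y a ∪ Y b = Y g →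
        (∀ x ∈ L a, ∀ y ∈ L b, x + y ∈ L g) → 1 ≤ (Y b).card → (Y b).card ≤ τ →
        (Y a).card + (Y b).card = n → ∀ y ∈ L a, ∀ z ∈ L b, x = y + z →
        ∃ X a b, ch X a b ∧ Y X ⊆ Y g ∧ (Y g \ Y X).card ≤ τ ∧ (Y a).card + τ < n ∧
        (Y b).card + τ < n ∧ ∃ u ∈ quo Y L g X, ∃ y ∈ L a, ∃ z ∈ L b, x = u + (y + z) := by
      intro a b hd hu hs hb1 hbτ hcard y hy z hz hxyz
      obtain ⟨X, a', b', h1, h2, h3, h4, h5, u, hu', y', hy', z', hz', h6⟩ :=
        ih (Y a).card (by omega) a rfl (τ - (Y b).card) (by omega) (by omega) y hy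
      have hag : Y a ⊆ Y g := hu ▸ subset_union_left
      have hXg : Y X ⊆ Y g := h2.trans hag
      refine ⟨X, a', b', h1, hXg, ?_, by omega, by omega, u + z, ⟨?_, ?_⟩, y', hy', z', hz', ?_⟩
      · have h7 : Y g \ Y X ⊆ (Y a \ Y X) ∪ Y b := by
          intro i hi
          rw [mem_sdiff, ← hu, mem_union] at hi
          rw [mem_union, mem_sdiff]
          rcases hi.1 with h | h
          · exact Or.inl ⟨h, hi.2⟩
          · exact Or.inr h
        have h8 := (card_le_card h7).trans (card_union_le _ _)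
        omega
      · intro i hi
        have h7 : u i = 0 := by
          refine hu'.1 i fun h => hi ?_
          rw [mem_sdiff] at h ⊢
          exact ⟨hag h.1, h.2⟩
        have h8 : z i = 0 := by
          refine H.supp b z hz i fun h => hi ?_
          rw [mem_sdiff]
          exact ⟨hu ▸ mem_union_right _ h, fun h' => Finset.disjoint_left.1 hd (h2 h') h⟩
        show u i + z i = 0
        rw [h7, h8]
      · intro w hw
        have h7 : u + z + w = (u + w) + z := by abel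
        rw [h7]
        exact hs _ (hu'.2 w hw) z hz
      · rw [hxyz, h6]
        abel
    rcases Nat.lt_or_ge τ (Y b).card with h1 | h1
    · rcases Nat.lt_or_ge τ (Y a).card with h2 | h2
      · refine ⟨g, a, b, hab, subset_rfl, ?_, by omega, by omega, 0, ⟨fun _ _ => rfl, ?_⟩, y, hy,
          z, hz, ?_⟩
        · rw [sdiff_self, bot_eq_empty, card_empty]
          exact Nat.zero_le _
        · intro w hw
          rw [zero_add]
          exact hw
        · rw [zero_add]
          exact hxyz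
      · refine desc b a (H.disj g a b hab).symm (by rw [union_comm]; exact H.union g a b hab)
          (fun w hw w' hw' => ?_) ha1 h2 (by omega) z hz y hy (by rw [hxyz]; abel)
        rw [add_comm]
        exact H.sum g a b hab w' hw' w hw
    · exact desc a b (H.disj g a b hab) (H.union g a b hab) (H.sum g a b hab) hb1 h1 hcard y hy
        z hz hxyz

/-- The bound for one triple of the heavy path. -/
lemma triple_le {q b t : ℕ} {Y : G → Finset ι} {L : G → Finset (ι → ℕ)} {ch : G → G → G → Prop}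
    (H : Family q Y L ch) {R : Finset (ι → ℕ) → ℕ} (hR : Gauge R) (hq1 : 1 ≤ q)
    (hq : q ≤ 2 ^ b) {g X g₁ g₂ : G}
    (hch : ch X g₁ g₂) (ha : (Y g \ Y X).card ≤ t) (Q : Finset (ι → ℕ))
    (hQ : ∀ u ∈ Q, u ∈ quo Y L g X) {u₁ u₂ : ℝ} (hu1 : 0 ≤ u₁) (hu2 : 0 ≤ u₂)
    (h1 : ((L g₁).card : ℝ) ≤ u₁ * (R (L g₁) : ℝ) ^ (2 * t * b))
    (h2 : ((L g₂).card : ℝ) ≤ u₂ * (R (L g₂) : ℝ) ^ (2 * t * b)) :
    ((Q.card : ℝ) * ((L g₁).card * (L g₂).card)) ≤
      u₁ * u₂ * (R (L g) : ℝ) ^ (2 * t * b) := by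
  have hR0 : 0 ≤ u₁ * u₂ * (R (L g) : ℝ) ^ (2 * t * b) := by positivity
  rcases (L g₁).eq_empty_or_nonempty with h0 | ⟨y, hy⟩
  · rw [h0, card_empty, Nat.cast_zero, zero_mul, mul_zero]
    exact hR0
  rcases (L g₂).eq_empty_or_nonempty with h0 | ⟨z, hz⟩
  · rw [h0, card_empty, Nat.cast_zero, mul_zero, mul_zero]
    exact hR0
  have hx : y + z ∈ L X := H.sum X g₁ g₂ hch y hy z hz
  have hdXg : Disjoint (Y g \ Y X) (Y X) := sdiff_disjoint
  have hQd : ∀ u ∈ Q, ∀ i, u i < q := fun u hu i => quo_digit H hx (hQ u hu) i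
  have hQs : ∀ u ∈ Q, ∀ i, i ∉ Y g \ Y X → u i = 0 := fun u hu => (hQ u hu).1
  have hQc : Q.card ≤ R Q ^ (2 * t * b) := by
    refine hR.card_le hq ((card_supp_le hQd hQs).trans (Nat.pow_le_pow_right hq1 (by omega)))
  have hr1 : R (L g₁) * R (L g₂) ≤ R (L X) :=
    hR.mul _ _ (H.disj X g₁ g₂ hch) _ _ _ (H.supp _) (H.supp _) (H.sum X g₁ g₂ hch)
  have hr2 : R Q * R (L X) ≤ R (L g) :=
    hR.mul _ _ hdXg _ _ _ hQs (H.supp _) (fun u hu => (hQ u hu).2)
  have hr3 : R Q * (R (L g₁) * R (L g₂)) ≤ R (L g) :=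
    (Nat.mul_le_mul_left _ hr1).trans hr2
  have hQc' : (Q.card : ℝ) ≤ (R Q : ℝ) ^ (2 * t * b) := by exact_mod_cast hQc
  have hr3' : (R Q : ℝ) * ((R (L g₁) : ℝ) * (R (L g₂) : ℝ)) ≤ (R (L g) : ℝ) := by
    exact_mod_cast hr3
  calc ((Q.card : ℝ) * ((L g₁).card * (L g₂).card))
      ≤ (R Q : ℝ) ^ (2 * t * b) * ((u₁ * (R (L g₁) : ℝ) ^ (2 * t * b)) *
        (u₂ * (R (L g₂) : ℝ) ^ (2 * t * b))) := by
        refine mul_le_mul hQc' (mul_le_mul h1 h2 (by positivity) (by positivity)) (by positivity)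
          (by positivity)
    _ = u₁ * u₂ * ((R Q : ℝ) * ((R (L g₁) : ℝ) * (R (L g₂) : ℝ))) ^ (2 * t * b) := by
        rw [mul_pow, mul_pow]
        ring
    _ ≤ _ := by
        refine mul_le_mul_of_nonneg_left (pow_le_pow_left₀ (by positivity) hr3' _) (by positivity)

/-- **The main inequality.** A set of a decomposable family with few sums has few elements. -/
theorem main_ineq {q b t M : ℕ} {Y : G → Finset ι} {L : G → Finset (ι → ℕ)}
    {ch : G → G → G → Prop} (H : Family q Y L ch) {R : Finset (ι → ℕ) → ℕ} (hR : Gauge R)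
    (hq1 : 1 ≤ q) (hq : q ≤ 2 ^ b) (hM1 : 1 ≤ M)
    (hM : ∀ g a c, a ≤ t → ∃ T : Finset (G × G × G), T.card ≤ M ∧ ∀ X g₁ g₂, ch X g₁ g₂ →
      Y X ⊆ Y g → (Y g \ Y X).card = a → (Y g₁).card = c → (X, g₁, g₂) ∈ T)
    {z : ℝ} (hz0 : 0 < z) (hz1 : z ≤ 1)
    (hE : 4 * (M : ℝ) * (t + 1) * (2 * t + 1) * z ^ t ≤ 1) (g : G) :
    ((L g).card : ℝ) * z ^ (Y g).card ≤ (R (L g) : ℝ) ^ (2 * t * b) := by
  classical
  set σ : ℕ := 2 * t * b with hσ
  set u : ℕ → ℝ := fun n =>
    sSup {r : ℝ | ∃ g, (Y g).card = n ∧ r = ((L g).card : ℝ) / (R (L g) : ℝ) ^ σ} with hu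
  have hbd : ∀ n, BddAbove
      {r : ℝ | ∃ g, (Y g).card = n ∧ r = ((L g).card : ℝ) / (R (L g) : ℝ) ^ σ} := by
    intro n
    refine ⟨(q : ℝ) ^ n, ?_⟩
    rintro r ⟨g, hg, rfl⟩
    rcases (L g).eq_empty_or_nonempty with h0 | h0
    · rw [h0, card_empty, Nat.cast_zero, zero_div]
      positivity
    · have h1 : (1:ℝ) ≤ (R (L g) : ℝ) ^ σ := one_le_pow₀ (by exact_mod_cast hR.pos _ h0)
      have h2 : ((L g).card : ℝ) ≤ (q : ℝ) ^ n := by
        rw [← hg]
        exact_mod_cast card_supp_le (H.digit g) (H.supp g)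
      exact (div_le_self (by positivity) h1).trans h2
  have h0 : ∀ n, 0 ≤ u n := by
    intro n
    refine Real.sSup_nonneg ?_
    rintro r ⟨g, _, rfl⟩
    positivity
  have hle : ∀ g, ((L g).card : ℝ) ≤ u (Y g).card * (R (L g) : ℝ) ^ σ := by
    intro g
    rcases (L g).eq_empty_or_nonempty with h1 | h1
    · rw [h1, card_empty, Nat.cast_zero]
      have := h0 (Y g).card
      positivity
    · have h2 : (0:ℝ) < (R (L g) : ℝ) ^ σ := by
        have : (0:ℝ) < R (L g) := by exact_mod_cast hR.pos _ h1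
        positivity
      rw [← div_le_iff₀ h2]
      exact le_csSup (hbd _) ⟨g, rfl, rfl⟩
  have hb : ∀ n ≤ 2 * t, u n ≤ 1 := by
    intro n hn
    refine Real.sSup_le ?_ (by norm_num)
    rintro r ⟨g, hg, rfl⟩
    refine div_le_one_of_le₀ ?_ (by positivity)
    have h1 : (L g).card ≤ q ^ (2 * t) :=
      (card_supp_le (H.digit g) (H.supp g)).trans (Nat.pow_le_pow_right hq1 (by omega))
    exact_mod_cast hR.card_le hq h1
  have hr : ∀ n, 2 * t < n → u n ≤ M * ∑ a ∈ range (t + 1), ∑ c ∈ range n, ∑ d ∈ range n,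
      if a + c + d = n ∧ c + t < n ∧ d + t < n then u c * u d else 0 := by
    intro n hn
    have hnn : ∀ a c d : ℕ,
        0 ≤ (if a + c + d = n ∧ c + t < n ∧ d + t < n then u c * u d else 0) := by
      intro a c d
      split_ifs
      · exact mul_nonneg (h0 c) (h0 d)
      · exact le_rfl
    have hS0 : ∀ a c : ℕ, 0 ≤ ∑ d ∈ range n,
        (if a + c + d = n ∧ c + t < n ∧ d + t < n then u c * u d else 0) :=
      fun a c => sum_nonneg fun d _ => hnn a c d
    refine Real.sSup_le ?_ ?_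
    swap
    · exact mul_nonneg (by positivity) (sum_nonneg fun a _ => sum_nonneg fun c _ => hS0 a c)
    rintro r ⟨g, hg, rfl⟩
    set R' : ℝ := (R (L g) : ℝ) ^ σ with hR'
    have hR0 : 0 ≤ R' := by positivity
    rcases n.eq_zero_or_pos with hn0 | hn0
    · omega
    by_cases hn2 : 2 ≤ n
    swap
    · -- `n = 1`, `t = 0`
      have ht0 : t = 0 := by omega
      exfalso
      rw [ht0] at hE
      have h1 : (1:ℝ) ≤ M := by exact_mod_cast hM1
      norm_num at hE
      linarith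
    have hT : ∀ a c : ℕ, ∃ T : Finset (G × G × G), a ≤ t → T.card ≤ M ∧ ∀ X g₁ g₂, ch X g₁ g₂ →
        Y X ⊆ Y g → (Y g \ Y X).card = a → (Y g₁).card = c → (X, g₁, g₂) ∈ T := by
      intro a c
      by_cases hat : a ≤ t
      · obtain ⟨T, hT⟩ := hM g a c hat
        exact ⟨T, fun _ => hT⟩
      · exact ⟨∅, fun h => absurd h hat⟩
    choose T hT using hT
    set T' : ℕ → ℕ → Finset (G × G × G) := fun a c => (T a c).filter fun p =>
      ch p.1 p.2.1 p.2.2 ∧ Y p.1 ⊆ Y g ∧ (Y g \ Y p.1).card = a ∧ (Y p.2.1).card = c ∧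
        c + t < n ∧ (Y p.2.2).card + t < n with hT'
    set Q : G × G × G → Finset (ι → ℕ) := fun p =>
      if h : (quo Y L g p.1).Finite then h.toFinset else ∅ with hQ
    have hQmem : ∀ p, ∀ w ∈ Q p, w ∈ quo Y L g p.1 := by
      intro p w hw
      simp only [hQ] at hw
      split_ifs at hw with h
      · rwa [Set.Finite.mem_toFinset] at hw
      · simp at hw
    set W : G × G × G → Finset (ι → ℕ) := fun p =>
      (Q p ×ˢ (L p.2.1 ×ˢ L p.2.2)).image fun w => w.1 + (w.2.1 + w.2.2) with hW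
    have hcov : L g ⊆ (range (t + 1) ×ˢ range n).biUnion fun e => (T' e.1 e.2).biUnion W := by
      intro x hx
      obtain ⟨X, g₁, g₂, hch, hXg, ha, h1, h2, w, hw, y, hy, z, hz, hxw⟩ :=
        heavy H n g hg t hn hn2 x hx
      rw [mem_biUnion]
      refine ⟨((Y g \ Y X).card, (Y g₁).card), ?_, ?_⟩
      · rw [mem_product, mem_range, mem_range]
        exact ⟨by simp only; omega, by simp only; omega⟩
      · rw [mem_biUnion]
        refine ⟨(X, g₁, g₂), ?_, ?_⟩
        · simp only [hT', mem_filter]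
          exact ⟨(hT _ _ ha).2 X g₁ g₂ hch hXg rfl rfl, hch, hXg, trivial, trivial, h1, h2⟩
        · simp only [hW, mem_image, mem_product, Prod.exists]
          refine ⟨w, y, z, ⟨?_, hy, hz⟩, hxw.symm⟩
          simp only [hQ]
          have hfin : (quo Y L g X).Finite := quo_finite (H.sum X g₁ g₂ hch y hy z hz)
          rw [dif_pos hfin, Set.Finite.mem_toFinset]
          exact hw
    have hcardW : ∀ p, ((W p).card : ℝ) ≤
        (Q p).card * ((L p.2.1).card * (L p.2.2).card) := by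
      intro p
      have : (W p).card ≤ (Q p).card * ((L p.2.1).card * (L p.2.2).card) := by
        simp only [hW]
        refine card_image_le.trans ?_
        rw [card_product, card_product]
      exact_mod_cast this
    have hpt : ∀ a ∈ range (t + 1), ∀ c, ∀ p ∈ T' a c, ((W p).card : ℝ) ≤
        (∑ d ∈ range n, if a + c + d = n ∧ c + t < n ∧ d + t < n then u c * u d else 0) * R' := by
      intro a ha c p hp
      rw [mem_range] at ha
      simp only [hT', mem_filter] at hp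
      obtain ⟨_, hch, hXg, h1, h2, h3, h4⟩ := hp
      have hcard : (Y p.2.1).card + (Y p.2.2).card = (Y p.1).card := by
        rw [← card_union_of_disjoint (H.disj _ _ _ hch), H.union _ _ _ hch]
      have hcard2 : (Y g \ Y p.1).card + (Y p.1).card = (Y g).card :=
        card_sdiff_add_card_eq_card hXg
      have h5 := triple_le H hR hq1 hq hch (by omega) (Q p) (hQmem p) (h0 (Y p.2.1).card)
        (h0 (Y p.2.2).card) (hle p.2.1) (hle p.2.2)
      refine (hcardW p).trans (h5.trans ?_)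
      refine mul_le_mul_of_nonneg_right ?_ hR0
      have h6 : u (Y p.2.1).card * u (Y p.2.2).card =
          (if a + c + (Y p.2.2).card = n ∧ c + t < n ∧ (Y p.2.2).card + t < n then
            u c * u (Y p.2.2).card else 0) := by
        rw [if_pos ⟨by omega, h3, h4⟩, h2]
      rw [h6]
      exact single_le_sum
        (f := fun d => if a + c + d = n ∧ c + t < n ∧ d + t < n then u c * u d else 0)
        (fun d _ => hnn a c d) (mem_range.2 (by omega))
    have htot : ((L g).card : ℝ) ≤ (M * ∑ a ∈ range (t + 1), ∑ c ∈ range n, ∑ d ∈ range n,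
        if a + c + d = n ∧ c + t < n ∧ d + t < n then u c * u d else 0) * R' := by
      have h1 : (L g).card ≤ ∑ e ∈ range (t + 1) ×ˢ range n, ∑ p ∈ T' e.1 e.2, (W p).card := by
        refine (card_le_card hcov).trans (card_biUnion_le.trans ?_)
        exact sum_le_sum fun e _ => card_biUnion_le
      calc ((L g).card : ℝ) ≤
          ∑ e ∈ range (t + 1) ×ˢ range n, ∑ p ∈ T' e.1 e.2, ((W p).card : ℝ) := by
            exact_mod_cast h1
        _ ≤ ∑ e ∈ range (t + 1) ×ˢ range n, (M : ℝ) * ((∑ d ∈ range n,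
            if e.1 + e.2 + d = n ∧ e.2 + t < n ∧ d + t < n then u e.2 * u d else 0) * R') := by
            refine sum_le_sum fun e he => ?_
            rw [mem_product] at he
            have h2 : ((T' e.1 e.2).card : ℝ) ≤ M := by
              have h3 : e.1 ≤ t := by
                have := mem_range.1 he.1
                omega
              exact_mod_cast (card_filter_le _ _).trans (hT e.1 e.2 h3).1
            calc ∑ p ∈ T' e.1 e.2, ((W p).card : ℝ) ≤ ∑ p ∈ T' e.1 e.2, ((∑ d ∈ range n,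
                if e.1 + e.2 + d = n ∧ e.2 + t < n ∧ d + t < n then u e.2 * u d else 0) * R') :=
                  sum_le_sum fun p hp => hpt e.1 he.1 e.2 p hp
              _ = ((T' e.1 e.2).card : ℝ) * ((∑ d ∈ range n,
                if e.1 + e.2 + d = n ∧ e.2 + t < n ∧ d + t < n then u e.2 * u d else 0) * R') := by
                  rw [sum_const, nsmul_eq_mul]
              _ ≤ _ := mul_le_mul_of_nonneg_right h2 (mul_nonneg (hS0 _ _) hR0)
        _ = _ := by
            rw [sum_product, mul_assoc, sum_mul, mul_sum]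
            refine sum_congr rfl fun a _ => ?_
            rw [sum_mul, mul_sum]
    rcases (L g).eq_empty_or_nonempty with h1 | h1
    · rw [h1, card_empty, Nat.cast_zero, zero_div]
      exact mul_nonneg (by positivity) (sum_nonneg fun a _ => sum_nonneg fun c _ => hS0 a c)
    · have h2 : (0:ℝ) < R' := by
        have : (0:ℝ) < R (L g) := by exact_mod_cast hR.pos _ h1
        positivity
      rw [div_le_iff₀ h2]
      exact htot
  have hgr := growth t M z u h0 hb (by exact_mod_cast hM1) hz0 hz1 hE hr (Y g).card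
  have hR0 : (0:ℝ) ≤ (R (L g) : ℝ) ^ σ := by positivity
  calc ((L g).card : ℝ) * z ^ (Y g).card
      ≤ (u (Y g).card * (R (L g) : ℝ) ^ σ) * z ^ (Y g).card :=
        mul_le_mul_of_nonneg_right (hle g) (by positivity)
    _ = (u (Y g).card * z ^ (Y g).card) * (R (L g) : ℝ) ^ σ := by ring
    _ ≤ 1 * (R (L g) : ℝ) ^ σ := mul_le_mul_of_nonneg_right hgr hR0
    _ = _ := one_mul _

end Pool.Agent.Helper79.TY
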