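import Mathlib

/-!
# A growth lemma for convolution recursions, and the choice of the parameter
-/

namespace Pool.Agent.Helper79.TY

open Finset

/-- If `u n ≤ M * ∑ u c * u d` over `a + c + d = n` with `a ≤ t` and `c, d < n - t`, then `u` grows
at most like `z ^ (- n)`. -/
theorem growth (t : ℕ) (M z : ℝ) (u : ℕ → ℝ) (h0 : ∀ n, 0 ≤ u n) (hb : ∀ n ≤ 2 * t, u n ≤ 1)
    (hM : 1 ≤ M) (hz0 : 0 < z) (hz1 : z ≤ 1)
    (hE : 4 * M * (t + 1) * (2 * t + 1) * z ^ t ≤ 1)
    (hr : ∀ n, 2 * t < n → u n ≤ M * ∑ a ∈ range (t + 1), ∑ c ∈ range n, ∑ d ∈ range n,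
      if a + c + d = n ∧ c + t < n ∧ d + t < n then u c * u d else 0) :
    ∀ n, u n * z ^ n ≤ 1 := by
  classical
  set k : ℕ → ℝ := fun c => if c ≤ 2 * t then z ^ t else u c * z ^ c with hk
  have hk0 : ∀ c, 0 ≤ k c := by
    intro c
    simp only [hk]
    split_ifs
    · positivity
    · exact mul_nonneg (h0 c) (by positivity)
  set y : ℝ := (2 * t + 1) * z ^ t with hy
  have hy0 : 0 ≤ y := by positivity
  have hyE : 4 * (M * (t + 1)) * y ^ 2 ≤ y := by
    have : 4 * (M * (t + 1)) * y ^ 2 = (4 * M * (t + 1) * (2 * t + 1) * z ^ t) * y := by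
      rw [hy]; ring
    rw [this]
    calc _ ≤ 1 * y := mul_le_mul_of_nonneg_right hE hy0
      _ = y := one_mul y
  have hpt : ∀ a c d n : ℕ, a ≤ t → a + c + d = n → 2 * t < n → c + t < n → d + t < n →
      u c * u d * z ^ n ≤ k c * k d := by
    intro a c d n ha hn h2 hc hd
    have hzn : z ^ n = z ^ a * z ^ c * z ^ d := by rw [← hn, pow_add, pow_add]
    have hza : z ^ a ≤ 1 := pow_le_one₀ hz0.le hz1
    have hc0 : 0 ≤ u c * z ^ c := mul_nonneg (h0 c) (by positivity)
    have hd0 : 0 ≤ u d * z ^ d := mul_nonneg (h0 d) (by positivity)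
    simp only [hk]
    by_cases h3 : c ≤ 2 * t
    · by_cases h4 : d ≤ 2 * t
      · rw [if_pos h3, if_pos h4]
        have h5 : z ^ n ≤ z ^ (t + t) := pow_le_pow_of_le_one hz0.le hz1 (by omega)
        rw [pow_add] at h5
        have h6 : u c * u d ≤ 1 := by
          calc u c * u d ≤ 1 * 1 := mul_le_mul (hb c h3) (hb d h4) (h0 d) (by norm_num)
            _ = 1 := by norm_num
        calc u c * u d * z ^ n ≤ 1 * z ^ n := mul_le_mul_of_nonneg_right h6 (by positivity)
          _ = z ^ n := one_mul _
          _ ≤ _ := h5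
      · rw [if_pos h3, if_neg h4]
        have h5 : z ^ (a + c) ≤ z ^ t := pow_le_pow_of_le_one hz0.le hz1 (by omega)
        have h6 : u c * z ^ (a + c) ≤ 1 * z ^ t :=
          mul_le_mul (hb c h3) h5 (by positivity) (by norm_num)
        calc u c * u d * z ^ n = (u c * z ^ (a + c)) * (u d * z ^ d) := by
              rw [hzn, pow_add]; ring
          _ ≤ (1 * z ^ t) * (u d * z ^ d) := mul_le_mul_of_nonneg_right h6 hd0
          _ = _ := by ring
    · by_cases h4 : d ≤ 2 * t
      · rw [if_neg h3, if_pos h4]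
        have h5 : z ^ (a + d) ≤ z ^ t := pow_le_pow_of_le_one hz0.le hz1 (by omega)
        have h6 : u d * z ^ (a + d) ≤ 1 * z ^ t :=
          mul_le_mul (hb d h4) h5 (by positivity) (by norm_num)
        calc u c * u d * z ^ n = (u d * z ^ (a + d)) * (u c * z ^ c) := by
              rw [hzn, pow_add]; ring
          _ ≤ (1 * z ^ t) * (u c * z ^ c) := mul_le_mul_of_nonneg_right h6 hc0
          _ = _ := by ring
      · rw [if_neg h3, if_neg h4]
        calc u c * u d * z ^ n = z ^ a * ((u c * z ^ c) * (u d * z ^ d)) := by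
              rw [hzn]; ring
          _ ≤ 1 * ((u c * z ^ c) * (u d * z ^ d)) :=
              mul_le_mul_of_nonneg_right hza (mul_nonneg hc0 hd0)
          _ = _ := one_mul _
  -- the sum over `n`
  have hstep : ∀ N, ∑ n ∈ (range (N + 1)).filter (fun n => 2 * t < n), u n * z ^ n ≤
      M * (t + 1) * (∑ c ∈ range N, k c) ^ 2 := by
    intro N
    have h1 : ∀ n ∈ (range (N + 1)).filter (fun n => 2 * t < n), u n * z ^ n ≤
        M * ∑ a ∈ range (t + 1), ∑ c ∈ range N, ∑ d ∈ range N,
          if a + c + d = n then k c * k d else 0 := by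
      intro n hn
      rw [mem_filter, mem_range] at hn
      have hsub : range n ⊆ range N := range_subset_range.2 (by omega)
      calc u n * z ^ n ≤ (M * ∑ a ∈ range (t + 1), ∑ c ∈ range n, ∑ d ∈ range n,
            if a + c + d = n ∧ c + t < n ∧ d + t < n then u c * u d else 0) * z ^ n :=
            mul_le_mul_of_nonneg_right (hr n hn.2) (by positivity)
        _ = M * ∑ a ∈ range (t + 1), ∑ c ∈ range n, ∑ d ∈ range n,
            (if a + c + d = n ∧ c + t < n ∧ d + t < n then u c * u d else 0) * z ^ n := by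
            rw [mul_assoc, sum_mul]
            simp_rw [sum_mul]
        _ ≤ M * ∑ a ∈ range (t + 1), ∑ c ∈ range n, ∑ d ∈ range n,
            (if a + c + d = n then k c * k d else 0) := by
            refine mul_le_mul_of_nonneg_left ?_ (by linarith)
            refine sum_le_sum fun a ha => sum_le_sum fun c _ => sum_le_sum fun d _ => ?_
            rw [mem_range] at ha
            by_cases h : a + c + d = n ∧ c + t < n ∧ d + t < n
            · rw [if_pos h, if_pos h.1]
              exact hpt a c d n (by omega) h.1 hn.2 h.2.1 h.2.2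
            · rw [if_neg h, zero_mul]
              split_ifs
              · exact mul_nonneg (hk0 c) (hk0 d)
              · exact le_rfl
        _ ≤ _ := by
            refine mul_le_mul_of_nonneg_left ?_ (by linarith)
            refine sum_le_sum fun a _ => ?_
            have hnn : ∀ c d : ℕ, 0 ≤ (if a + c + d = n then k c * k d else 0) := by
              intro c d
              split_ifs
              · exact mul_nonneg (hk0 c) (hk0 d)
              · exact le_rfl
            calc ∑ c ∈ range n, ∑ d ∈ range n, (if a + c + d = n then k c * k d else 0) ≤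
                ∑ c ∈ range n, ∑ d ∈ range N, (if a + c + d = n then k c * k d else 0) :=
                  sum_le_sum fun c _ => sum_le_sum_of_subset_of_nonneg hsub fun d _ _ => hnn c d
              _ ≤ _ := sum_le_sum_of_subset_of_nonneg hsub fun c _ _ =>
                  sum_nonneg fun d _ => hnn c d
    calc _ ≤ ∑ n ∈ (range (N + 1)).filter (fun n => 2 * t < n),
          M * ∑ a ∈ range (t + 1), ∑ c ∈ range N, ∑ d ∈ range N,
          (if a + c + d = n then k c * k d else 0) := sum_le_sum h1
      _ = M * ∑ a ∈ range (t + 1), ∑ c ∈ range N, ∑ d ∈ range N,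
          ∑ n ∈ (range (N + 1)).filter (fun n => 2 * t < n),
          (if a + c + d = n then k c * k d else 0) := by
          rw [← mul_sum, sum_comm]
          congr 1
          refine sum_congr rfl fun a _ => ?_
          rw [sum_comm]
          refine sum_congr rfl fun c _ => ?_
          rw [sum_comm]
      _ ≤ M * ∑ a ∈ range (t + 1), ∑ c ∈ range N, ∑ d ∈ range N, k c * k d := by
          refine mul_le_mul_of_nonneg_left ?_ (by linarith)
          refine sum_le_sum fun a _ => sum_le_sum fun c _ => sum_le_sum fun d _ => ?_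
          rw [sum_ite_eq]
          split_ifs
          · exact le_rfl
          · exact mul_nonneg (hk0 c) (hk0 d)
      _ = _ := by
          rw [sum_const, card_range, nsmul_eq_mul, pow_two, sum_mul_sum]
          push_cast
          ring
  have hsmall : ∀ N, ∑ c ∈ (range N).filter (fun n => ¬ 2 * t < n), k c ≤ y := by
    intro N
    calc ∑ c ∈ (range N).filter (fun n => ¬ 2 * t < n), k c
        ≤ ∑ c ∈ range (2 * t + 1), k c := by
          refine sum_le_sum_of_subset_of_nonneg ?_ fun c _ _ => hk0 c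
          intro c hc
          rw [mem_filter, mem_range] at hc
          rw [mem_range]
          omega
      _ = ∑ c ∈ range (2 * t + 1), z ^ t := by
          refine sum_congr rfl fun c hc => ?_
          rw [mem_range] at hc
          simp only [hk]
          rw [if_pos (by omega)]
      _ = y := by
          rw [sum_const, card_range, nsmul_eq_mul, hy]
          push_cast
          ring
  have hK : ∀ N, ∑ c ∈ range N, k c ≤ 2 * y := by
    intro N
    induction N with
    | zero => simpa using hy0
    | succ N ih =>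
      have hK0 : 0 ≤ ∑ c ∈ range N, k c := sum_nonneg fun c _ => hk0 c
      rw [← sum_filter_add_sum_filter_not (range (N + 1)) (fun n => 2 * t < n) k]
      have h1 : ∑ c ∈ (range (N + 1)).filter (fun n => 2 * t < n), k c ≤ y := by
        have h2 : ∑ c ∈ (range (N + 1)).filter (fun n => 2 * t < n), k c =
            ∑ n ∈ (range (N + 1)).filter (fun n => 2 * t < n), u n * z ^ n := by
          refine sum_congr rfl fun c hc => ?_
          rw [mem_filter] at hc
          simp only [hk]
          rw [if_neg (by omega)]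
        rw [h2]
        refine (hstep N).trans ?_
        have h3 : (∑ c ∈ range N, k c) ^ 2 ≤ (2 * y) ^ 2 := pow_le_pow_left₀ hK0 ih 2
        calc M * (t + 1) * (∑ c ∈ range N, k c) ^ 2 ≤ M * (t + 1) * (2 * y) ^ 2 :=
              mul_le_mul_of_nonneg_left h3 (by positivity)
          _ = 4 * (M * (t + 1)) * y ^ 2 := by ring
          _ ≤ y := hyE
      linarith [hsmall (N + 1)]
  have hy1 : y ≤ 1 := by
    have h1 : y ≤ 4 * M * (t + 1) * (2 * t + 1) * z ^ t := by
      have h2 : (1:ℝ) ≤ 4 * M * (t + 1) := by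
        have : (0:ℝ) ≤ t := Nat.cast_nonneg t
        nlinarith
      calc y = 1 * y := (one_mul y).symm
        _ ≤ 4 * M * (t + 1) * y := mul_le_mul_of_nonneg_right h2 hy0
        _ = _ := by rw [hy]; ring
    exact h1.trans hE
  intro n
  rcases Nat.lt_or_ge (2 * t) n with hn | hn
  · have h1 : u n * z ^ n ≤
        ∑ m ∈ (range (n + 1)).filter (fun m => 2 * t < m), u m * z ^ m := by
      refine single_le_sum (f := fun m => u m * z ^ m) (fun m _ => ?_) ?_
      · exact mul_nonneg (h0 m) (by positivity)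
      · rw [mem_filter, mem_range]
        exact ⟨by omega, hn⟩
    have hK0 : 0 ≤ ∑ c ∈ range n, k c := sum_nonneg fun c _ => hk0 c
    have h3 : (∑ c ∈ range n, k c) ^ 2 ≤ (2 * y) ^ 2 := pow_le_pow_left₀ hK0 (hK n) 2
    calc u n * z ^ n ≤ _ := h1
      _ ≤ M * (t + 1) * (∑ c ∈ range n, k c) ^ 2 := hstep n
      _ ≤ M * (t + 1) * (2 * y) ^ 2 := mul_le_mul_of_nonneg_left h3 (by positivity)
      _ = 4 * (M * (t + 1)) * y ^ 2 := by ring
      _ ≤ y := hyE
      _ ≤ 1 := hy1
  · calc u n * z ^ n ≤ 1 * 1 :=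
        mul_le_mul (hb n hn) (pow_le_one₀ hz0.le hz1) (by positivity) (by norm_num)
      _ = 1 := by norm_num

/-- The choice of `t`. -/
theorem param (ε : ℝ) (hε : 0 < ε) : ∃ K : ℝ, 0 < K ∧ ∀ W : ℝ, 2 ≤ W → ∃ t : ℕ, 1 ≤ t ∧
    (t : ℝ) ≤ K * Real.log W ∧ 16 * W * ((t:ℝ) + 1) ^ 3 ≤ Real.exp (ε * t) := by
  set C : ℝ := 16 * (1 + 6 / ε) ^ 3 with hC
  have hC0 : 1 ≤ C := by
    have h1 : (1:ℝ) ≤ 1 + 6 / ε := by
      have : 0 < 6 / ε := by positivity
      linarith
    have h2 : (1:ℝ) ≤ (1 + 6 / ε) ^ 3 := one_le_pow₀ h1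
    rw [hC]
    linarith
  have hl2 : 0 < Real.log 2 := Real.log_pos (by norm_num)
  have hlC : 0 ≤ Real.log C := Real.log_nonneg hC0
  refine ⟨2 / ε * (1 + Real.log C / Real.log 2) + 1 / Real.log 2, by positivity, ?_⟩
  intro W hW
  have hlW : Real.log 2 ≤ Real.log W := Real.log_le_log (by norm_num) hW
  have hlW0 : 0 < Real.log W := hl2.trans_le hlW
  have hlCW : Real.log C ≤ Real.log C / Real.log 2 * Real.log W := by
    rw [div_mul_eq_mul_div, le_div_iff₀ hl2]
    exact mul_le_mul_of_nonneg_left hlW hlC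
  set T : ℝ := 2 / ε * (Real.log W + Real.log C) with hT
  have hT0 : 0 < T := by positivity
  refine ⟨⌈T⌉₊, Nat.ceil_pos.2 hT0, ?_, ?_⟩
  · have h1 := (Nat.ceil_lt_add_one hT0.le).le
    have h2 : (1:ℝ) ≤ 1 / Real.log 2 * Real.log W := by
      rw [div_mul_eq_mul_div, le_div_iff₀ hl2]
      linarith
    have h3 : T ≤ 2 / ε * (1 + Real.log C / Real.log 2) * Real.log W := by
      rw [hT, mul_assoc]
      refine mul_le_mul_of_nonneg_left ?_ (by positivity)
      rw [add_mul, one_mul]
      linarith
    calc ((⌈T⌉₊ : ℕ) : ℝ) ≤ T + 1 := h1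
      _ ≤ _ := by rw [add_mul]; linarith
  · set t : ℕ := ⌈T⌉₊ with ht
    have hTt : T ≤ t := Nat.le_ceil T
    have ht0 : (0:ℝ) ≤ t := Nat.cast_nonneg t
    have h1 : ((t:ℝ) + 1) ≤ (1 + 6 / ε) * (1 + ε * t / 6) := by
      have h2 : (1 + 6 / ε) * (1 + ε * t / 6) = 1 + t + (6 / ε + ε * t / 6) := by
        field_simp
        ring
      rw [h2]
      have : 0 ≤ 6 / ε + ε * t / 6 := by positivity
      linarith
    have h3 : 1 + ε * t / 6 ≤ Real.exp (ε * t / 6) := by
      have := Real.add_one_le_exp (ε * t / 6)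
      linarith
    have h4 : 16 * ((t:ℝ) + 1) ^ 3 ≤ C * Real.exp (ε * t / 2) := by
      have h5 : ((t:ℝ) + 1) ^ 3 ≤ ((1 + 6 / ε) * Real.exp (ε * t / 6)) ^ 3 := by
        refine pow_le_pow_left₀ (by positivity) (h1.trans ?_) 3
        exact mul_le_mul_of_nonneg_left h3 (by positivity)
      have h6 : Real.exp (ε * t / 6) ^ 3 = Real.exp (ε * t / 2) := by
        rw [← Real.exp_nat_mul]
        congr 1
        push_cast
        ring
      rw [mul_pow, h6] at h5
      rw [hC]
      linarith
    have h7 : W * C ≤ Real.exp (ε * t / 2) := by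
      rw [← Real.log_le_iff_le_exp (by positivity),
        Real.log_mul (by positivity) (by positivity)]
      have h8 : ε / 2 * T ≤ ε / 2 * t := mul_le_mul_of_nonneg_left hTt (by positivity)
      have h9 : ε / 2 * T = Real.log W + Real.log C := by
        rw [hT]
        field_simp
      linarith
    calc 16 * W * ((t:ℝ) + 1) ^ 3 = W * (16 * ((t:ℝ) + 1) ^ 3) := by ring
      _ ≤ W * (C * Real.exp (ε * t / 2)) := mul_le_mul_of_nonneg_left h4 (by linarith)
      _ = (W * C) * Real.exp (ε * t / 2) := by ring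
      _ ≤ Real.exp (ε * t / 2) * Real.exp (ε * t / 2) :=
          mul_le_mul_of_nonneg_right h7 (Real.exp_pos _).le
      _ = Real.exp (ε * t) := by
          rw [← Real.exp_add]
          congr 1
          ring

end Pool.Agent.Helper79.TY
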