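import Pool.Agent.Helper82.CF.Cir

/-!
# The product form for all circuits of unions and sumsets

A set computed by `s` unions and sumsets without a proper Hilbert cube of dimension `k + 1` has
at most `(6 s ^ 2 (8 k + 3)) ^ k` elements.
-/

namespace Pool.Agent.Helper79.TY

open scoped Pointwise
open Pool.Agent.Helper82.CF

variable {G : Type*} [AddCommGroup G] [DecidableEq G]

/-! ### Generalized arithmetic progressions -/

/-- The sums `∑ n_i h_i` with `|n_i| ≤ a`. -/
noncomputable def gap (a : ℕ) (l : List G) : Finset G :=
  (l.map fun h => (Finset.Icc (-(a:ℤ)) a).image fun n : ℤ => n • h).sum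

lemma gap_nil (a : ℕ) : gap a ([] : List G) = {0} := rfl

lemma gap_cons (a : ℕ) (h : G) (l : List G) :
    gap a (h :: l) = ((Finset.Icc (-(a:ℤ)) a).image fun n : ℤ => n • h) + gap a l := by
  simp [gap]

lemma zero_mem_gap (a : ℕ) (l : List G) : (0 : G) ∈ gap a l := by
  induction l with
  | nil => simp [gap_nil]
  | cons h l ih =>
    rw [gap_cons, Finset.mem_add]
    exact ⟨0, Finset.mem_image.2 ⟨0, by simp, by simp⟩, 0, ih, by simp⟩

lemma gap_card (a : ℕ) (l : List G) : (gap a l).card ≤ (2 * a + 1) ^ l.length := by
  induction l with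
  | nil => simp [gap_nil]
  | cons h l ih =>
    rw [gap_cons, List.length_cons, pow_succ, mul_comm]
    refine Finset.card_add_le.trans (Nat.mul_le_mul (Finset.card_image_le.trans ?_) ih)
    rw [Int.card_Icc]
    omega

lemma gap_cons_subset (a : ℕ) (h : G) (l : List G) : gap a l ⊆ gap a (h :: l) := by
  intro x hx
  rw [gap_cons, Finset.mem_add]
  exact ⟨0, Finset.mem_image.2 ⟨0, by simp, by simp⟩, x, hx, by simp⟩

lemma gap_mono {a b : ℕ} (hab : a ≤ b) (l : List G) : gap a l ⊆ gap b l := by
  induction l with
  | nil => simp [gap_nil]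
  | cons h l ih =>
    rw [gap_cons, gap_cons]
    refine Finset.add_subset_add (Finset.image_subset_image ?_) ih
    exact Finset.Icc_subset_Icc (by omega) (by omega)

lemma gap_add (a b : ℕ) (l : List G) : gap a l + gap b l ⊆ gap (a + b) l := by
  induction l with
  | nil => simp [gap_nil]
  | cons h l ih =>
    intro x hx
    rw [gap_cons, gap_cons] at hx
    simp only [Finset.mem_add, Finset.mem_image, Finset.mem_Icc] at hx
    obtain ⟨_, ⟨_, ⟨n, hn, rfl⟩, y, hy, rfl⟩, _, ⟨_, ⟨m, hm, rfl⟩, z, hz, rfl⟩, rfl⟩ := hx
    rw [gap_cons, Finset.mem_add]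
    refine ⟨(n + m) • h, Finset.mem_image.2 ⟨n + m, ?_, rfl⟩, y + z,
      ih (Finset.add_mem_add hy hz), ?_⟩
    · rw [Finset.mem_Icc]
      push_cast
      omega
    · rw [add_smul]
      abel

lemma cube_sub_subset (l : List G) : cube l - cube l ⊆ gap 1 l := by
  induction l with
  | nil => simp [cube_nil, gap_nil]
  | cons h l ih =>
    intro x hx
    rw [cube_cons] at hx
    simp only [Finset.mem_sub, Finset.mem_add, Finset.mem_insert, Finset.mem_singleton] at hx
    obtain ⟨y, ⟨a, ha, b, hb, rfl⟩, z, ⟨a', ha', b', hb', rfl⟩, rfl⟩ := hx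
    rw [gap_cons, Finset.mem_add]
    refine ⟨a - a', ?_, b - b', ih (Finset.sub_mem_sub hb hb'), by abel⟩
    rw [Finset.mem_image]
    rcases ha with rfl | rfl <;> rcases ha' with rfl | rfl
    · exact ⟨0, by simp, by simp⟩
    · exact ⟨-1, by simp, by simp⟩
    · exact ⟨1, by simp, by simp⟩
    · exact ⟨0, by simp, by simp⟩

/-! ### Stuck sets -/

/-- All differences of `F` are differences of the cube `cube l`. -/
def Stuck (l : List G) (F : Finset G) : Prop := ∀ x ∈ F, ∀ y ∈ F, x - y ∈ cube l - cube l

lemma Stuck.subset {l : List G} {F : Finset G} (h : Stuck l F) : ∃ t : G, F ⊆ {t} + gap 1 l := by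
  rcases F.eq_empty_or_nonempty with h0 | ⟨t, ht⟩
  · exact ⟨0, by rw [h0]; exact Finset.empty_subset _⟩
  · refine ⟨t, fun x hx => ?_⟩
    rw [Finset.mem_add]
    exact ⟨t, Finset.mem_singleton_self t, x - t, cube_sub_subset l (h x hx t ht), by abel⟩

lemma stuck_of_card_le {l : List G} {F : Finset G} (h : F.card ≤ 1) : Stuck l F := by
  intro x hx y hy
  have : x = y := Finset.card_le_one.1 h x hx y hy
  subst this
  obtain ⟨z, hz⟩ := cube_nonempty l
  rw [sub_self, Finset.mem_sub]
  exact ⟨z, hz, z, hz, sub_self z⟩

lemma not_stuck_add {l : List G} {F : Finset G} (h : ¬ Stuck l F) (c : G) :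
    ¬ Stuck l ({c} + F) := by
  intro h'
  refine h fun x hx y hy => ?_
  have := h' (c + x) (Finset.add_mem_add (Finset.mem_singleton_self c) hx) (c + y)
    (Finset.add_mem_add (Finset.mem_singleton_self c) hy)
  rwa [add_sub_add_left_eq_sub] at this

lemma add_subset_gap {l : List G} {a b : ℕ} {t t' : G} {F F' : Finset G}
    (h : F ⊆ {t} + gap a l) (h' : F' ⊆ {t'} + gap b l) : F + F' ⊆ {t + t'} + gap (a + b) l := by
  refine (Finset.add_subset_add h h').trans ?_
  rw [show {t} + gap a l + ({t'} + gap b l) = ({t} + {t'}) + (gap a l + gap b l) by abel,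
    Finset.singleton_add_singleton]
  exact Finset.add_subset_add_left (gap_add a b l)

/-- Extension of a proper cube by a new difference. -/
lemma cube_extend {l : List G} (hl : (cube l).card = 2 ^ l.length) {x : G}
    (hx : x ∉ cube l - cube l) : (cube (x :: l)).card = 2 ^ (x :: l).length := by
  have e1 : cube (x :: l) = cube l ∪ ({x} + cube l) := by
    rw [cube_cons, Finset.insert_eq, Finset.union_add, Finset.singleton_zero, zero_add]
  rw [e1, Finset.card_union_of_disjoint, card_singleton_add, hl, List.length_cons, pow_succ]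
  · ring
  · rw [Finset.disjoint_left]
    intro y hy hy'
    rw [Finset.mem_add] at hy'
    obtain ⟨u, hu, z, hz, rfl⟩ := hy'
    rw [Finset.mem_singleton] at hu
    subst hu
    apply hx
    rw [Finset.mem_sub]
    exact ⟨u + z, hy, z, hz, by abel⟩

/-! ### Contexts -/

lemma ctx_empty (d : ℕ → Gate) (S : ℕ → Finset G) (p : ℕ) : ∀ h < p, ctx d S p h = ∅ := by
  intro h
  induction h using Nat.strong_induction_on with
  | _ h ih =>
    intro hp
    rw [ctx, if_neg (by omega)]
    cases d h with
    | leaf => rfl
    | un j k =>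
      simp only
      split_ifs with hjk
      · rw [ih j hjk.1 (by omega), ih k hjk.2 (by omega), Finset.empty_union]
      · rfl
    | sum j k =>
      simp only
      split_ifs with hjk
      · rw [ih j hjk.1 (by omega), ih k hjk.2 (by omega), Finset.empty_add, Finset.add_empty,
          Finset.empty_union]
      · rfl

/-- Composition of contexts. -/
lemma ctx_comp {s : ℕ} {d : ℕ → Gate} {S : ℕ → Finset G} (hd : ∀ i < s, Fits S i (d i))
    (p q : ℕ) : ∀ h < s, ctx d S q h + ctx d S p q ⊆ ctx d S p h := by
  intro h
  induction h using Nat.strong_induction_on with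
  | _ h ih =>
    intro hs
    by_cases hq : h = q
    · subst hq
      rw [ctx_self, Finset.singleton_zero, zero_add]
    by_cases hp : h = p
    · subst hp
      rcases Nat.lt_or_ge q h with h1 | h1
      · rw [ctx_empty d S h q h1, Finset.add_empty]
        exact Finset.empty_subset _
      · rw [ctx_empty d S q h (by omega), Finset.empty_add]
        exact Finset.empty_subset _
    have hf := hd h hs
    cases hdh : d h with
    | leaf =>
      rw [ctx_leaf hq hdh, Finset.empty_add]
      exact Finset.empty_subset _
    | un j k =>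
      rw [hdh] at hf
      obtain ⟨hj, hk, e⟩ := hf
      rw [ctx_un hq hdh hj hk, ctx_un hp hdh hj hk, Finset.union_add]
      exact Finset.union_subset_union (ih j hj (hj.trans hs)) (ih k hk (hk.trans hs))
    | sum j k =>
      rw [hdh] at hf
      obtain ⟨hj, hk, e⟩ := hf
      rw [ctx_sum hq hdh hj hk, ctx_sum hp hdh hj hk, Finset.union_add]
      refine Finset.union_subset_union ?_ ?_
      · rw [show ctx d S q j + S k + ctx d S p q = (ctx d S q j + ctx d S p q) + S k by abel]
        exact Finset.add_subset_add_right (ih j hj (hj.trans hs))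
      · rw [add_assoc]
        exact Finset.add_subset_add_left (ih k hk (hk.trans hs))

open Classical in
/-- The stuck part of the gate `p` on the side `b`. -/
noncomputable def piece (d : ℕ → Gate) (S : ℕ → Finset G) (l : List G) (p : ℕ) (b : Bool) :
    Finset G :=
  match d p with
  | .leaf => ∅
  | .un j k => if b then (if Stuck l (S j) then S j else ∅) else
      (if Stuck l (S k) then S k else ∅)
  | .sum j k => if Stuck l (S j) ∧ Stuck l (S k) then S j + S k else ∅

lemma piece_subset (d : ℕ → Gate) (S : ℕ → Finset G) (l : List G) (p : ℕ) (b : Bool) :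
    ∃ t : G, piece d S l p b ⊆ {t} + gap 2 l := by
  have h1 : ∀ F : Finset G, Stuck l F → ∃ t : G, F ⊆ {t} + gap 2 l := by
    intro F hF
    obtain ⟨t, ht⟩ := hF.subset
    exact ⟨t, ht.trans (Finset.add_subset_add_left (gap_mono (by norm_num) l))⟩
  unfold piece
  cases d p with
  | leaf => exact ⟨0, Finset.empty_subset _⟩
  | un j k =>
    simp only
    split_ifs with h2 h3 h4
    · exact h1 _ h3
    · exact ⟨0, Finset.empty_subset _⟩
    · exact h1 _ h4
    · exact ⟨0, Finset.empty_subset _⟩
  | sum j k =>
    simp only
    split_ifs with h2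
    · obtain ⟨t, ht⟩ := h2.1.subset
      obtain ⟨t', ht'⟩ := h2.2.subset
      exact ⟨t + t', (add_subset_gap ht ht').trans
        (Finset.add_subset_add_left (gap_mono (by norm_num) l))⟩
    · exact ⟨0, Finset.empty_subset _⟩

lemma not_stuck_leaf {s : ℕ} {d : ℕ → Gate} {S : ℕ → Finset G} (hd : ∀ i < s, Fits S i (d i))
    {l : List G} {q : ℕ} (hq : q < s) (h : ¬ Stuck l (S q)) (hdq : d q = .leaf) : False := by
  have hf := hd q hq
  rw [hdq] at hf
  exact h (stuck_of_card_le hf)

/-- The walk in a gate. -/
lemma walk_gate {s : ℕ} {d : ℕ → Gate} {S : ℕ → Finset G} (hd : ∀ i < s, Fits S i (d i))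
    (l : List G) : ∀ q < s, ¬ Stuck l (S q) → ∀ x ∈ S q, ∃ p ≤ q, ¬ Stuck l (S p) ∧
      ∃ b, x ∈ ctx d S p q + piece d S l p b := by
  intro q
  induction q using Nat.strong_induction_on with
  | _ q ih =>
    intro hq hns x hx
    have hf := hd q hq
    cases hdq : d q with
    | leaf => exact (not_stuck_leaf hd hq hns hdq).elim
    | un j k =>
      rw [hdq] at hf
      obtain ⟨hj, hk, e⟩ := hf
      rw [e, Finset.mem_union] at hx
      rcases hx with hx | hx
      · by_cases h1 : Stuck l (S j)
        · refine ⟨q, le_rfl, hns, true, ?_⟩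
          rw [ctx_self, Finset.singleton_zero, zero_add]
          simp only [piece, hdq, if_true, if_pos h1]
          exact hx
        · obtain ⟨p, hp, h2, b, h3⟩ := ih j hj (hj.trans hq) h1 x hx
          refine ⟨p, by omega, h2, b, ?_⟩
          rw [ctx_un (by omega) hdq hj hk]
          exact Finset.add_subset_add_right Finset.subset_union_left h3
      · by_cases h1 : Stuck l (S k)
        · refine ⟨q, le_rfl, hns, false, ?_⟩
          rw [ctx_self, Finset.singleton_zero, zero_add]
          simp only [piece, hdq, Bool.false_eq_true, if_false, if_pos h1]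
          exact hx
        · obtain ⟨p, hp, h2, b, h3⟩ := ih k hk (hk.trans hq) h1 x hx
          refine ⟨p, by omega, h2, b, ?_⟩
          rw [ctx_un (by omega) hdq hj hk]
          exact Finset.add_subset_add_right Finset.subset_union_right h3
    | sum j k =>
      rw [hdq] at hf
      obtain ⟨hj, hk, e⟩ := hf
      rw [e, Finset.mem_add] at hx
      obtain ⟨y, hy, z, hz, rfl⟩ := hx
      by_cases h1 : Stuck l (S j)
      · by_cases h2 : Stuck l (S k)
        · refine ⟨q, le_rfl, hns, true, ?_⟩
          rw [ctx_self, Finset.singleton_zero, zero_add]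
          simp only [piece, hdq, if_pos (And.intro h1 h2)]
          exact Finset.add_mem_add hy hz
        · obtain ⟨p, hp, h3, b, h4⟩ := ih k hk (hk.trans hq) h2 z hz
          refine ⟨p, by omega, h3, b, ?_⟩
          rw [ctx_sum (by omega) hdq hj hk]
          rw [Finset.mem_add] at h4 ⊢
          obtain ⟨u, hu, w, hw, rfl⟩ := h4
          exact ⟨y + u, Finset.mem_union_right _ (Finset.add_mem_add hy hu), w, hw,
            by rw [add_assoc]⟩
      · obtain ⟨p, hp, h3, b, h4⟩ := ih j hj (hj.trans hq) h1 y hy
        refine ⟨p, by omega, h3, b, ?_⟩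
        rw [ctx_sum (by omega) hdq hj hk]
        rw [Finset.mem_add] at h4 ⊢
        obtain ⟨u, hu, w, hw, rfl⟩ := h4
        exact ⟨u + z, Finset.mem_union_left _ (Finset.add_mem_add hu hz), w, hw, by abel⟩

/-- The input of the gate `q` on the side `b`. -/
def inp (d : ℕ → Gate) (q : ℕ) (b : Bool) : ℕ :=
  match d q with
  | .leaf => 0
  | .un j k => if b then j else k
  | .sum j k => if b then j else k

open Classical in
/-- The set which is added on the side `b` of the gate `q`. -/
noncomputable def sib (d : ℕ → Gate) (S : ℕ → Finset G) (q : ℕ) (b : Bool) : Finset G :=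
  match d q with
  | .leaf => {0}
  | .un _ _ => {0}
  | .sum _ _ => S (inp d q (!b))

/-- The walk in a context. -/
lemma walk_ctx {s : ℕ} {d : ℕ → Gate} {S : ℕ → Finset G} (hd : ∀ i < s, Fits S i (d i))
    (l : List G) (p : ℕ) : ∀ q < s, ¬ Stuck l (ctx d S p q) → ∀ x ∈ ctx d S p q,
      ∃ q' ≤ q, ¬ Stuck l (ctx d S p q') ∧ ∃ b, Stuck l (ctx d S p (inp d q' b)) ∧
        ctx d S p (inp d q' b) + sib d S q' b ⊆ ctx d S p q' ∧
        inp d q' (!b) < s ∧
        x ∈ ctx d S q' q + (ctx d S p (inp d q' b) + sib d S q' b) := by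
  intro q
  induction q using Nat.strong_induction_on with
  | _ q ih =>
    intro hq hns x hx
    have hqp : q ≠ p := by
      rintro rfl
      rw [ctx_self] at hns
      exact hns (stuck_of_card_le (by simp))
    have hf := hd q hq
    cases hdq : d q with
    | leaf =>
      rw [ctx_leaf hqp hdq] at hns
      exact (hns (stuck_of_card_le (by simp))).elim
    | un j k =>
      rw [hdq] at hf
      obtain ⟨hj, hk, e⟩ := hf
      have hi1 : inp d q true = j := by simp [inp, hdq]
      have hi2 : inp d q false = k := by simp [inp, hdq]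
      have hs : ∀ b, sib d S q b = {0} := fun b => by simp [sib, hdq]
      have hx' := hx
      rw [ctx_un hqp hdq hj hk, Finset.mem_union] at hx'
      rcases hx' with hx' | hx'
      · by_cases h1 : Stuck l (ctx d S p j)
        · refine ⟨q, le_rfl, hns, true, ?_, ?_, ?_, ?_⟩
          · rw [hi1]
            exact h1
          · rw [hi1, hs, Finset.singleton_zero, add_zero, ctx_un hqp hdq hj hk]
            exact Finset.subset_union_left
          · simp only [Bool.not_true]
            rw [hi2]
            exact hk.trans hq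
          · rw [hi1, hs, Finset.singleton_zero, add_zero, ctx_self, Finset.singleton_zero,
              zero_add]
            exact hx'
        · obtain ⟨q', hq', h2, b, h3, h4, h5, h6⟩ := ih j hj (hj.trans hq) h1 x hx'
          refine ⟨q', by omega, h2, b, h3, h4, h5, ?_⟩
          rw [ctx_un (h := q) (by omega) hdq hj hk]
          exact Finset.add_subset_add_right Finset.subset_union_left h6
      · by_cases h1 : Stuck l (ctx d S p k)
        · refine ⟨q, le_rfl, hns, false, ?_, ?_, ?_, ?_⟩
          · rw [hi2]
            exact h1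
          · rw [hi2, hs, Finset.singleton_zero, add_zero, ctx_un hqp hdq hj hk]
            exact Finset.subset_union_right
          · simp only [Bool.not_false]
            rw [hi1]
            exact hj.trans hq
          · rw [hi2, hs, Finset.singleton_zero, add_zero, ctx_self, Finset.singleton_zero,
              zero_add]
            exact hx'
        · obtain ⟨q', hq', h2, b, h3, h4, h5, h6⟩ := ih k hk (hk.trans hq) h1 x hx'
          refine ⟨q', by omega, h2, b, h3, h4, h5, ?_⟩
          rw [ctx_un (h := q) (by omega) hdq hj hk]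
          exact Finset.add_subset_add_right Finset.subset_union_right h6
    | sum j k =>
      rw [hdq] at hf
      obtain ⟨hj, hk, e⟩ := hf
      have hi1 : inp d q true = j := by simp [inp, hdq]
      have hi2 : inp d q false = k := by simp [inp, hdq]
      have hs1 : sib d S q true = S k := by simp [sib, hdq, inp]
      have hs2 : sib d S q false = S j := by simp [sib, hdq, inp]
      have hx' := hx
      rw [ctx_sum hqp hdq hj hk, Finset.mem_union] at hx'
      rcases hx' with hx' | hx'
      · by_cases h1 : Stuck l (ctx d S p j)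
        · refine ⟨q, le_rfl, hns, true, ?_, ?_, ?_, ?_⟩
          · rw [hi1]
            exact h1
          · rw [hi1, hs1, ctx_sum hqp hdq hj hk]
            exact Finset.subset_union_left
          · simp only [Bool.not_true]
            rw [hi2]
            exact hk.trans hq
          · rw [hi1, hs1, ctx_self, Finset.singleton_zero, zero_add]
            exact hx'
        · rw [Finset.mem_add] at hx'
          obtain ⟨y, hy, z, hz, rfl⟩ := hx'
          obtain ⟨q', hq', h2, b, h3, h4, h5, h6⟩ := ih j hj (hj.trans hq) h1 y hy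
          refine ⟨q', by omega, h2, b, h3, h4, h5, ?_⟩
          rw [ctx_sum (h := q) (by omega) hdq hj hk]
          rw [Finset.mem_add] at h6 ⊢
          obtain ⟨u, hu, w, hw, rfl⟩ := h6
          exact ⟨u + z, Finset.mem_union_left _ (Finset.add_mem_add hu hz), w, hw, by abel⟩
      · by_cases h1 : Stuck l (ctx d S p k)
        · refine ⟨q, le_rfl, hns, false, ?_, ?_, ?_, ?_⟩
          · rw [hi2]
            exact h1
          · rw [hi2, hs2, ctx_sum hqp hdq hj hk, add_comm]
            exact Finset.subset_union_right
          · simp only [Bool.not_false]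
            rw [hi1]
            exact hj.trans hq
          · rw [hi2, hs2, ctx_self, Finset.singleton_zero, zero_add, add_comm]
            exact hx'
        · rw [Finset.mem_add] at hx'
          obtain ⟨z, hz, y, hy, rfl⟩ := hx'
          obtain ⟨q', hq', h2, b, h3, h4, h5, h6⟩ := ih k hk (hk.trans hq) h1 y hy
          refine ⟨q', by omega, h2, b, h3, h4, h5, ?_⟩
          rw [ctx_sum (h := q) (by omega) hdq hj hk]
          rw [Finset.mem_add] at h6 ⊢
          obtain ⟨u, hu, w, hw, rfl⟩ := h6
          exact ⟨z + u, Finset.mem_union_right _ (Finset.add_mem_add hz hu), w, hw, by abel⟩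

/-! ### The step -/

/-- The members of the family: the sets of the gates and the contexts. -/
def Fam (d : ℕ → Gate) (S : ℕ → Finset G) (s : ℕ) (F : Finset G) : Prop :=
  F = {0} ∨ (∃ q < s, F = S q) ∨ ∃ p, ∃ q < s, F = ctx d S p q

/-- The data of a step for the set `F`. -/
def Valid (d : ℕ → Gate) (S : ℕ → Finset G) (s : ℕ) (l : List G) (F : Finset G)
    (T : Finset G × Finset G × Finset G) : Prop :=
  Fam d S s T.1 ∧ Fam d S s T.2.1 ∧ (∃ P, ¬ Stuck l P ∧ T.1 + T.2.1 + P ⊆ F) ∧
    ∃ t : G, T.2.2 ⊆ {t} + gap 3 l

/-- **The step.** -/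
lemma step {s : ℕ} {d : ℕ → Gate} {S : ℕ → Finset G} (hd : ∀ i < s, Fits S i (d i))
    (l : List G) {F : Finset G} (hF : Fam d S s F) (hns : ¬ Stuck l F) :
    ∃ I : Finset (Finset G × Finset G × Finset G), I.card ≤ 6 * s ^ 2 ∧
      (∀ T ∈ I, Valid d S s l F T) ∧ ∀ x ∈ F, ∃ T ∈ I, x ∈ T.1 + T.2.1 + T.2.2 := by
  classical
  rcases hF with rfl | ⟨q, hq, rfl⟩ | ⟨p, q, hq, rfl⟩
  · exact (hns (stuck_of_card_le (by simp))).elim
  · -- a gate
    set I : Finset (Finset G × Finset G × Finset G) :=
      ((Finset.range s ×ˢ (Finset.univ : Finset Bool)).image fun e =>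
        (ctx d S e.1 q, ({0} : Finset G), piece d S l e.1 e.2)).filter (Valid d S s l (S q))
      with hI
    refine ⟨I, ?_, ?_, ?_⟩
    · refine (Finset.card_filter_le _ _).trans (Finset.card_image_le.trans ?_)
      rw [Finset.card_product, Finset.card_range, Finset.card_univ, Fintype.card_bool]
      nlinarith
    · intro T hT
      rw [hI, Finset.mem_filter] at hT
      exact hT.2
    · intro x hx
      obtain ⟨p, hp, h1, b, h2⟩ := walk_gate hd l q hq hns x hx
      refine ⟨(ctx d S p q, {0}, piece d S l p b), ?_, ?_⟩
      · rw [hI, Finset.mem_filter]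
        refine ⟨Finset.mem_image.2 ⟨(p, b), ?_, rfl⟩, ?_, Or.inl rfl, ⟨S p, h1, ?_⟩, ?_⟩
        · rw [Finset.mem_product, Finset.mem_range]
          exact ⟨by simp only; omega, Finset.mem_univ _⟩
        · exact Or.inr (Or.inr ⟨p, q, hq, rfl⟩)
        · simp only
          rw [Finset.singleton_zero, add_zero]
          exact ctx_add hd p q hq
        · obtain ⟨t, ht⟩ := piece_subset d S l p b
          exact ⟨t, ht.trans (Finset.add_subset_add_left (gap_mono (by norm_num) l))⟩
      · simp only
        rw [Finset.singleton_zero, add_zero]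
        exact h2
  · -- a context
    set I : Finset (Finset G × Finset G × Finset G) :=
      (((Finset.range s ×ˢ (Finset.univ : Finset Bool)).image fun e =>
        (ctx d S e.1 q, ({0} : Finset G), ctx d S p (inp d e.1 e.2) + sib d S e.1 e.2)) ∪
      ((((Finset.range s ×ˢ (Finset.univ : Finset Bool)) ×ˢ
        (Finset.range s ×ˢ (Finset.univ : Finset Bool))).image fun e =>
        (ctx d S e.1.1 q, ctx d S e.2.1 (inp d e.1.1 (!e.1.2)),
          ctx d S p (inp d e.1.1 e.1.2) + piece d S l e.2.1 e.2.2)))).filter
        (Valid d S s l (ctx d S p q)) with hI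
    refine ⟨I, ?_, ?_, ?_⟩
    · refine (Finset.card_filter_le _ _).trans ((Finset.card_union_le _ _).trans ?_)
      refine (Nat.add_le_add Finset.card_image_le Finset.card_image_le).trans ?_
      rw [Finset.card_product, Finset.card_product, Finset.card_product, Finset.card_range,
        Finset.card_univ, Fintype.card_bool]
      nlinarith
    · intro T hT
      rw [hI, Finset.mem_filter] at hT
      exact hT.2
    · intro x hx
      obtain ⟨q', hq', h1, b, h2, h3, h4, h5⟩ := walk_ctx hd l p q hq hns x hx
      obtain ⟨t, ht⟩ := h2.subset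
      by_cases hsib : Stuck l (sib d S q' b)
      · refine ⟨(ctx d S q' q, {0}, ctx d S p (inp d q' b) + sib d S q' b), ?_, ?_⟩
        · rw [hI, Finset.mem_filter, Finset.mem_union]
          refine ⟨Or.inl (Finset.mem_image.2 ⟨(q', b), ?_, rfl⟩), ?_, Or.inl rfl,
            ⟨ctx d S p q', h1, ?_⟩, ?_⟩
          · rw [Finset.mem_product, Finset.mem_range]
            exact ⟨by simp only; omega, Finset.mem_univ _⟩
          · exact Or.inr (Or.inr ⟨q', q, hq, rfl⟩)
          · simp only
            rw [Finset.singleton_zero, add_zero]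
            exact ctx_comp hd p q' q hq
          · obtain ⟨t', ht'⟩ := hsib.subset
            exact ⟨t + t', (add_subset_gap ht ht').trans
              (Finset.add_subset_add_left (gap_mono (by norm_num) l))⟩
        · simp only
          rw [Finset.singleton_zero, add_zero]
          exact h5
      · -- the sibling is not stuck: it is a gate
        have hsum : sib d S q' b = S (inp d q' (!b)) := by
          unfold sib at hsib ⊢
          cases hdq' : d q' with
          | leaf =>
            rw [hdq'] at hsib
            exact (hsib (stuck_of_card_le (by simp))).elim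
          | un j k =>
            rw [hdq'] at hsib
            exact (hsib (stuck_of_card_le (by simp))).elim
          | sum j k => rfl
        rw [hsum] at hsib h3 h5
        rw [Finset.mem_add] at h5
        obtain ⟨u, hu, y, hy, rfl⟩ := h5
        rw [Finset.mem_add] at hy
        obtain ⟨c, hc, z, hz, rfl⟩ := hy
        obtain ⟨g, hg, h6, b', h7⟩ := walk_gate hd l _ h4 hsib z hz
        refine ⟨(ctx d S q' q, ctx d S g (inp d q' (!b)),
          ctx d S p (inp d q' b) + piece d S l g b'), ?_, ?_⟩
        · rw [hI, Finset.mem_filter, Finset.mem_union]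
          refine ⟨Or.inr (Finset.mem_image.2 ⟨((q', b), (g, b')), ?_, rfl⟩), ?_, ?_,
            ⟨{c} + S g, not_stuck_add h6 c, ?_⟩, ?_⟩
          · rw [Finset.mem_product, Finset.mem_product, Finset.mem_product, Finset.mem_range,
              Finset.mem_range]
            exact ⟨⟨by simp only; omega, Finset.mem_univ _⟩, by simp only; omega,
              Finset.mem_univ _⟩
          · exact Or.inr (Or.inr ⟨q', q, hq, rfl⟩)
          · exact Or.inr (Or.inr ⟨g, _, h4, rfl⟩)
          · simp only
            have h8 : ctx d S g (inp d q' (!b)) + S g ⊆ S (inp d q' (!b)) := ctx_add hd g _ h4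
            calc ctx d S q' q + ctx d S g (inp d q' (!b)) + ({c} + S g)
                = ctx d S q' q + ({c} + (ctx d S g (inp d q' (!b)) + S g)) := by abel
              _ ⊆ ctx d S q' q + (ctx d S p (inp d q' b) + S (inp d q' (!b))) :=
                  Finset.add_subset_add_left (Finset.add_subset_add
                    (Finset.singleton_subset_iff.2 hc) h8)
              _ ⊆ ctx d S q' q + ctx d S p q' := Finset.add_subset_add_left h3
              _ ⊆ ctx d S p q := ctx_comp hd p q' q hq
          · obtain ⟨t', ht'⟩ := piece_subset d S l g b'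
            exact ⟨t + t', (add_subset_gap ht ht').trans
              (Finset.add_subset_add_left (gap_mono (by norm_num) l))⟩
        · simp only
          rw [Finset.mem_add] at h7
          obtain ⟨v, hv, w, hw, rfl⟩ := h7
          rw [Finset.mem_add]
          exact ⟨u + v, Finset.add_mem_add hu hv, c + w, Finset.add_mem_add hc hw, by abel⟩

/-! ### The recursion -/

lemma sum_stuck {l : List G} : ∀ L : List (Finset G), (∀ F ∈ L, Stuck l F) →
    ∃ t : G, L.sum ⊆ {t} + gap L.length l := by
  intro L
  induction L with
  | nil =>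
    intro _
    refine ⟨0, ?_⟩
    rw [List.sum_nil, Finset.singleton_zero, zero_add]
    intro x hx
    rw [Finset.mem_zero] at hx
    rw [hx]
    exact zero_mem_gap _ _
  | cons F L ih =>
    intro h
    obtain ⟨t, ht⟩ := ih fun F' hF' => h F' (List.mem_cons_of_mem _ hF')
    obtain ⟨t', ht'⟩ := (h F List.mem_cons_self).subset
    refine ⟨t' + t, ?_⟩
    rw [List.sum_cons, List.length_cons, add_comm L.length 1]
    exact add_subset_gap ht' ht

/-- **The recursion.** -/
theorem rec_bound {s : ℕ} {d : ℕ → Gate} {S : ℕ → Finset G} (hd : ∀ i < s, Fits S i (d i))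
    (hs : 1 ≤ s) (T : Finset G) (k : ℕ)
    (hT : ¬ ∃ c : G, ∃ h : List G, h.length = k + 1 ∧ (cube h).card = 2 ^ (k + 1) ∧
      {c} + cube h ⊆ T) :
    ∀ r : ℕ, ∀ (l : List G) (L : List (Finset G)) (a : ℕ) (D : Finset G) (c t : G),
      l.length + r = k → (cube l).card = 2 ^ l.length → (∀ F ∈ L, Fam d S s F) →
      {c} + L.sum + cube l ⊆ T → D ⊆ {t} + gap a l →
      (L.sum + D).card ≤ (6 * s ^ 2) ^ r * (2 * (a + L.length + 4 * r) + 1) ^ k := by
  classical
  intro r
  induction r with
  | zero =>
    intro l L a D c t hr hl hL hc hD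
    rcases (L.sum + D).eq_empty_or_nonempty with h0 | ⟨x, hx⟩
    · rw [h0, Finset.card_empty]
      exact Nat.zero_le _
    have hall : ∀ F ∈ L, Stuck l F := by
      intro F hF
      by_contra hns
      obtain ⟨L1, L2, rfl⟩ := List.append_of_mem hF
      unfold Stuck at hns
      push Not at hns
      obtain ⟨x', hx', y', hy', hxy⟩ := hns
      rw [Finset.mem_add] at hx
      obtain ⟨w, hw, _, _, _⟩ := hx
      rw [List.sum_append, List.sum_cons, Finset.mem_add] at hw
      obtain ⟨w1, hw1, w2, hw2, _⟩ := hw
      rw [Finset.mem_add] at hw2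
      obtain ⟨_, _, w3, hw3, _⟩ := hw2
      refine hT ⟨c + (w1 + (y' + w3)), (x' - y') :: l, by rw [List.length_cons]; omega, ?_, ?_⟩
      · rw [cube_extend hl hxy, List.length_cons]
        congr 1
        omega
      · intro z hz
        rw [cube_cons] at hz
        simp only [Finset.mem_add, Finset.mem_insert, Finset.mem_singleton] at hz
        obtain ⟨_, rfl, _, ⟨e, he, f, hf, rfl⟩, rfl⟩ := hz
        refine hc ?_
        rw [List.sum_append, List.sum_cons]
        rcases he with rfl | rfl
        · have : c + (w1 + (y' + w3)) + (0 + f) = c + (w1 + (y' + w3)) + f := by abel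
          rw [this]
          exact Finset.add_mem_add (Finset.add_mem_add (Finset.mem_singleton_self c)
            (Finset.add_mem_add hw1 (Finset.add_mem_add hy' hw3))) hf
        · have : c + (w1 + (y' + w3)) + (x' - y' + f) = c + (w1 + (x' + w3)) + f := by abel
          rw [this]
          exact Finset.add_mem_add (Finset.add_mem_add (Finset.mem_singleton_self c)
            (Finset.add_mem_add hw1 (Finset.add_mem_add hx' hw3))) hf
    obtain ⟨t', ht'⟩ := sum_stuck L hall
    have h1 := Finset.card_le_card (add_subset_gap ht' hD)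
    rw [card_singleton_add] at h1
    refine h1.trans ((gap_card _ _).trans ?_)
    rw [pow_zero, one_mul]
    have h2 : l.length = k := by omega
    rw [h2]
    exact Nat.pow_le_pow_left (by omega) _
  | succ r ih =>
    intro l L a D c t hr hl hL hc hD
    by_cases hall : ∀ F ∈ L, Stuck l F
    · obtain ⟨t', ht'⟩ := sum_stuck L hall
      have h1 := Finset.card_le_card (add_subset_gap ht' hD)
      rw [card_singleton_add] at h1
      refine h1.trans ((gap_card _ _).trans ?_)
      have h2 : 1 ≤ (6 * s ^ 2) ^ (r + 1) := Nat.one_le_pow _ _ (by positivity)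
      calc (2 * (L.length + a) + 1) ^ l.length
          ≤ (2 * (L.length + a) + 1) ^ k := Nat.pow_le_pow_right (by omega) (by omega)
        _ ≤ (2 * (a + L.length + 4 * (r + 1)) + 1) ^ k := Nat.pow_le_pow_left (by omega) _
        _ = 1 * _ := (one_mul _).symm
        _ ≤ _ := Nat.mul_le_mul_right _ h2
    · push Not at hall
      obtain ⟨F, hF, hns⟩ := hall
      obtain ⟨I, hI1, hI2, hI3⟩ := step hd l (hL F hF) hns
      obtain ⟨L1, L2, rfl⟩ := List.append_of_mem hF
      have hsum : (L1 ++ F :: L2).sum = F + (L1 ++ L2).sum := by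
        rw [List.sum_append, List.sum_cons, List.sum_append]
        abel
      have hlen : (L1 ++ F :: L2).length = (L1 ++ L2).length + 1 := by
        rw [List.length_append, List.length_cons, List.length_append]
        omega
      have hcov : (L1 ++ F :: L2).sum + D ⊆ I.biUnion fun T =>
          (T.1 :: T.2.1 :: (L1 ++ L2)).sum + (T.2.2 + D) := by
        intro x hx
        rw [hsum, Finset.mem_add] at hx
        obtain ⟨y, hy, e, he, rfl⟩ := hx
        rw [Finset.mem_add] at hy
        obtain ⟨f, hf, g, hg, rfl⟩ := hy
        obtain ⟨T', hT', h1⟩ := hI3 f hf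
        rw [Finset.mem_biUnion]
        refine ⟨T', hT', ?_⟩
        rw [Finset.mem_add] at h1
        obtain ⟨v, hv, w, hw, rfl⟩ := h1
        rw [Finset.mem_add] at hv
        obtain ⟨v1, hv1, v2, hv2, rfl⟩ := hv
        rw [List.sum_cons, List.sum_cons]
        have : v1 + v2 + w + g + e = (v1 + (v2 + g)) + (w + e) := by abel
        rw [this]
        exact Finset.add_mem_add (Finset.add_mem_add hv1 (Finset.add_mem_add hv2 hg))
          (Finset.add_mem_add hw he)
      have hone : ∀ T' ∈ I, ((T'.1 :: T'.2.1 :: (L1 ++ L2)).sum + (T'.2.2 + D)).card ≤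
          (6 * s ^ 2) ^ r * (2 * (a + (L1 ++ F :: L2).length + 4 * (r + 1)) + 1) ^ k := by
        intro T' hT'
        obtain ⟨hF1, hF2, ⟨P, hP, hPF⟩, t', ht'⟩ := hI2 T' hT'
        unfold Stuck at hP
        push Not at hP
        obtain ⟨x', hx', y', hy', hxy⟩ := hP
        have hnew := ih ((x' - y') :: l) (T'.1 :: T'.2.1 :: (L1 ++ L2)) (a + 3) (T'.2.2 + D)
          (c + y') (t' + t) (by rw [List.length_cons]; omega) (cube_extend hl hxy) ?_ ?_ ?_
        · refine hnew.trans (Nat.mul_le_mul_left _ (Nat.pow_le_pow_left ?_ _))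
          rw [List.length_cons, List.length_cons, hlen]
          omega
        · intro F' hF'
          rw [List.mem_cons, List.mem_cons] at hF'
          rcases hF' with rfl | rfl | hF'
          · exact hF1
          · exact hF2
          · refine hL F' ?_
            rw [List.mem_append] at hF' ⊢
            rcases hF' with h | h
            · exact Or.inl h
            · exact Or.inr (List.mem_cons_of_mem _ h)
        · intro z hz
          rw [cube_cons, List.sum_cons, List.sum_cons] at hz
          simp only [Finset.mem_add, Finset.mem_insert, Finset.mem_singleton] at hz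
          obtain ⟨_, ⟨_, rfl, _, ⟨f1, hf1, _, ⟨f2, hf2, g, hg, rfl⟩, rfl⟩, rfl⟩, _,
            ⟨e, he, f, hf, rfl⟩, rfl⟩ := hz
          refine hc ?_
          rw [hsum]
          have h8 : f1 + f2 + (y' + e) ∈ F := by
            refine hPF (Finset.add_mem_add (Finset.add_mem_add hf1 hf2) ?_)
            rcases he with rfl | rfl
            · rw [add_zero]
              exact hy'
            · have : y' + (x' - y') = x' := by abel
              rw [this]
              exact hx'
          have : c + y' + (f1 + (f2 + g)) + (e + f) = c + (f1 + f2 + (y' + e) + g) + f := by abel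
          rw [this]
          exact Finset.add_mem_add (Finset.add_mem_add (Finset.mem_singleton_self c)
            (Finset.add_mem_add h8 hg)) hf
        · have h9 := add_subset_gap ht' hD
          rw [add_comm 3 a] at h9
          exact h9.trans (Finset.add_subset_add_left (gap_cons_subset _ _ _))
      calc ((L1 ++ F :: L2).sum + D).card
          ≤ ∑ T' ∈ I, ((T'.1 :: T'.2.1 :: (L1 ++ L2)).sum + (T'.2.2 + D)).card :=
            (Finset.card_le_card hcov).trans Finset.card_biUnion_le
        _ ≤ ∑ _T' ∈ I,
            (6 * s ^ 2) ^ r * (2 * (a + (L1 ++ F :: L2).length + 4 * (r + 1)) + 1) ^ k :=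
            Finset.sum_le_sum hone
        _ = I.card *
            ((6 * s ^ 2) ^ r * (2 * (a + (L1 ++ F :: L2).length + 4 * (r + 1)) + 1) ^ k) := by
            rw [Finset.sum_const, smul_eq_mul]
        _ ≤ 6 * s ^ 2 *
            ((6 * s ^ 2) ^ r * (2 * (a + (L1 ++ F :: L2).length + 4 * (r + 1)) + 1) ^ k) :=
            Nat.mul_le_mul_right _ hI1
        _ = _ := by rw [pow_succ]; ring

/-- **Product form.** A set computed by `s` unions and sumsets with more than
`(6 s ^ 2 (8 k + 3)) ^ k` elements contains a proper Hilbert cube of dimension `k + 1`. -/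
theorem exists_cube_prod {s k : ℕ} {S : ℕ → Finset G} (hS : IsCircuit s S) {i : ℕ}
    (hi : i < s) (hcard : (6 * s ^ 2 * (8 * k + 3)) ^ k < (S i).card) :
    ∃ c : G, ∃ h : List G, h.length = k + 1 ∧ (cube h).card = 2 ^ (k + 1) ∧
      {c} + cube h ⊆ S i := by
  obtain ⟨d, hd⟩ := hS.exists_fits
  by_contra hT
  have h1 := rec_bound hd (by omega) (S i) k hT k [] [S i] 0 {0} 0 0 (by simp)
    (by simp [cube_nil])
    (by
      intro F hF
      rw [List.mem_singleton] at hF
      exact Or.inr (Or.inl ⟨i, hi, hF⟩))
    (by rw [List.sum_singleton, cube_nil, Finset.singleton_zero, zero_add, add_zero])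
    (by simp [gap_nil])
  rw [List.sum_singleton, Finset.singleton_zero, add_zero, List.length_singleton] at h1
  have h2 : (6 * s ^ 2) ^ k * (2 * (0 + 1 + 4 * k) + 1) ^ k = (6 * s ^ 2 * (8 * k + 3)) ^ k := by
    rw [← mul_pow]
    congr 2
    ring
  omega

end Pool.Agent.Helper79.TY
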