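import Pool.Agent.Helper1.TY.Gen

/-!
# Few sections and few representations: the product form is sharp

A set in `[0, 2 ^ J)` with about `2 ^ (J / 2)` elements, at most `2 ^ k` representations of every
number and at most `C * 2 ^ (J / (2 k))` sections at every level, from either end.
-/

namespace Pool.Agent.Helper79.TY

open Finset Pool.Agent.Helper1.TY

/-- the Sidon set `u + 2 ^ (h + 1) * (u ^ 2 mod q)`, `u < q` -/
def sid (h q : ℕ) : Finset ℕ := (range q).image fun u => u + 2 ^ (h + 1) * (u ^ 2 % q)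

/-- the numbers with `m` digits in `S` to the base `2 ^ l` -/
def blocks (l : ℕ) (S : Finset ℕ) : ℕ → Finset ℕ
  | 0 => {0}
  | m + 1 => (S ×ˢ blocks l S m).image fun p => p.1 + 2 ^ l * p.2

section Sidon

variable {h q : ℕ}

lemma mem_sid (hq : q < 2 ^ h) {x : ℕ} (hx : x ∈ sid h q) :
    x % 2 ^ (h + 1) < q ∧ x / 2 ^ (h + 1) = (x % 2 ^ (h + 1)) ^ 2 % q := by
  unfold sid at hx
  rw [mem_image] at hx
  obtain ⟨u, hu, rfl⟩ := hx
  rw [mem_range] at hu
  have h1 : u < 2 ^ (h + 1) := by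
    rw [pow_succ]
    omega
  have h2 : 0 < 2 ^ (h + 1) := by positivity
  rw [Nat.add_mul_mod_self_left, Nat.mod_eq_of_lt h1, Nat.add_mul_div_left _ _ h2,
    Nat.div_eq_of_lt h1, zero_add]
  exact ⟨hu, rfl⟩

lemma card_sid (hq : q < 2 ^ h) : (sid h q).card = q := by
  unfold sid
  rw [card_image_of_injOn, card_range]
  intro u hu v hv huv
  rw [mem_coe, mem_range] at hu hv
  have h1 : u < 2 ^ (h + 1) := by
    rw [pow_succ]
    omega
  have h2 : v < 2 ^ (h + 1) := by
    rw [pow_succ]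
    omega
  have h3 := congrArg (· % 2 ^ (h + 1)) huv
  simp only [Nat.add_mul_mod_self_left] at h3
  rwa [Nat.mod_eq_of_lt h1, Nat.mod_eq_of_lt h2] at h3

lemma sid_lt (hq : q < 2 ^ h) {x : ℕ} (hx : x ∈ sid h q) : 2 * x < 2 ^ (2 * (h + 1)) := by
  obtain ⟨h1, h2⟩ := mem_sid hq hx
  have hq0 : 0 < q := by omega
  have h3 : x / 2 ^ (h + 1) < q := by
    rw [h2]
    exact Nat.mod_lt _ hq0
  have h4 := Nat.div_add_mod x (2 ^ (h + 1))
  have h5 : 2 ^ (2 * (h + 1)) = 2 ^ (h + 1) * (2 * 2 ^ h) := by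
    rw [← pow_succ', ← pow_add]
    congr 1
    omega
  have h6 : 2 ^ (h + 1) = 2 * 2 ^ h := by rw [pow_succ']
  have h7 : 2 ^ (h + 1) * (x / 2 ^ (h + 1)) + 2 ^ (h + 1) ≤ 2 ^ (h + 1) * 2 ^ h := by
    have : x / 2 ^ (h + 1) + 1 ≤ 2 ^ h := by omega
    calc 2 ^ (h + 1) * (x / 2 ^ (h + 1)) + 2 ^ (h + 1)
        = 2 ^ (h + 1) * (x / 2 ^ (h + 1) + 1) := by ring
      _ ≤ _ := Nat.mul_le_mul_left _ this
  have h8 : 2 ^ (h + 1) * (2 * 2 ^ h) = 2 * (2 ^ (h + 1) * 2 ^ h) := by ring
  omega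

lemma dvd_imp {a b : ℕ} (ha : a < q) (hb : b < q) (h : (q : ℤ) ∣ (a : ℤ) - b) : a = b := by
  have h1 : (a : ℤ) - b = 0 := by
    apply Int.eq_zero_of_abs_lt_dvd h
    rw [abs_lt]
    constructor <;> omega
  omega

lemma sidon_pair (hp : q.Prime) (hq2 : 2 < q) {u v u' v' : ℕ} (hu : u < q) (hv : v < q)
    (hu' : u' < q) (_hv' : v' < q) (hs : u + v = u' + v')
    (ht : u ^ 2 % q + v ^ 2 % q = u' ^ 2 % q + v' ^ 2 % q) :
    (u' = u ∧ v' = v) ∨ (u' = v ∧ v' = u) := by
  have h1 : u ^ 2 + v ^ 2 ≡ u' ^ 2 + v' ^ 2 [MOD q] := by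
    have e1 : u ^ 2 % q + v ^ 2 % q ≡ u ^ 2 + v ^ 2 [MOD q] :=
      Nat.ModEq.add (Nat.mod_modEq _ _) (Nat.mod_modEq _ _)
    have e2 : u' ^ 2 % q + v' ^ 2 % q ≡ u' ^ 2 + v' ^ 2 [MOD q] :=
      Nat.ModEq.add (Nat.mod_modEq _ _) (Nat.mod_modEq _ _)
    rw [ht] at e1
    exact e1.symm.trans e2
  have h2 : (q : ℤ) ∣ ((u' ^ 2 + v' ^ 2 : ℕ) : ℤ) - ((u ^ 2 + v ^ 2 : ℕ) : ℤ) :=
    (Nat.modEq_iff_dvd).1 h1
  have hs' : (u : ℤ) + v = u' + v' := by exact_mod_cast hs
  have hv'' : (v' : ℤ) = u + v - u' := by linarith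
  have h3 : (((u' ^ 2 + v' ^ 2 : ℕ) : ℤ) - ((u ^ 2 + v ^ 2 : ℕ) : ℤ)) =
      2 * (((u' : ℤ) - u) * ((u' : ℤ) - v)) := by
    push_cast
    rw [hv'']
    ring
  rw [h3] at h2
  have hpZ : Prime (q : ℤ) := Nat.prime_iff_prime_int.1 hp
  rcases hpZ.dvd_or_dvd h2 with h4 | h4
  · exfalso
    have h5 : (q : ℤ) ≤ 2 := Int.le_of_dvd (by norm_num) h4
    omega
  · rcases hpZ.dvd_or_dvd h4 with h5 | h5
    · have h6 := dvd_imp hu' hu h5
      exact Or.inl ⟨h6, by omega⟩
    · have h6 := dvd_imp hu' hv h5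
      exact Or.inr ⟨h6, by omega⟩

lemma rp_sid (hp : q.Prime) (hq2 : 2 < q) (hq : q < 2 ^ h) (N : ℕ) : rpF (sid h q) N ≤ 2 := by
  unfold rpF
  rcases (((sid h q) ×ˢ (sid h q)).filter fun p => p.1 + p.2 = N).eq_empty_or_nonempty with h0 | hne
  · rw [h0]
    simp
  obtain ⟨⟨x, y⟩, hxy⟩ := hne
  have key : ∀ x ∈ sid h q, ∀ y ∈ sid h q, x + y = N →
      x % 2 ^ (h + 1) + y % 2 ^ (h + 1) = N % 2 ^ (h + 1) ∧
      x / 2 ^ (h + 1) + y / 2 ^ (h + 1) = N / 2 ^ (h + 1) := by
    intro x hx y hy hN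
    obtain ⟨h1, -⟩ := mem_sid hq hx
    obtain ⟨h2, -⟩ := mem_sid hq hy
    have h3 : x % 2 ^ (h + 1) + y % 2 ^ (h + 1) < 2 ^ (h + 1) := by
      have : 2 ^ (h + 1) = 2 * 2 ^ h := by rw [pow_succ']
      omega
    have h4 := Nat.div_add_mod x (2 ^ (h + 1))
    have h5 := Nat.div_add_mod y (2 ^ (h + 1))
    have h6 : N = (x % 2 ^ (h + 1) + y % 2 ^ (h + 1)) +
        2 ^ (h + 1) * (x / 2 ^ (h + 1) + y / 2 ^ (h + 1)) := by
      rw [mul_add]
      omega
    have h7 : 0 < 2 ^ (h + 1) := by positivity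
    constructor
    · rw [h6, Nat.add_mul_mod_self_left, Nat.mod_eq_of_lt h3]
    · rw [h6, Nat.add_mul_div_left _ _ h7, Nat.div_eq_of_lt h3, zero_add]
  have hsub : (((sid h q) ×ˢ (sid h q)).filter fun p => p.1 + p.2 = N) ⊆ {(x, y), (y, x)} := by
    rintro ⟨x', y'⟩ hxy'
    rw [mem_filter, mem_product] at hxy hxy'
    obtain ⟨⟨hx, hy⟩, hN⟩ := hxy
    obtain ⟨⟨hx', hy'⟩, hN'⟩ := hxy'
    simp only at hx hy hN hx' hy' hN'
    obtain ⟨a1, a2⟩ := key x hx y hy hN
    obtain ⟨b1, b2⟩ := key x' hx' y' hy' hN'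
    obtain ⟨c1, c2⟩ := mem_sid hq hx
    obtain ⟨d1, d2⟩ := mem_sid hq hy
    obtain ⟨e1, e2⟩ := mem_sid hq hx'
    obtain ⟨f1, f2⟩ := mem_sid hq hy'
    have hs := a1.trans b1.symm
    have ht := a2.trans b2.symm
    rw [c2, d2, e2, f2] at ht
    have hdx := Nat.div_add_mod x (2 ^ (h + 1))
    have hdy := Nat.div_add_mod y (2 ^ (h + 1))
    have hdx' := Nat.div_add_mod x' (2 ^ (h + 1))
    have hdy' := Nat.div_add_mod y' (2 ^ (h + 1))
    rw [mem_insert, mem_singleton]
    rcases sidon_pair hp hq2 c1 d1 e1 f1 hs ht with ⟨g1, g2⟩ | ⟨g1, g2⟩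
    · left
      rw [e2, g1, ← c2, hdx] at hdx'
      rw [f2, g2, ← d2, hdy] at hdy'
      rw [← hdx', ← hdy']
    · right
      rw [e2, g1, ← d2, hdy] at hdx'
      rw [f2, g2, ← c2, hdx] at hdy'
      rw [← hdx', ← hdy']
  exact (card_le_card hsub).trans card_le_two

end Sidon

section Blocks

variable {l : ℕ} {S : Finset ℕ}

lemma mem_blocks_succ (hS : ∀ a ∈ S, 2 * a < 2 ^ l) (m x : ℕ) :
    x ∈ blocks l S (m + 1) ↔ x % 2 ^ l ∈ S ∧ x / 2 ^ l ∈ blocks l S m := by
  have h0 : 0 < 2 ^ l := by positivity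
  show x ∈ (S ×ˢ blocks l S m).image (fun p => p.1 + 2 ^ l * p.2) ↔ _
  rw [mem_image]
  constructor
  · rintro ⟨⟨a, b⟩, hab, rfl⟩
    rw [mem_product] at hab
    obtain ⟨ha, hb⟩ := hab
    simp only at ha hb ⊢
    have h1 : a < 2 ^ l := by
      have := hS a ha
      omega
    rw [Nat.add_mul_mod_self_left, Nat.mod_eq_of_lt h1, Nat.add_mul_div_left _ _ h0,
      Nat.div_eq_of_lt h1, zero_add]
    exact ⟨ha, hb⟩
  · rintro ⟨h1, h2⟩
    exact ⟨(x % 2 ^ l, x / 2 ^ l), mem_product.2 ⟨h1, h2⟩, Nat.mod_add_div x (2 ^ l)⟩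

lemma card_blocks (hS : ∀ a ∈ S, 2 * a < 2 ^ l) (m : ℕ) :
    (blocks l S m).card = S.card ^ m := by
  have h0 : 0 < 2 ^ l := by positivity
  induction m with
  | zero => simp [blocks]
  | succ m ih =>
    show ((S ×ˢ blocks l S m).image (fun p => p.1 + 2 ^ l * p.2)).card = _
    rw [card_image_of_injOn, card_product, ih, pow_succ']
    rintro ⟨a, b⟩ hab ⟨a', b'⟩ hab' h
    rw [mem_coe, mem_product] at hab hab'
    simp only at hab hab' h
    have h1 := hS a hab.1
    have h2 := hS a' hab'.1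
    have h3 : a < 2 ^ l := by omega
    have h4 : a' < 2 ^ l := by omega
    have h5 := congrArg (· % 2 ^ l) h
    have h6 := congrArg (· / 2 ^ l) h
    simp only [Nat.add_mul_mod_self_left] at h5
    simp only [Nat.add_mul_div_left _ _ h0] at h6
    rw [Nat.mod_eq_of_lt h3, Nat.mod_eq_of_lt h4] at h5
    rw [Nat.div_eq_of_lt h3, Nat.div_eq_of_lt h4, zero_add, zero_add] at h6
    rw [h5, h6]

lemma blocks_lt (hS : ∀ a ∈ S, 2 * a < 2 ^ l) (m : ℕ) :
    ∀ x ∈ blocks l S m, x < 2 ^ (l * m) := by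
  have h0 : 0 < 2 ^ l := by positivity
  induction m with
  | zero =>
    intro x hx
    simp only [blocks, mem_singleton] at hx
    rw [hx]
    positivity
  | succ m ih =>
    intro x hx
    rw [mem_blocks_succ hS] at hx
    have h1 := ih _ hx.2
    rw [Nat.div_lt_iff_lt_mul h0] at h1
    have h2 : 2 ^ (l * (m + 1)) = 2 ^ (l * m) * 2 ^ l := by
      rw [← pow_add]
      congr 1
    rw [h2]
    exact h1

lemma rp_blocks (hS : ∀ a ∈ S, 2 * a < 2 ^ l) {g : ℕ} (hg : ∀ N, rpF S N ≤ g) (m : ℕ) :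
    ∀ N, rpF (blocks l S m) N ≤ g ^ m := by
  have h0 : 0 < 2 ^ l := by positivity
  induction m with
  | zero =>
    intro N
    unfold rpF
    rw [pow_zero]
    refine (card_filter_le _ _).trans ?_
    simp [blocks]
  | succ m ih =>
    intro N
    have h1 : rpF (blocks l S (m + 1)) N ≤
        rpF S (N % 2 ^ l) * rpF (blocks l S m) (N / 2 ^ l) := by
      unfold rpF
      rw [← card_product]
      refine card_le_card_of_injOn
        (fun p => ((p.1 % 2 ^ l, p.2 % 2 ^ l), (p.1 / 2 ^ l, p.2 / 2 ^ l))) ?_ ?_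
      · rintro ⟨x, y⟩ hxy
        rw [mem_coe, mem_filter, mem_product, mem_blocks_succ hS, mem_blocks_succ hS] at hxy
        obtain ⟨⟨⟨h1, h2⟩, h3, h4⟩, h5⟩ := hxy
        simp only at h1 h2 h3 h4 h5
        have e1 := hS _ h1
        have e2 := hS _ h3
        have e3 : x % 2 ^ l + y % 2 ^ l < 2 ^ l := by omega
        have e4 := Nat.div_add_mod x (2 ^ l)
        have e5 := Nat.div_add_mod y (2 ^ l)
        have e6 : N = (x % 2 ^ l + y % 2 ^ l) + 2 ^ l * (x / 2 ^ l + y / 2 ^ l) := by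
          rw [mul_add]
          omega
        have e7 : x % 2 ^ l + y % 2 ^ l = N % 2 ^ l := by
          rw [e6, Nat.add_mul_mod_self_left, Nat.mod_eq_of_lt e3]
        have e8 : x / 2 ^ l + y / 2 ^ l = N / 2 ^ l := by
          rw [e6, Nat.add_mul_div_left _ _ h0, Nat.div_eq_of_lt e3, zero_add]
        rw [mem_coe, mem_product, mem_filter, mem_filter, mem_product, mem_product]
        exact ⟨⟨⟨h1, h3⟩, e7⟩, ⟨h2, h4⟩, e8⟩
      · rintro ⟨x, y⟩ _ ⟨x', y'⟩ _ h
        simp only [Prod.mk.injEq] at h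
        obtain ⟨⟨h1, h2⟩, h3, h4⟩ := h
        have e1 := Nat.div_add_mod x (2 ^ l)
        have e2 := Nat.div_add_mod y (2 ^ l)
        rw [h3, h1, Nat.div_add_mod] at e1
        rw [h4, h2, Nat.div_add_mod] at e2
        rw [e1, e2]
    calc _ ≤ _ := h1
      _ ≤ g * g ^ m := Nat.mul_le_mul (hg _) (ih _)
      _ = g ^ (m + 1) := by rw [pow_succ']

/-- High sections. -/
lemma high_blocks (hS : ∀ a ∈ S, 2 * a < 2 ^ l) (hS1 : 1 ≤ S.card) (M m : ℕ) :
    ∀ j, (insert ∅ ((range (2 ^ j)).image fun r =>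
      (range M).filter fun n => 2 ^ j * n + r ∈ blocks l S m)).card ≤ S.card + 1 := by
  induction m with
  | zero =>
    intro j
    have hsub : (insert ∅ ((range (2 ^ j)).image fun r =>
        (range M).filter fun n => 2 ^ j * n + r ∈ blocks l S 0)) ⊆
        {∅, (range M).filter fun n => 2 ^ j * n + 0 ∈ blocks l S 0} := by
      intro X hX
      rw [mem_insert, mem_image] at hX
      rw [mem_insert, mem_singleton]
      rcases hX with h | ⟨r, -, rfl⟩
      · exact Or.inl h
      · rcases Nat.eq_zero_or_pos r with h | h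
        · right
          rw [h]
        · left
          refine filter_eq_empty_iff.2 fun n _ hn => ?_
          simp only [blocks, mem_singleton] at hn
          omega
    exact (card_le_card hsub).trans (card_le_two.trans (by omega))
  | succ m ih =>
    intro j
    rcases Nat.lt_or_ge j l with hj | hj
    · -- `r` is the residue of an element of `S`
      have hsub : (insert ∅ ((range (2 ^ j)).image fun r =>
          (range M).filter fun n => 2 ^ j * n + r ∈ blocks l S (m + 1))) ⊆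
          insert ∅ ((S.image (· % 2 ^ j)).image fun r =>
            (range M).filter fun n => 2 ^ j * n + r ∈ blocks l S (m + 1)) := by
        intro X hX
        rw [mem_insert, mem_image] at hX
        rw [mem_insert, mem_image]
        rcases hX with h | ⟨r, hr, rfl⟩
        · exact Or.inl h
        · by_cases he : ((range M).filter fun n => 2 ^ j * n + r ∈ blocks l S (m + 1)) = ∅
          · exact Or.inl he
          · right
            obtain ⟨n, hn⟩ := nonempty_iff_ne_empty.2 he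
            rw [mem_filter, mem_blocks_succ hS] at hn
            refine ⟨r, mem_image.2 ⟨_, hn.2.1, ?_⟩, rfl⟩
            have h1 : (2 ^ j * n + r) % 2 ^ l % 2 ^ j = (2 ^ j * n + r) % 2 ^ j :=
              Nat.mod_mod_of_dvd _ (pow_dvd_pow 2 hj.le)
            rw [h1, Nat.mul_add_mod, Nat.mod_eq_of_lt (mem_range.1 hr)]
      calc _ ≤ _ := card_le_card hsub
        _ ≤ _ + 1 := card_insert_le _ _
        _ ≤ S.card + 1 := Nat.add_le_add_right (card_image_le.trans card_image_le) 1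
    · refine (card_le_card ?_).trans (ih (j - l))
      intro X hX
      rw [mem_insert, mem_image] at hX
      rw [mem_insert, mem_image]
      rcases hX with h | ⟨r, hr, rfl⟩
      · exact Or.inl h
      · have hpow : 2 ^ j = 2 ^ l * 2 ^ (j - l) := by
          rw [← pow_add]
          congr 1
          omega
        have h0 : 0 < 2 ^ l := by positivity
        have h1 : ∀ n, (2 ^ j * n + r) % 2 ^ l = r % 2 ^ l := by
          intro n
          rw [hpow, mul_assoc, Nat.mul_add_mod]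
        have h2 : ∀ n, (2 ^ j * n + r) / 2 ^ l = 2 ^ (j - l) * n + r / 2 ^ l := by
          intro n
          rw [hpow, mul_assoc, Nat.mul_add_div h0]
        by_cases hr' : r % 2 ^ l ∈ S
        · right
          refine ⟨r / 2 ^ l, ?_, ?_⟩
          · rw [mem_range] at hr ⊢
            rw [hpow] at hr
            exact Nat.div_lt_of_lt_mul hr
          · refine filter_congr fun n _ => ?_
            rw [mem_blocks_succ hS, h1, h2]
            exact ⟨fun h => ⟨hr', h⟩, fun h => h.2⟩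
        · left
          refine filter_eq_empty_iff.2 fun n _ hn => ?_
          rw [mem_blocks_succ hS, h1] at hn
          exact hr' hn.1

/-- Low sections. -/
lemma low_blocks (hS : ∀ a ∈ S, 2 * a < 2 ^ l) (hS1 : 1 ≤ S.card) (m : ℕ) :
    ∀ j M, (insert ∅ ((range M).image fun n =>
      (range (2 ^ j)).filter fun r => 2 ^ j * n + r ∈ blocks l S m)).card ≤ S.card + 1 := by
  induction m with
  | zero =>
    intro j M
    have hsub : (insert ∅ ((range M).image fun n =>
        (range (2 ^ j)).filter fun r => 2 ^ j * n + r ∈ blocks l S 0)) ⊆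
        {∅, (range (2 ^ j)).filter fun r => 2 ^ j * 0 + r ∈ blocks l S 0} := by
      intro X hX
      rw [mem_insert, mem_image] at hX
      rw [mem_insert, mem_singleton]
      rcases hX with h | ⟨n, -, rfl⟩
      · exact Or.inl h
      · rcases Nat.eq_zero_or_pos n with h | h
        · right
          rw [h]
        · left
          refine filter_eq_empty_iff.2 fun r _ hn => ?_
          simp only [blocks, mem_singleton] at hn
          have : 0 < 2 ^ j * n := by positivity
          omega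
    exact (card_le_card hsub).trans (card_le_two.trans (by omega))
  | succ m ih =>
    intro j M
    rcases Nat.lt_or_ge j l with hj | hj
    · have hpow : 2 ^ l = 2 ^ j * 2 ^ (l - j) := by
        rw [← pow_add]
        congr 1
        omega
      have h0 : 0 < 2 ^ j := by positivity
      have hsub : (insert ∅ ((range M).image fun n =>
          (range (2 ^ j)).filter fun r => 2 ^ j * n + r ∈ blocks l S (m + 1))) ⊆
          insert ∅ (S.image fun a =>
            (range (2 ^ j)).filter fun r => 2 ^ j * (a / 2 ^ j) + r ∈ S) := by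
        intro X hX
        rw [mem_insert, mem_image] at hX
        rw [mem_insert, mem_image]
        rcases hX with h | ⟨n, -, rfl⟩
        · exact Or.inl h
        · by_cases he : ((range (2 ^ j)).filter fun r => 2 ^ j * n + r ∈ blocks l S (m + 1)) = ∅
          · exact Or.inl he
          · right
            obtain ⟨r, hr⟩ := nonempty_iff_ne_empty.2 he
            rw [mem_filter, mem_range, mem_blocks_succ hS] at hr
            have key : ∀ r < 2 ^ j, (2 ^ j * n + r) % 2 ^ l = 2 ^ j * (n % 2 ^ (l - j)) + r ∧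
                (2 ^ j * n + r) / 2 ^ l = n / 2 ^ (l - j) := by
              intro r hr
              have h1 := Nat.div_add_mod n (2 ^ (l - j))
              have h2 : 2 ^ j * (n % 2 ^ (l - j)) + r < 2 ^ l := by
                have h3 : n % 2 ^ (l - j) + 1 ≤ 2 ^ (l - j) := Nat.mod_lt _ (by positivity)
                calc 2 ^ j * (n % 2 ^ (l - j)) + r < 2 ^ j * (n % 2 ^ (l - j)) + 2 ^ j := by omega
                  _ = 2 ^ j * (n % 2 ^ (l - j) + 1) := by ring
                  _ ≤ 2 ^ j * 2 ^ (l - j) := Nat.mul_le_mul_left _ h3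
                  _ = 2 ^ l := hpow.symm
              have h4 : 2 ^ j * n + r = (2 ^ j * (n % 2 ^ (l - j)) + r) +
                  2 ^ l * (n / 2 ^ (l - j)) := by
                conv_lhs => rw [← h1]
                rw [hpow]
                ring
              constructor
              · rw [h4, Nat.add_mul_mod_self_left, Nat.mod_eq_of_lt h2]
              · rw [h4, Nat.add_mul_div_left _ _ (by positivity), Nat.div_eq_of_lt h2, zero_add]
            obtain ⟨k1, k2⟩ := key r hr.1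
            rw [k1, k2] at hr
            refine ⟨_, hr.2.1, ?_⟩
            have h5 : (2 ^ j * (n % 2 ^ (l - j)) + r) / 2 ^ j = n % 2 ^ (l - j) := by
              rw [Nat.mul_add_div h0, Nat.div_eq_of_lt hr.1, add_zero]
            rw [h5]
            refine filter_congr fun r' hr' => ?_
            obtain ⟨k1', k2'⟩ := key r' (mem_range.1 hr')
            rw [mem_blocks_succ hS, k1', k2']
            exact ⟨fun h => ⟨h, hr.2.2⟩, fun h => h.1⟩
      calc _ ≤ _ := card_le_card hsub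
        _ ≤ _ + 1 := card_insert_le _ _
        _ ≤ S.card + 1 := Nat.add_le_add_right card_image_le 1
    · have hpow : 2 ^ j = 2 ^ l * 2 ^ (j - l) := by
        rw [← pow_add]
        congr 1
        omega
      have h0 : 0 < 2 ^ l := by positivity
      have key : ∀ n, ((range (2 ^ j)).filter fun r => 2 ^ j * n + r ∈ blocks l S (m + 1)) =
          (fun X : Finset ℕ => (S ×ˢ X).image fun p => p.1 + 2 ^ l * p.2)
            ((range (2 ^ (j - l))).filter fun r => 2 ^ (j - l) * n + r ∈ blocks l S m) := by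
        intro n
        ext r
        rw [mem_filter, mem_range, mem_blocks_succ hS]
        simp only
        rw [mem_image]
        have h1 : (2 ^ j * n + r) % 2 ^ l = r % 2 ^ l := by
          rw [hpow, mul_assoc, Nat.mul_add_mod]
        have h2 : (2 ^ j * n + r) / 2 ^ l = 2 ^ (j - l) * n + r / 2 ^ l := by
          rw [hpow, mul_assoc, Nat.mul_add_div h0]
        rw [h1, h2]
        constructor
        · rintro ⟨h3, h4, h5⟩
          refine ⟨(r % 2 ^ l, r / 2 ^ l), ?_, Nat.mod_add_div r (2 ^ l)⟩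
          rw [mem_product, mem_filter, mem_range]
          rw [hpow] at h3
          exact ⟨h4, Nat.div_lt_of_lt_mul h3, h5⟩
        · rintro ⟨⟨a, b⟩, hab, rfl⟩
          rw [mem_product, mem_filter, mem_range] at hab
          obtain ⟨h3, h4, h5⟩ := hab
          simp only at h3 h4 h5 ⊢
          have h6 : a < 2 ^ l := by
            have := hS a h3
            omega
          have h7 : (a + 2 ^ l * b) % 2 ^ l = a := by
            rw [Nat.add_mul_mod_self_left, Nat.mod_eq_of_lt h6]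
          have h8 : (a + 2 ^ l * b) / 2 ^ l = b := by
            rw [Nat.add_mul_div_left _ _ h0, Nat.div_eq_of_lt h6, zero_add]
          refine ⟨?_, ?_, ?_⟩
          · have h9 : b + 1 ≤ 2 ^ (j - l) := h4
            calc a + 2 ^ l * b < 2 ^ l + 2 ^ l * b := by omega
              _ = 2 ^ l * (b + 1) := by ring
              _ ≤ 2 ^ l * 2 ^ (j - l) := Nat.mul_le_mul_left _ h9
              _ = 2 ^ j := hpow.symm
          · rw [h7]
            exact h3
          · rw [h8]
            exact h5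
      have hsub : (insert ∅ ((range M).image fun n =>
          (range (2 ^ j)).filter fun r => 2 ^ j * n + r ∈ blocks l S (m + 1))) ⊆
          (insert ∅ ((range M).image fun n =>
            (range (2 ^ (j - l))).filter fun r => 2 ^ (j - l) * n + r ∈ blocks l S m)).image
            (fun X : Finset ℕ => (S ×ˢ X).image fun p => p.1 + 2 ^ l * p.2) := by
        intro X hX
        rw [mem_insert, mem_image] at hX
        rw [mem_image]
        rcases hX with h | ⟨n, hn, rfl⟩
        · exact ⟨∅, mem_insert_self _ _, by rw [h]; simp⟩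
        · exact ⟨_, mem_insert_of_mem (mem_image_of_mem _ hn), (key n).symm⟩
      exact (card_le_card hsub).trans (card_image_le.trans (ih _ _))

end Blocks

/-- The product form is sharp: `2 ^ k` representations and `C * 2 ^ (J / (2 k))` sections. -/
theorem sharp (k : ℕ) (hk : 1 ≤ k) : ∃ C : ℕ, 1 ≤ C ∧ ∀ J : ℕ, ∃ A : Finset ℕ,
    A ⊆ Finset.range (2 ^ J) ∧ (2:ℝ) ^ ((J:ℝ) / 2) ≤ C * A.card ∧ (∀ N, rpF A N ≤ 2 ^ k) ∧
    (∀ j ≤ J, ((((Finset.range (2 ^ j)).image fun r =>
      (Finset.range (2 ^ (J - j))).filter fun n => 2 ^ j * n + r ∈ A).card : ℕ) : ℝ) ≤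
        C * (2:ℝ) ^ ((J:ℝ) / (2 * k))) ∧
    ∀ j ≤ J, ((((Finset.range (2 ^ (J - j))).image fun n =>
      (Finset.range (2 ^ j)).filter fun r => 2 ^ j * n + r ∈ A).card : ℕ) : ℝ) ≤
        C * (2:ℝ) ^ ((J:ℝ) / (2 * k)) := by
  refine ⟨2 ^ (3 * k), Nat.one_le_two_pow, fun J => ?_⟩
  have hkR : (0:ℝ) < k := by exact_mod_cast hk
  have hdiv := Nat.div_add_mod J (2 * k)
  have hmod : J % (2 * k) < 2 * k := Nat.mod_lt _ (by omega)
  obtain ⟨m0, hm0⟩ : ∃ m0, m0 = J / (2 * k) := ⟨_, rfl⟩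
  rw [← hm0] at hdiv
  have hJle : 2 * k * m0 ≤ J := by omega
  have hJlt : J < 2 * k * (m0 + 1) := by
    rw [mul_add]
    omega
  have hpowle : (2:ℝ) ^ m0 ≤ (2:ℝ) ^ ((J:ℝ) / (2 * k)) := by
    rw [← Real.rpow_natCast]
    refine Real.rpow_le_rpow_of_exponent_le (by norm_num) ?_
    rw [le_div_iff₀ (by positivity)]
    have : ((2 * k * m0 : ℕ) : ℝ) ≤ J := by exact_mod_cast hJle
    push_cast at this
    linarith
  have hCR : ((2 ^ (3 * k) : ℕ) : ℝ) = (2:ℝ) ^ (3 * k) := by push_cast; rfl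
  have hC1 : (1:ℝ) ≤ ((2 ^ (3 * k) : ℕ) : ℝ) := by
    rw [hCR]
    exact one_le_pow₀ (by norm_num)
  by_cases hm : m0 < 3
  · -- the small case
    have hbig : (2:ℝ) ^ ((J:ℝ) / 2) ≤ (2:ℝ) ^ (3 * k) := by
      rw [← Real.rpow_natCast]
      refine Real.rpow_le_rpow_of_exponent_le (by norm_num) ?_
      have h1 : J < 2 * k * 3 := lt_of_lt_of_le hJlt (Nat.mul_le_mul_left _ (by omega))
      have h2 : (J:ℝ) ≤ ((2 * k * 3 : ℕ) : ℝ) := by exact_mod_cast h1.le
      push_cast at h2 ⊢
      linarith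
    have hS : ∀ a ∈ ({0} : Finset ℕ), 2 * a < 2 ^ 0 := by
      intro a ha
      rw [mem_singleton] at ha
      rw [ha]
      norm_num
    have h2pow : (2:ℝ) ≤ ((2 ^ (3 * k) : ℕ) : ℝ) * (2:ℝ) ^ ((J:ℝ) / (2 * k)) := by
      have h1 : (2:ℝ) ≤ ((2 ^ (3 * k) : ℕ) : ℝ) := by
        rw [hCR]
        calc (2:ℝ) = 2 ^ 1 := by norm_num
          _ ≤ 2 ^ (3 * k) := pow_le_pow_right₀ (by norm_num) (by omega)
      have h2 : (1:ℝ) ≤ (2:ℝ) ^ ((J:ℝ) / (2 * k)) := by
        have : (1:ℝ) ≤ (2:ℝ) ^ m0 := one_le_pow₀ (by norm_num)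
        exact this.trans hpowle
      nlinarith
    refine ⟨{0}, ?_, ?_, ?_, ?_, ?_⟩
    · intro x hx
      rw [mem_singleton] at hx
      rw [hx, mem_range]
      positivity
    · rw [card_singleton, hCR]
      simpa using hbig
    · intro N
      unfold rpF
      refine (card_filter_le _ _).trans ?_
      rw [card_product, card_singleton]
      exact Nat.one_le_two_pow
    · intro j _
      have h1 := high_blocks (l := 0) hS (by simp) (2 ^ (J - j)) 0 j
      have h2 := (card_le_card (subset_insert ∅ _)).trans h1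
      have h3 : blocks 0 {0} 0 = {0} := rfl
      rw [h3, card_singleton] at h2
      refine le_trans ?_ h2pow
      exact_mod_cast h2
    · intro j _
      have h1 := low_blocks (l := 0) hS (by simp) 0 j (2 ^ (J - j))
      have h2 := (card_le_card (subset_insert ∅ _)).trans h1
      have h3 : blocks 0 {0} 0 = {0} := rfl
      rw [h3, card_singleton] at h2
      refine le_trans ?_ h2pow
      exact_mod_cast h2
  · -- the main case
    push Not at hm
    obtain ⟨h, rfl⟩ : ∃ h, m0 = h + 1 := ⟨m0 - 1, by omega⟩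
    obtain ⟨q, hp, hq1, hq2⟩ := Nat.exists_prime_lt_and_le_two_mul (2 ^ (h - 1)) (by positivity)
    have hh : 2 * 2 ^ (h - 1) = 2 ^ h := by
      rw [← pow_succ']
      congr 1
      omega
    rw [hh] at hq2
    have hq : q < 2 ^ h := by
      rcases Nat.lt_or_ge q (2 ^ h) with h1 | h1
      · exact h1
      · exfalso
        have h2 : q = 2 ^ h := le_antisymm hq2 h1
        rw [h2] at hp
        exact Nat.Prime.not_prime_pow (by omega : 2 ≤ h) hp
    have hq3 : 2 < q := by
      have : 2 ^ 1 ≤ 2 ^ (h - 1) := Nat.pow_le_pow_right (by norm_num) (by omega)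
      omega
    have hS : ∀ a ∈ sid h q, 2 * a < 2 ^ (2 * (h + 1)) := fun a ha => sid_lt hq ha
    have hc : (sid h q).card = q := card_sid hq
    have hc1 : 1 ≤ (sid h q).card := by omega
    have hlk : 2 * (h + 1) * k ≤ J := by
      have : 2 * (h + 1) * k = 2 * k * (h + 1) := by ring
      omega
    have hsec : ((sid h q).card + 1 : ℕ) ≤ 2 ^ (h + 1) := by
      rw [hc, pow_succ']
      omega
    have hsecR : ∀ n : ℕ, n ≤ (sid h q).card + 1 →
        (n : ℝ) ≤ ((2 ^ (3 * k) : ℕ) : ℝ) * (2:ℝ) ^ ((J:ℝ) / (2 * k)) := by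
      intro n hn
      have h1 : (n : ℝ) ≤ (2:ℝ) ^ (h + 1) := by exact_mod_cast hn.trans hsec
      have h2 : (0:ℝ) ≤ (2:ℝ) ^ ((J:ℝ) / (2 * k)) := by positivity
      calc (n : ℝ) ≤ (2:ℝ) ^ (h + 1) := h1
        _ ≤ (2:ℝ) ^ ((J:ℝ) / (2 * k)) := hpowle
        _ = 1 * (2:ℝ) ^ ((J:ℝ) / (2 * k)) := (one_mul _).symm
        _ ≤ _ := mul_le_mul_of_nonneg_right hC1 h2
    refine ⟨blocks (2 * (h + 1)) (sid h q) k, ?_, ?_, rp_blocks hS (rp_sid hp hq3 hq) k, ?_, ?_⟩
    · intro x hx
      rw [mem_range]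
      exact (blocks_lt hS k x hx).trans_le (Nat.pow_le_pow_right (by norm_num) hlk)
    · rw [card_blocks hS, hc, hCR]
      have h1 : (2:ℝ) ^ ((J:ℝ) / 2) ≤ (2:ℝ) ^ (k * (h + 2)) := by
        rw [← Real.rpow_natCast]
        refine Real.rpow_le_rpow_of_exponent_le (by norm_num) ?_
        have h2 : (J:ℝ) ≤ ((2 * k * (h + 1 + 1) : ℕ) : ℝ) := by exact_mod_cast hJlt.le
        push_cast at h2 ⊢
        linarith
      have h3 : (2:ℝ) ^ (k * (h + 2)) = 2 ^ (3 * k) * ((2:ℝ) ^ (h - 1)) ^ k := by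
        rw [← pow_mul, ← pow_add]
        congr 1
        obtain ⟨h', rfl⟩ : ∃ h', h = h' + 1 := ⟨h - 1, by omega⟩
        rw [Nat.add_sub_cancel]
        ring
      have h4 : ((2:ℝ) ^ (h - 1)) ^ k ≤ ((q ^ k : ℕ) : ℝ) := by
        have h5 : (2 ^ (h - 1)) ^ k ≤ q ^ k := Nat.pow_le_pow_left hq1.le k
        exact_mod_cast h5
      calc (2:ℝ) ^ ((J:ℝ) / 2) ≤ _ := h1
        _ = 2 ^ (3 * k) * ((2:ℝ) ^ (h - 1)) ^ k := h3
        _ ≤ 2 ^ (3 * k) * ((q ^ k : ℕ) : ℝ) := mul_le_mul_of_nonneg_left h4 (by positivity)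
    · intro j _
      exact hsecR _ ((card_le_card (subset_insert ∅ _)).trans (high_blocks hS hc1 _ k j))
    · intro j _
      exact hsecR _ ((card_le_card (subset_insert ∅ _)).trans (low_blocks hS hc1 k j _))

end Pool.Agent.Helper79.TY
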